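import Pool.Agent.TH826.MK.Exact
import Mathlib.Analysis.Complex.BranchLogRoot
set_option autoImplicit false

/-!
Averages over circles of `log |ψ(z + 1/z)|`.
-/

namespace Pool.Agent.Y775.CC

open MeasureTheory Set Filter Topology Metric

open Pool.Agent.TH826.MK (circ norm_circ circ_add_one contDiff_circ hasDerivAt_circ circ_eq)

/-- the point `z + 1/z`, where `z = R exp(2πit)` -/
noncomputable def uu (R t : ℝ) : ℂ := circ R t + (circ R t)⁻¹

theorem uu_add_one (R t : ℝ) : uu R (t + 1) = uu R t := by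
  unfold uu
  rw [circ_add_one]

theorem circ_ne_zero {R : ℝ} (hR : 0 < R) (t : ℝ) : circ R t ≠ 0 := by
  rw [← norm_pos_iff, norm_circ hR.le]
  exact hR

theorem contDiff_uu {R : ℝ} (hR : 0 < R) {m : WithTop ℕ∞} : ContDiff ℝ m (uu R) :=
  (contDiff_circ R).add ((contDiff_circ R).inv (circ_ne_zero hR))

theorem continuous_uu {R : ℝ} (hR : 0 < R) : Continuous (uu R) :=
  (contDiff_uu hR (m := 0)).continuous

theorem uu_one (t : ℝ) : uu 1 t = ((2 * Real.cos (2 * Real.pi * t) : ℝ) : ℂ) := by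
  unfold uu circ
  rw [Complex.ofReal_one, one_mul, ← Complex.exp_neg]
  push_cast
  rw [Complex.cos]
  have e1 : 2 * (Real.pi : ℂ) * Complex.I * t = 2 * Real.pi * t * Complex.I := by ring
  have e2 : -(2 * (Real.pi : ℂ) * Complex.I * t) = -(2 * Real.pi * t) * Complex.I := by ring
  rw [e1, ← e1, e2, e1]
  ring

theorem abs_cos_le (t : ℝ) : |2 * Real.cos (2 * Real.pi * t)| ≤ 2 := by
  rw [abs_mul, abs_two]
  have := Real.abs_cos_le_one (2 * Real.pi * t)
  linarith

theorem uu_one_mem {V : Set ℂ} (hV : ∀ t : ℝ, |t| ≤ 2 → (t : ℂ) ∈ V) (t : ℝ) : uu 1 t ∈ V := by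
  rw [uu_one]
  exact hV _ (abs_cos_le t)

/-- every point of the circle is of the form `circ R t` -/
theorem exists_circ {z : ℂ} {R : ℝ} (hz : ‖z‖ = R) : ∃ t : ℝ, circ R t = z := by
  refine ⟨z.arg / (2 * Real.pi), ?_⟩
  unfold circ
  rw [← hz]
  have : 2 * (Real.pi : ℂ) * Complex.I * ((z.arg / (2 * Real.pi) : ℝ) : ℂ) =
      z.arg * Complex.I := by
    have hpi : (Real.pi : ℂ) ≠ 0 := by exact_mod_cast Real.pi_ne_zero
    push_cast
    field_simp
  rw [this]
  exact Complex.norm_mul_exp_arg_mul_I z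

/-- A radius for which the curve `z + 1/z`, `|z| ≤ R`, lies in a given neighbourhood of the
interval. -/
theorem exists_radius' {V : Set ℂ} (hVo : IsOpen V) (hV : ∀ t : ℝ, |t| ≤ 2 → (t : ℂ) ∈ V) :
    ∃ R : ℝ, 1 < R ∧ ∀ z : ℂ, 1 ≤ ‖z‖ → ‖z‖ ≤ R → z + z⁻¹ ∈ V := by
  have hK : IsCompact ((fun t : ℝ => (t : ℂ)) '' Icc (-2) 2) :=
    isCompact_Icc.image Complex.continuous_ofReal
  have hKV : ((fun t : ℝ => (t : ℂ)) '' Icc (-2) 2) ⊆ V := by
    rintro _ ⟨t, ht, rfl⟩
    exact hV t (abs_le.2 ht)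
  obtain ⟨δ, hδ, hsub⟩ := hK.exists_thickening_subset_open hVo hKV
  refine ⟨1 + δ / 4, by linarith, fun z hz1 hz2 => hsub ?_⟩
  have hz0 : 0 < ‖z‖ := by linarith
  have hzne : z ≠ 0 := norm_pos_iff.1 hz0
  obtain ⟨t, ht⟩ := exists_circ (z := z) rfl
  have h1 : circ 1 t = z / ‖z‖ := by
    have h2 : ((‖z‖ : ℝ) : ℂ) ≠ 0 := by exact_mod_cast hz0.ne'
    have h3 : circ 1 t * ((‖z‖ : ℝ) : ℂ) = circ ‖z‖ t := by
      unfold circ
      push_cast
      ring
    rw [eq_div_iff h2, h3, ht]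
  rw [mem_thickening_iff]
  refine ⟨uu 1 t, ?_, ?_⟩
  · rw [uu_one]
    exact ⟨_, abs_le.1 (abs_cos_le t), rfl⟩
  · rw [dist_eq_norm]
    have h2 : ((‖z‖ : ℝ) : ℂ) ≠ 0 := by exact_mod_cast hz0.ne'
    have e : z + z⁻¹ - uu 1 t = (z / ‖z‖) * ((‖z‖ - 1 : ℝ) : ℂ) +
        (‖z‖ / z) * ((‖z‖⁻¹ - 1 : ℝ) : ℂ) := by
      unfold uu
      rw [h1]
      push_cast
      field_simp
      ring
    have n1 : ‖z / (‖z‖ : ℂ)‖ = 1 := by
      rw [norm_div, Complex.norm_real, norm_norm, div_self hz0.ne']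
    have n2 : ‖(‖z‖ : ℂ) / z‖ = 1 := by
      rw [norm_div, Complex.norm_real, norm_norm, div_self hz0.ne']
    rw [e]
    refine (norm_add_le _ _).trans_lt ?_
    rw [norm_mul, norm_mul, n1, n2, one_mul, one_mul, Complex.norm_real, Complex.norm_real,
      Real.norm_eq_abs, Real.norm_eq_abs, abs_of_nonneg (by linarith : (0 : ℝ) ≤ ‖z‖ - 1)]
    have h3 : ‖z‖⁻¹ ≤ 1 := inv_le_one_of_one_le₀ hz1
    rw [abs_of_nonpos (by linarith)]
    have h4 : 1 - ‖z‖⁻¹ ≤ ‖z‖ - 1 := by
      have h5 : ‖z‖ * ‖z‖⁻¹ = 1 := mul_inv_cancel₀ hz0.ne'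
      nlinarith
    linarith

/-- averages over circles as integrals over `[0,1]` -/
theorem circleAverage_eq_circ {E : Type*} [NormedAddCommGroup E] [NormedSpace ℝ E]
    (f : ℂ → E) (R : ℝ) :
    Real.circleAverage f 0 R = ∫ t in (0 : ℝ)..1, f (circ R t) := by
  rw [Real.circleAverage_def]
  simp only [circ_eq]
  have h := intervalIntegral.integral_comp_mul_left (a := 0) (b := 1)
    (fun θ => f (circleMap 0 R θ)) (c := 2 * Real.pi) (by positivity)
  rw [mul_zero, mul_one] at h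
  rw [h]

/-- The average of an analytic function of `z + 1/z` over the circles does not depend on the
radius. -/
theorem avg_eq {V : Set ℂ} (hVo : IsOpen V) {R : ℝ} (hR : 1 ≤ R)
    (hV : ∀ z : ℂ, 1 ≤ ‖z‖ → ‖z‖ ≤ R → z + z⁻¹ ∈ V) {g : ℂ → ℂ} (hg : DifferentiableOn ℂ g V) :
    ∫ t in (0 : ℝ)..1, g (uu R t) = ∫ t in (0 : ℝ)..1, g (uu 1 t) := by
  have hR0 : 0 < R := one_pos.trans_le hR
  set f : ℂ → ℂ := fun z => g (z + z⁻¹) with hf
  have hd : ∀ z : ℂ, 1 ≤ ‖z‖ → ‖z‖ ≤ R → DifferentiableAt ℂ f z := by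
    intro z h1 h2
    have hz : z ≠ 0 := norm_pos_iff.1 (one_pos.trans_le h1)
    have h3 : DifferentiableAt ℂ g (z + z⁻¹) :=
      hg.differentiableAt (hVo.mem_nhds (hV z h1 h2))
    exact h3.comp z (differentiableAt_id.add (differentiableAt_inv hz))
  have h1 := Complex.circleIntegral_sub_center_inv_smul_eq_of_differentiable_on_annulus_off_countable
    (c := 0) (r := 1) (R := R) one_pos hR (f := f) (s := ∅) countable_empty
    (fun z hz => by
      have h2 : ‖z‖ ≤ R := by simpa using hz.1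
      have h3 : 1 ≤ ‖z‖ := by simpa using hz.2
      exact (hd z h3 h2).continuousAt.continuousWithinAt)
    (fun z hz => by
      have h2 : ‖z‖ < R := by simpa using hz.1.1
      have h3 : 1 < ‖z‖ := by simpa using hz.1.2
      exact hd z h3.le h2.le)
  have h4 := Real.circleAverage_eq_circleIntegral (f := f) (c := 0) hR0.ne'
  have h5 := Real.circleAverage_eq_circleIntegral (f := f) (c := 0) (one_ne_zero (α := ℝ))
  rw [h1, ← h5, circleAverage_eq_circ, circleAverage_eq_circ] at h4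
  exact h4

theorem isSimplyConnected_of_convex {V : Set ℂ} (hVc : Convex ℝ V) (hne : V.Nonempty) :
    IsSimplyConnected V := by
  have : ContractibleSpace V := hVc.contractibleSpace hne
  exact SimplyConnectedSpace.ofContractible V

/-- analytic logarithms -/
theorem exists_log {V : Set ℂ} (hVo : IsOpen V) (hVc : Convex ℝ V) (hne : V.Nonempty)
    {ψ : ℂ → ℂ} (hψ : DifferentiableOn ℂ ψ V) (h0 : ∀ u ∈ V, ψ u ≠ 0) :
    ∃ g : ℂ → ℂ, DifferentiableOn ℂ g V ∧ ∀ u ∈ V, Complex.exp (g u) = ψ u := by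
  obtain ⟨g, hgc, hg⟩ := Complex.exists_continuousOn_eqOn_exp_comp
    (isSimplyConnected_of_convex hVc hne) hVo hψ.continuousOn (by
      rintro ⟨u, hu, h⟩
      exact h0 u hu h)
  refine ⟨g, fun u hu => ?_, fun u hu => hg hu⟩
  have hgu : ContinuousAt g u := hgc.continuousAt (hVo.mem_nhds hu)
  have hψu : DifferentiableAt ℂ ψ u := hψ.differentiableAt (hVo.mem_nhds hu)
  have h1 : ∀ᶠ y in 𝓝 u, g y = g u + Complex.log (ψ y / ψ u) := by
    have h2 : ∀ᶠ y in 𝓝 u, ‖g y - g u‖ < 3 := by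
      have h3 : ContinuousAt (fun y => ‖g y - g u‖) u := (hgu.sub continuousAt_const).norm
      refine h3.eventually_lt continuousAt_const ?_
      simp
    filter_upwards [h2, hVo.mem_nhds hu] with y hy hyV
    have h4 : ψ y / ψ u = Complex.exp (g y - g u) := by
      rw [Complex.exp_sub]
      have h5 : Complex.exp (g y) = ψ y := hg hyV
      have h6 : Complex.exp (g u) = ψ u := hg hu
      rw [h5, h6]
    have h7 := Complex.abs_im_le_norm (g y - g u)
    have h8 := Real.pi_gt_three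
    have h9 := abs_lt.1 (h7.trans_lt hy)
    rw [h4, Complex.log_exp (by linarith) (by linarith)]
    ring
  have h2 : DifferentiableAt ℂ (fun y => g u + Complex.log (ψ y / ψ u)) u := by
    refine DifferentiableAt.const_add _ ?_
    refine DifferentiableAt.clog (hψu.div_const _) ?_
    rw [div_self (h0 u hu)]
    simp
  exact (h2.congr_of_eventuallyEq h1).differentiableWithinAt

section log

variable {V : Set ℂ} (hVo : IsOpen V) (hVc : Convex ℝ V) {R : ℝ} (hR : 1 ≤ R)
  (hV : ∀ z : ℂ, 1 ≤ ‖z‖ → ‖z‖ ≤ R → z + z⁻¹ ∈ V) {ψ : ℂ → ℂ} (hψ : DifferentiableOn ℂ ψ V)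
  (h0 : ∀ u ∈ V, ψ u ≠ 0)

include hR hV in
theorem uu_mem (t : ℝ) : uu R t ∈ V :=
  hV _ (by rw [norm_circ (by linarith)]; exact hR) (by rw [norm_circ (by linarith)])

include hR hV in
theorem uu_one_mem' (t : ℝ) : uu 1 t ∈ V :=
  hV _ (by rw [norm_circ (by linarith)]) (by rw [norm_circ (by linarith)]; exact hR)

include hVo hVc hR hV hψ h0

/-- The average of `log |ψ(z + 1/z)|` over the circles does not depend on the radius. -/
theorem avg_log_eq : ∫ t in (0 : ℝ)..1, Real.log ‖ψ (uu R t)‖ =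
    ∫ t in (0 : ℝ)..1, Real.log ‖ψ (uu 1 t)‖ := by
  have hR0 : 0 < R := one_pos.trans_le hR
  obtain ⟨g, hg, hexp⟩ := exists_log hVo hVc ⟨_, uu_mem hR hV 0⟩ hψ h0
  have h1 : ∀ u ∈ V, Real.log ‖ψ u‖ = (g u).re := by
    intro u hu
    rw [← hexp u hu, Complex.norm_exp, Real.log_exp]
  have h2 : ∀ r : ℝ, 0 < r → (∀ t, uu r t ∈ V) →
      ∫ t in (0 : ℝ)..1, Real.log ‖ψ (uu r t)‖ = (∫ t in (0 : ℝ)..1, g (uu r t)).re := by
    intro r hr hm
    have hcont : Continuous fun t => g (uu r t) :=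
      hg.continuousOn.comp_continuous (continuous_uu hr) hm
    have h3 := Complex.reCLM.intervalIntegral_comp_comm
      (hcont.intervalIntegrable (μ := volume) 0 1)
    simp only [Complex.reCLM_apply] at h3
    rw [← h3]
    refine intervalIntegral.integral_congr fun t _ => ?_
    exact h1 _ (hm t)
  rw [h2 R hR0 (uu_mem hR hV), h2 1 one_pos (uu_one_mem' hR hV), avg_eq hVo hR hV hg]

/-- The winding number of `ψ(z + 1/z)` vanishes. -/
theorem wind_eq_zero : ∫ t in (0 : ℝ)..1,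
    (deriv (fun t => ψ (uu R t)) t / ψ (uu R t)) = 0 := by
  have hR0 : 0 < R := one_pos.trans_le hR
  obtain ⟨g, hg, hexp⟩ := exists_log hVo hVc ⟨_, uu_mem hR hV 0⟩ hψ h0
  have hu : ∀ t, HasDerivAt (uu R) (deriv (uu R) t) t := fun t =>
    ((contDiff_uu hR0 (m := 1)).differentiable (by norm_num) t).hasDerivAt
  have hgu : ∀ t, HasDerivAt (fun t => g (uu R t)) (deriv g (uu R t) * deriv (uu R) t) t := by
    intro t
    have h1 : HasDerivAt g (deriv g (uu R t)) (uu R t) :=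
      (hg.differentiableAt (hVo.mem_nhds (uu_mem hR hV t))).hasDerivAt
    exact h1.comp t (hu t)
  have hψu : ∀ t, HasDerivAt (fun t => ψ (uu R t)) (ψ (uu R t) *
      (deriv g (uu R t) * deriv (uu R) t)) t := by
    intro t
    have h1 := (hgu t).cexp
    have e : (fun t => Complex.exp (g (uu R t))) = fun t => ψ (uu R t) := by
      funext t
      exact hexp _ (uu_mem hR hV t)
    rw [e, hexp _ (uu_mem hR hV t)] at h1
    exact h1
  have h2 : ∀ t, deriv (fun t => ψ (uu R t)) t / ψ (uu R t) =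
      deriv g (uu R t) * deriv (uu R) t := by
    intro t
    rw [(hψu t).deriv, mul_div_cancel_left₀ _ (h0 _ (uu_mem hR hV t))]
  simp only [h2]
  have hdg : ContinuousOn (deriv g) V := (hg.deriv hVo).continuousOn
  have hcont : Continuous fun t => deriv g (uu R t) * deriv (uu R) t :=
    (hdg.comp_continuous (continuous_uu hR0) (uu_mem hR hV)).mul
      ((contDiff_uu hR0 (m := 1)).continuous_deriv (by norm_num))
  rw [intervalIntegral.integral_eq_sub_of_hasDerivAt (fun t _ => hgu t)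
    (hcont.intervalIntegrable _ _)]
  have h3 : uu R 1 = uu R 0 := by
    have := uu_add_one R 0
    rwa [zero_add] at this
  rw [h3, sub_self]

end log

section jensen

theorem avg_circ_sub {R : ℝ} (hR : 0 < R) {a : ℂ} (ha : ‖a‖ ≤ R) :
    ∫ t in (0 : ℝ)..1, Real.log ‖circ R t - a‖ = Real.log R := by
  have h := circleAverage_log_norm_sub_const_of_mem_closedBall (a := a) (c := 0) (R := R) (by
    rw [mem_closedBall, dist_zero_right, abs_of_pos hR]
    exact ha)
  rw [circleAverage_eq_circ (fun z => Real.log ‖z - a‖)] at h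
  exact h

theorem avg_circ_sub_nonneg (a : ℂ) :
    0 ≤ ∫ t in (0 : ℝ)..1, Real.log ‖circ 1 t - a‖ := by
  have h := circleAverage_log_norm_sub_const_eq_posLog (a := a)
  rw [circleAverage_eq_circ (fun z => Real.log ‖z - a‖)] at h
  rw [h]
  exact Real.posLog_nonneg

/-- the average of `log |2 cos - w|` is nonnegative -/
theorem avg_uu_sub_nonneg {w : ℂ} (hw : w.im ≠ 0) :
    0 ≤ ∫ t in (0 : ℝ)..1, Real.log ‖uu 1 t - w‖ := by
  obtain ⟨ζ, hζ⟩ : ∃ ζ : ℂ, ζ ^ 2 - w * ζ + 1 = 0 := by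
    obtain ⟨x, hx⟩ := IsAlgClosed.exists_pow_nat_eq (w ^ 2 - 4) (n := 2) (by norm_num)
    refine ⟨(w + x) / 2, ?_⟩
    linear_combination (1 / 4) * hx
  have hζ0 : ζ ≠ 0 := by
    rintro rfl
    norm_num at hζ
  have hζw : w = ζ + ζ⁻¹ := by
    field_simp
    linear_combination -hζ
  have hn : ‖ζ‖ ≠ 1 := by
    intro h
    apply hw
    have h1 : ζ⁻¹ = (starRingEnd ℂ) ζ := by
      rw [Complex.inv_def, Complex.normSq_eq_norm_sq, h]
      simp
    rw [hζw, h1, Complex.add_im, Complex.conj_im]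
    ring
  have hne1 : ∀ t, circ 1 t - ζ ≠ 0 := by
    intro t h
    apply hn
    rw [← sub_eq_zero.1 h, norm_circ zero_le_one]
  have hne2 : ∀ t, circ 1 t - ζ⁻¹ ≠ 0 := by
    intro t h
    apply hn
    have h1 := congrArg norm (sub_eq_zero.1 h)
    rw [norm_circ zero_le_one, norm_inv] at h1
    rw [← inv_inv ‖ζ‖, ← h1, inv_one]
  have e : ∀ t, Real.log ‖uu 1 t - w‖ = Real.log ‖circ 1 t - ζ‖ + Real.log ‖circ 1 t - ζ⁻¹‖ := by
    intro t
    have hc := circ_ne_zero one_pos t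
    have h1 : uu 1 t - w = (circ 1 t - ζ) * (circ 1 t - ζ⁻¹) * (circ 1 t)⁻¹ := by
      unfold uu
      rw [hζw]
      field_simp
      ring
    rw [h1, norm_mul, norm_mul, norm_inv, norm_circ zero_le_one, inv_one, mul_one,
      Real.log_mul (norm_ne_zero_iff.2 (hne1 t)) (norm_ne_zero_iff.2 (hne2 t))]
  simp only [e]
  have hc : Continuous (circ 1) := (contDiff_circ 1 (n := 0)).continuous
  rw [intervalIntegral.integral_add]
  · exact add_nonneg (avg_circ_sub_nonneg _) (avg_circ_sub_nonneg _)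
  · exact (Continuous.log (hc.sub continuous_const).norm
      fun t => norm_ne_zero_iff.2 (hne1 t)).intervalIntegrable _ _
  · exact (Continuous.log (hc.sub continuous_const).norm
      fun t => norm_ne_zero_iff.2 (hne2 t)).intervalIntegrable _ _

theorem norm_sq_sub_im (a b : ℝ) {s : ℝ} (hs : 0 ≤ s) :
    ‖(a : ℂ) - (b + Real.sqrt s * Complex.I)‖ ^ 2 = s + (a - b) ^ 2 := by
  rw [← Complex.normSq_eq_norm_sq, Complex.normSq_apply]
  simp
  rw [← sub_eq_zero]
  have := Real.mul_self_sqrt hs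
  linear_combination this

/-- The average of `log (s + (2 cos - b)²)` is nonnegative. -/
theorem avg_log_add_nonneg {s : ℝ} (hs : 0 < s) (b : ℝ) :
    0 ≤ ∫ t in (0 : ℝ)..1, Real.log (s + (2 * Real.cos (2 * Real.pi * t) - b) ^ 2) := by
  have h := avg_uu_sub_nonneg (w := b + Real.sqrt s * Complex.I) (by
    simp
    exact (Real.sqrt_pos.2 hs).ne')
  have e : ∀ t, Real.log (s + (2 * Real.cos (2 * Real.pi * t) - b) ^ 2) =
      2 * Real.log ‖uu 1 t - (b + Real.sqrt s * Complex.I)‖ := by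
    intro t
    rw [← norm_sq_sub_im _ _ hs.le, ← uu_one, Real.log_pow]
    push_cast
    ring
  simp only [e]
  rw [intervalIntegral.integral_const_mul]
  linarith

end jensen

end Pool.Agent.Y775.CC
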