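import Pool.Agent.TH826.UH.Roots
set_option autoImplicit false

/-!
The analytic branches of the inverse of a monic polynomial without critical values in the interval
`[-2, 2]`.
-/

namespace Pool.Agent.Y775.CC

open Polynomial Metric Set Filter Topology

/-- `n` analytic branches of the inverse of the polynomial `G` of degree `n` on a convex open
neighbourhood `V` of the interval `[-2, 2]`. -/
structure Branches (G : ℂ[X]) {n : ℕ} (V : Set ℂ) (φ : Fin n → ℂ → ℂ) : Prop where
  isOpen : IsOpen V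
  convex : Convex ℝ V
  mem : ∀ t : ℝ, |t| ≤ 2 → (t : ℂ) ∈ V
  hasDeriv : ∀ i, ∀ u ∈ V, ∃ d : ℂ, d ≠ 0 ∧ HasDerivAt (φ i) d u
  inj : ∀ u ∈ V, Function.Injective fun i => φ i u
  prod : ∀ u ∈ V, G - C u = ∏ i, (X - C (φ i u))

/-- the interval -/
def seg : Set ℂ := (fun t : ℝ => (t : ℂ)) '' Icc (-2) 2

theorem isCompact_seg : IsCompact seg := isCompact_Icc.image Complex.continuous_ofReal

theorem mem_seg {t : ℝ} (ht : |t| ≤ 2) : (t : ℂ) ∈ seg := ⟨t, abs_le.1 ht, rfl⟩

theorem convex_seg : Convex ℝ seg := by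
  have h := (convex_Icc (-2 : ℝ) 2).linear_image (Complex.ofRealCLM : ℝ →ₗ[ℝ] ℂ)
  exact h

theorem finite_crit {G : ℂ[X]} (hdeg : 0 < G.natDegree) :
    ((fun x => G.eval x) '' {x | (derivative G).eval x = 0}).Finite := by
  have h : derivative G ≠ 0 := by
    intro h
    have := derivative_eq_zero.1 h
    omega
  refine Set.Finite.image _ ?_
  exact (derivative G).rootSet_finite ℂ |>.subset fun x hx => by
    rw [mem_rootSet]
    exact ⟨h, by simpa using hx⟩

/-- A convex neighbourhood of the interval without critical values. -/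
theorem exists_nbhd {G : ℂ[X]} (hdeg : 0 < G.natDegree)
    (hcrit : ∀ x : ℂ, (derivative G).eval x = 0 → ∀ t : ℝ, |t| ≤ 2 → G.eval x ≠ t) :
    ∃ V : Set ℂ, IsOpen V ∧ Convex ℝ V ∧ (∀ t : ℝ, |t| ≤ 2 → (t : ℂ) ∈ V) ∧
      ∀ x, (derivative G).eval x = 0 → G.eval x ∉ V := by
  have hd : Disjoint seg ((fun x => G.eval x) '' {x | (derivative G).eval x = 0}) := by
    rw [Set.disjoint_left]
    rintro _ ⟨t, ht, rfl⟩ ⟨x, hx, hxt⟩
    exact hcrit x hx t (abs_le.2 ht) hxt
  obtain ⟨δ, hδ, hdisj⟩ := hd.exists_thickenings isCompact_seg (finite_crit hdeg).isClosed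
  refine ⟨thickening δ seg, isOpen_thickening, convex_seg.thickening δ, fun t ht =>
    self_subset_thickening hδ _ (mem_seg ht), fun x hx hV => ?_⟩
  exact Set.disjoint_left.1 hdisj hV (self_subset_thickening hδ _ ⟨x, hx, rfl⟩)

theorem exists_branches {G : ℂ[X]} (hG : G.Monic) {n : ℕ} (hn : 0 < n) (hdeg : G.natDegree = n)
    (hcrit : ∀ x : ℂ, (derivative G).eval x = 0 → ∀ t : ℝ, |t| ≤ 2 → G.eval x ≠ t) :
    ∃ (V : Set ℂ) (φ : Fin n → ℂ → ℂ), Branches G V φ := by
  classical
  obtain ⟨V, hVo, hVc, hVm, hVcrit⟩ := exists_nbhd (by rw [hdeg]; exact hn) hcrit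
  have h0V : (0 : ℂ) ∈ V := by
    have := hVm 0 (by norm_num)
    simpa using this
  have hmon : ∀ u : ℂ, (G - C u).Monic := by
    intro u
    refine hG.sub_of_left ?_
    rw [degree_eq_natDegree hG.ne_zero, hdeg]
    exact lt_of_le_of_lt degree_C_le (by exact_mod_cast hn)
  have hdegu : ∀ u : ℂ, (G - C u).natDegree = n := fun u => by rw [natDegree_sub_C, hdeg]
  -- the roots over `0`
  have hroots : ∃ x : Fin n → ℂ, Function.Injective x ∧ ∀ i, G.eval (x i) = 0 := by
    have hcard : (G - C (0 : ℂ)).roots.card = n := by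
      rw [← hdegu 0]
      exact (IsAlgClosed.splits _).natDegree_eq_card_roots.symm
    have hnodup : (G - C (0 : ℂ)).roots.Nodup := by
      rw [Multiset.nodup_iff_count_le_one]
      intro x
      rw [count_roots]
      by_contra hcon
      push Not at hcon
      have h1 := (one_lt_rootMultiplicity_iff_isRoot (hmon 0).ne_zero).1 hcon
      have h2 : (derivative G).eval x = 0 := by
        have := h1.2
        rw [derivative_sub, derivative_C, sub_zero] at this
        exact this
      have h3 : G.eval x = 0 := by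
        have := h1.1
        rw [IsRoot.def, eval_sub, eval_C, sub_zero] at this
        exact this
      exact hVcrit x h2 (by rw [h3]; exact h0V)
    set S := (G - C (0 : ℂ)).roots.toFinset with hS
    have hSc : S.card = n := by
      rw [hS, Multiset.toFinset_card_of_nodup hnodup, hcard]
    have hSr : ∀ y ∈ S, G.eval y = 0 := by
      intro y hy
      rw [hS, Multiset.mem_toFinset, mem_roots (hmon 0).ne_zero, IsRoot.def, eval_sub, eval_C,
        sub_zero] at hy
      exact hy
    exact ⟨fun i => ((S.equivFinOfCardEq hSc).symm i : ℂ), fun i j hij =>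
      (S.equivFinOfCardEq hSc).symm.injective (Subtype.ext hij), fun i =>
      hSr _ ((S.equivFinOfCardEq hSc).symm i).2⟩
  obtain ⟨x, hxinj, hx⟩ := hroots
  -- lifts
  have : SimplyConnectedSpace V := by
    have : ContractibleSpace V := hVc.contractibleSpace ⟨0, h0V⟩
    exact SimplyConnectedSpace.ofContractible V
  have : LocallyPathConnectedSpace V := hVo.locallyPathConnectedSpace
  have hcov : IsCoveringMapOn (fun y => G.eval y) V :=
    G.isCoveringMapOn_eval.mono fun u hu => by
      rintro ⟨y, hy, hyu⟩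
      exact hVcrit y hy (by
        have hyu' : G.eval y = u := hyu
        rw [hyu']
        exact hu)
  set ι : C(V, ℂ) := ⟨Subtype.val, continuous_subtype_val⟩ with hι
  have hlift : ∀ (u : V) (y : ℂ), G.eval y = u → ∃! f : C(V, ℂ), f u = y ∧
      (fun y => G.eval y) ∘ f = ι := fun u y hy =>
    hcov.existsUnique_continuousMap_lifts ι hy fun a => a.2
  have hex : ∀ i, ∃ f : C(V, ℂ), f ⟨0, h0V⟩ = x i ∧ (fun y => G.eval y) ∘ f = ι := fun i =>
    (hlift ⟨0, h0V⟩ (x i) (hx i)).exists
  choose f hf0 hf using hex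
  have hfev : ∀ i (u : V), G.eval (f i u) = u := fun i u => congrFun (hf i) u
  set φ : Fin n → ℂ → ℂ := fun i u => if h : u ∈ V then f i ⟨u, h⟩ else 0 with hφ
  have hφV : ∀ i u (hu : u ∈ V), φ i u = f i ⟨u, hu⟩ := fun i u hu => dif_pos hu
  have hφev : ∀ i, ∀ u ∈ V, G.eval (φ i u) = u := fun i u hu => by
    rw [hφV i u hu]
    exact hfev i ⟨u, hu⟩
  have hinj : ∀ u ∈ V, Function.Injective fun i => φ i u := by
    intro u hu i j hij
    have hij' : f i ⟨u, hu⟩ = f j ⟨u, hu⟩ := by
      rw [← hφV i u hu, ← hφV j u hu]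
      exact hij
    have h1 := (hlift ⟨u, hu⟩ (f i ⟨u, hu⟩) (hfev i ⟨u, hu⟩)).unique ⟨rfl, hf i⟩
      ⟨hij'.symm, hf j⟩
    apply hxinj
    rw [← hf0 i, ← hf0 j, h1]
  refine ⟨V, φ, hVo, hVc, hVm, fun i u hu => ?_, hinj, fun u hu => ?_⟩
  · have hd : (derivative G).eval (φ i u) ≠ 0 := by
      intro h
      apply hVcrit _ h
      rw [hφev i u hu]
      exact hu
    refine ⟨((derivative G).eval (φ i u))⁻¹, inv_ne_zero hd, ?_⟩
    have hcont : ContinuousAt (φ i) u := by
      have h1 : ContinuousOn (φ i) V := by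
        rw [continuousOn_iff_continuous_domRestrict]
        have e : V.domRestrict (φ i) = f i := by
          funext a
          exact hφV i a a.2
        rw [e]
        exact (f i).continuous
      exact h1.continuousAt (hVo.mem_nhds hu)
    refine HasDerivAt.of_local_left_inverse hcont (G.hasDerivAt (φ i u)) hd ?_
    filter_upwards [hVo.mem_nhds hu] with w hw
    exact hφev i w hw
  · exact Pool.Agent.TH826.UH.eq_prod (hmon u) (hdegu u) (hinj u hu) fun i => by
      rw [eval_sub, eval_C, hφev i u hu, sub_self]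

namespace Branches

variable {G : ℂ[X]} {n : ℕ} {V : Set ℂ} {φ : Fin n → ℂ → ℂ} (H : Branches G V φ)

include H

theorem eval_sub_eq {u : ℂ} (hu : u ∈ V) (y : ℂ) : G.eval y - u = ∏ i, (y - φ i u) := by
  have h := congrArg (Polynomial.eval y) (H.prod u hu)
  simpa [eval_prod] using h

theorem eval_branch (i : Fin n) {u : ℂ} (hu : u ∈ V) : G.eval (φ i u) = u := by
  have h := H.eval_sub_eq hu (φ i u)
  rw [Finset.prod_eq_zero (Finset.mem_univ i) (sub_self _)] at h
  exact sub_eq_zero.1 h

theorem eq_of_eq {i j : Fin n} {u v : ℂ} (hu : u ∈ V) (hv : v ∈ V) (h : φ i u = φ j v) :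
    i = j ∧ u = v := by
  have huv : u = v := by
    rw [← H.eval_branch i hu, h, H.eval_branch j hv]
  refine ⟨H.inj u hu ?_, huv⟩
  rw [← huv] at h
  exact h

theorem differentiableOn (i : Fin n) : DifferentiableOn ℂ (φ i) V := fun u hu => by
  obtain ⟨d, -, hd⟩ := H.hasDeriv i u hu
  exact hd.differentiableAt.differentiableWithinAt

theorem continuousOn (i : Fin n) : ContinuousOn (φ i) V := (H.differentiableOn i).continuousOn

theorem analyticAt (i : Fin n) {u : ℂ} (hu : u ∈ V) : AnalyticAt ℂ (φ i) u :=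
  (H.differentiableOn i).analyticAt (H.isOpen.mem_nhds hu)

theorem deriv_ne_zero (i : Fin n) {u : ℂ} (hu : u ∈ V) : deriv (φ i) u ≠ 0 := by
  obtain ⟨d, h0, hd⟩ := H.hasDeriv i u hu
  rw [hd.deriv]
  exact h0

end Branches

end Pool.Agent.Y775.CC
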