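import Mathlib
set_option autoImplicit false

/-!
Positivity of the logarithmic energy of real weights of total mass zero.
-/

namespace Pool.Agent.Y775.CC

open MeasureTheory Set Filter Topology

section gauss

variable {Ω : Type*} [MeasurableSpace Ω] {P : Measure Ω} [IsFiniteMeasure P]

/-- bounded measurable functions -/
structure BM (f : Ω → ℝ) : Prop where
  meas : Measurable f
  bdd : ∃ C : ℝ, 0 ≤ C ∧ ∀ ω, |f ω| ≤ C

variable {f g a b : Ω → ℝ}

theorem BM.integrable (hf : BM f) : Integrable f P := by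
  obtain ⟨C, -, hC⟩ := hf.bdd
  exact Integrable.of_bound hf.meas.aestronglyMeasurable C (Eventually.of_forall hC)

theorem BM.mul (hf : BM f) (hg : BM g) : BM fun ω => f ω * g ω := by
  obtain ⟨C, hC0, hC⟩ := hf.bdd
  obtain ⟨D, hD0, hD⟩ := hg.bdd
  refine ⟨hf.meas.mul hg.meas, C * D, mul_nonneg hC0 hD0, fun ω => ?_⟩
  rw [abs_mul]
  exact mul_le_mul (hC ω) (hD ω) (abs_nonneg _) hC0

theorem BM.add (hf : BM f) (hg : BM g) : BM fun ω => f ω + g ω := by
  obtain ⟨C, hC0, hC⟩ := hf.bdd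
  obtain ⟨D, hD0, hD⟩ := hg.bdd
  refine ⟨hf.meas.add hg.meas, C + D, add_nonneg hC0 hD0, fun ω => ?_⟩
  exact (abs_add_le _ _).trans (add_le_add (hC ω) (hD ω))

theorem BM.pow (hf : BM f) (k : ℕ) : BM fun ω => f ω ^ k := by
  obtain ⟨C, hC0, hC⟩ := hf.bdd
  refine ⟨hf.meas.pow_const k, C ^ k, pow_nonneg hC0 k, fun ω => ?_⟩
  rw [abs_pow]
  exact pow_le_pow_left₀ (abs_nonneg _) (hC ω) k

theorem BM.const (c : ℝ) : BM fun _ : Ω => c :=
  ⟨measurable_const, |c|, abs_nonneg _, fun _ => le_refl _⟩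

theorem BM.fst {Ω' : Type*} [MeasurableSpace Ω'] (hf : BM f) : BM fun p : Ω × Ω' => f p.1 := by
  obtain ⟨C, hC0, hC⟩ := hf.bdd
  exact ⟨hf.meas.comp measurable_fst, C, hC0, fun p => hC p.1⟩

theorem BM.snd {Ω' : Type*} [MeasurableSpace Ω'] (hf : BM f) : BM fun p : Ω' × Ω => f p.2 := by
  obtain ⟨C, hC0, hC⟩ := hf.bdd
  exact ⟨hf.meas.comp measurable_snd, C, hC0, fun p => hC p.2⟩

theorem BM.continuous_comp (hf : BM f) {h : ℝ → ℝ} (hh : Continuous h) : BM fun ω => h (f ω) := by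
  obtain ⟨C, hC0, hC⟩ := hf.bdd
  refine ⟨hh.measurable.comp hf.meas, ?_⟩
  obtain ⟨D, hD⟩ := (isCompact_Icc (a := -C) (b := C)).exists_bound_of_continuousOn hh.continuousOn
  refine ⟨max D 0, le_max_right _ _, fun ω => (hD (f ω) ?_).trans (le_max_left _ _)⟩
  exact abs_le.1 (hC ω)

theorem integral_pow_kernel (hf : BM f) (ha : BM a) (hb : BM b) (k : ℕ) :
    ∫ p : Ω × Ω, f p.1 * f p.2 * (a p.1 * a p.2 + b p.1 * b p.2) ^ k ∂(P.prod P) =
      ∑ l ∈ Finset.range (k + 1), (k.choose l : ℝ) *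
        (∫ ω, f ω * a ω ^ l * b ω ^ (k - l) ∂P) ^ 2 := by
  have e : ∀ p : Ω × Ω, f p.1 * f p.2 * (a p.1 * a p.2 + b p.1 * b p.2) ^ k =
      ∑ l ∈ Finset.range (k + 1), (k.choose l : ℝ) *
        ((f p.1 * a p.1 ^ l * b p.1 ^ (k - l)) * (f p.2 * a p.2 ^ l * b p.2 ^ (k - l))) := by
    intro p
    rw [add_pow, Finset.mul_sum]
    refine Finset.sum_congr rfl fun l _ => ?_
    rw [mul_pow, mul_pow]
    ring
  simp only [e]
  rw [integral_finsetSum]
  · refine Finset.sum_congr rfl fun l _ => ?_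
    rw [integral_const_mul, integral_prod_mul (fun ω => f ω * a ω ^ l * b ω ^ (k - l))
      (fun ω => f ω * a ω ^ l * b ω ^ (k - l))]
    ring
  · intro l _
    have h1 : BM fun ω => f ω * a ω ^ l * b ω ^ (k - l) := (hf.mul (ha.pow l)).mul (hb.pow _)
    exact ((BM.const _).mul (h1.fst.mul h1.snd)).integrable

theorem integral_pow_kernel_nonneg (hf : BM f) (ha : BM a) (hb : BM b) (k : ℕ) :
    0 ≤ ∫ p : Ω × Ω, f p.1 * f p.2 * (a p.1 * a p.2 + b p.1 * b p.2) ^ k ∂(P.prod P) := by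
  rw [integral_pow_kernel hf ha hb]
  exact Finset.sum_nonneg fun l _ => by positivity

/-- The exponential kernel is positive definite. -/
theorem sq_integral_le_exp (hf : BM f) (ha : BM a) (hb : BM b) :
    (∫ ω, f ω ∂P) ^ 2 ≤
      ∫ p : Ω × Ω, f p.1 * f p.2 * Real.exp (a p.1 * a p.2 + b p.1 * b p.2) ∂(P.prod P) := by
  obtain ⟨C, hC0, hC⟩ := (hf.fst.mul hf.snd : BM fun p : Ω × Ω => f p.1 * f p.2).bdd
  have hk : BM fun p : Ω × Ω => a p.1 * a p.2 + b p.1 * b p.2 :=
    (ha.fst.mul ha.snd).add (hb.fst.mul hb.snd)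
  obtain ⟨D, hD0, hD⟩ := hk.bdd
  set F : ℕ → Ω × Ω → ℝ := fun k p =>
    (f p.1 * f p.2 * (a p.1 * a p.2 + b p.1 * b p.2) ^ k) / k.factorial with hF
  have hFB : ∀ k, BM (F k) := by
    intro k
    have h1 := ((hf.fst.mul hf.snd : BM fun p : Ω × Ω => f p.1 * f p.2).mul (hk.pow k)).mul
      (BM.const ((k.factorial : ℝ)⁻¹))
    simp only [hF, div_eq_mul_inv]
    exact h1
  have hbound : ∀ k p, ‖F k p‖ ≤ C * (D ^ k / k.factorial) := by
    intro k p
    simp only [hF]
    rw [Real.norm_eq_abs, abs_div, abs_mul, abs_pow, Nat.abs_cast, mul_div_assoc]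
    exact mul_le_mul (hC p) (div_le_div_of_nonneg_right (pow_le_pow_left₀ (abs_nonneg _) (hD p) k)
      (by positivity)) (by positivity) hC0
  have hsum : Summable fun k : ℕ => ∫ p, ‖F k p‖ ∂(P.prod P) := by
    refine Summable.of_nonneg_of_le (fun k => integral_nonneg fun p => norm_nonneg _)
      (f := fun k : ℕ => (C * (P.prod P).real univ) * (D ^ k / k.factorial)) (fun k => ?_)
      ((Real.summable_pow_div_factorial D).mul_left _)
    calc ∫ p, ‖F k p‖ ∂(P.prod P) ≤ ∫ _p, C * (D ^ k / k.factorial) ∂(P.prod P) :=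
          integral_mono (hFB k).integrable.norm (integrable_const _) (hbound k)
      _ = _ := by
          rw [integral_const, smul_eq_mul]
          ring
  have h1 := hasSum_integral_of_summable_integral_norm (F := F) (μ := P.prod P)
    (fun k => (hFB k).integrable) hsum
  have e2 : (fun p => ∑' k, F k p) = fun p : Ω × Ω =>
      f p.1 * f p.2 * Real.exp (a p.1 * a p.2 + b p.1 * b p.2) := by
    funext p
    have h3 := (NormedSpace.expSeries_div_hasSum_exp (𝔸 := ℝ)
      (a p.1 * a p.2 + b p.1 * b p.2)).mul_left (f p.1 * f p.2)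
    rw [← Real.exp_eq_exp_ℝ] at h3
    have h4 : F = fun k p => (f p.1 * f p.2) * ((a p.1 * a p.2 + b p.1 * b p.2) ^ k /
        k.factorial) := by
      funext k p
      simp only [hF]
      rw [mul_div_assoc]
    rw [h4]
    exact h3.tsum_eq
  rw [e2] at h1
  have h5 : ∀ k, 0 ≤ ∫ p, F k p ∂(P.prod P) := by
    intro k
    simp only [hF]
    rw [integral_div]
    exact div_nonneg (integral_pow_kernel_nonneg hf ha hb k) (by positivity)
  have h6 := le_hasSum h1 0 (fun k _ => h5 k)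
  refine le_trans (le_of_eq ?_) h6
  simp only [hF]
  simp only [pow_zero, mul_one, Nat.factorial_zero, Nat.cast_one, div_one]
  rw [integral_prod_mul f f, pow_two]

variable {X : Ω → ℂ}

theorem norm_sub_sq' (x y p : ℂ) : ‖x - y‖ ^ 2 = ‖x - p‖ ^ 2 + ‖y - p‖ ^ 2 -
    2 * ((x - p).re * (y - p).re + (x - p).im * (y - p).im) := by
  rw [← Complex.normSq_eq_norm_sq, ← Complex.normSq_eq_norm_sq, ← Complex.normSq_eq_norm_sq,
    Complex.normSq_apply, Complex.normSq_apply, Complex.normSq_apply]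
  simp only [Complex.sub_re, Complex.sub_im]
  ring

/-- bounded measurable functions with complex values -/
structure BMC (X : Ω → ℂ) : Prop where
  meas : Measurable X
  bdd : ∃ C : ℝ, 0 ≤ C ∧ ∀ ω, ‖X ω‖ ≤ C

theorem BMC.re (hX : BMC X) (p : ℂ) : BM fun ω => (X ω - p).re := by
  obtain ⟨C, hC0, hC⟩ := hX.bdd
  refine ⟨(Complex.measurable_re.comp (hX.meas.sub_const p)), C + ‖p‖, by positivity,
    fun ω => (Complex.abs_re_le_norm _).trans ((norm_sub_le _ _).trans ?_)⟩
  exact add_le_add_left (hC ω) _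

theorem BMC.im (hX : BMC X) (p : ℂ) : BM fun ω => (X ω - p).im := by
  obtain ⟨C, hC0, hC⟩ := hX.bdd
  refine ⟨(Complex.measurable_im.comp (hX.meas.sub_const p)), C + ‖p‖, by positivity,
    fun ω => (Complex.abs_im_le_norm _).trans ((norm_sub_le _ _).trans ?_)⟩
  exact add_le_add_left (hC ω) _

theorem BMC.sq (hX : BMC X) (p : ℂ) : BM fun ω => ‖X ω - p‖ ^ 2 := by
  obtain ⟨C, hC0, hC⟩ := hX.bdd
  refine ⟨(hX.meas.sub_const p).norm.pow_const 2, (C + ‖p‖) ^ 2, by positivity, fun ω => ?_⟩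
  rw [abs_of_nonneg (by positivity)]
  refine pow_le_pow_left₀ (norm_nonneg _) ((norm_sub_le _ _).trans ?_) 2
  exact add_le_add_left (hC ω) _

theorem BMC.dist (hX : BMC X) : BM fun p : Ω × Ω => ‖X p.1 - X p.2‖ ^ 2 := by
  obtain ⟨C, hC0, hC⟩ := hX.bdd
  refine ⟨((hX.meas.comp measurable_fst).sub (hX.meas.comp measurable_snd)).norm.pow_const 2,
    (C + C) ^ 2, by positivity, fun p => ?_⟩
  rw [abs_of_nonneg (by positivity)]
  exact pow_le_pow_left₀ (norm_nonneg _) ((norm_sub_le _ _).trans (add_le_add (hC _) (hC _))) 2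

/-- the Gaussian energy -/
noncomputable def gE (P : Measure Ω) (f : Ω → ℝ) (X : Ω → ℂ) (t : ℝ) : ℝ :=
  ∫ p : Ω × Ω, f p.1 * f p.2 * Real.exp (-(t * ‖X p.1 - X p.2‖ ^ 2)) ∂(P.prod P)

/-- The Gaussian kernel is positive definite. -/
theorem sq_le_gE (hf : BM f) (hX : BMC X) {t : ℝ} (ht : 0 ≤ t) (p : ℂ) :
    (∫ ω, f ω * Real.exp (-(t * ‖X ω - p‖ ^ 2)) ∂P) ^ 2 ≤ gE P f X t := by
  set r : ℝ := Real.sqrt (2 * t) with hr
  have hr2 : r * r = 2 * t := Real.mul_self_sqrt (by positivity)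
  have h1 : BM fun ω => f ω * Real.exp (-(t * ‖X ω - p‖ ^ 2)) :=
    hf.mul (BM.continuous_comp (hX.sq p) (h := fun x => Real.exp (-(t * x)))
      (Real.continuous_exp.comp (continuous_const.mul continuous_id).neg))
  have h2 : BM fun ω => r * (X ω - p).re := (BM.const r).mul (hX.re p)
  have h3 : BM fun ω => r * (X ω - p).im := (BM.const r).mul (hX.im p)
  refine (sq_integral_le_exp (P := P) h1 h2 h3).trans (le_of_eq ?_)
  unfold gE
  refine integral_congr_ae (Eventually.of_forall fun q => ?_)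
  simp only
  rw [norm_sub_sq' (X q.1) (X q.2) p]
  have e : -(t * (‖X q.1 - p‖ ^ 2 + ‖X q.2 - p‖ ^ 2 - 2 * ((X q.1 - p).re * (X q.2 - p).re +
      (X q.1 - p).im * (X q.2 - p).im))) = -(t * ‖X q.1 - p‖ ^ 2) + -(t * ‖X q.2 - p‖ ^ 2) +
      (r * (X q.1 - p).re * (r * (X q.2 - p).re) + r * (X q.1 - p).im *
        (r * (X q.2 - p).im)) := by
    linear_combination (-((X q.1 - p).re * (X q.2 - p).re + (X q.1 - p).im * (X q.2 - p).im)) * hr2
  have h4 : ∀ x y z : ℝ, Real.exp (x + y + z) = Real.exp x * Real.exp y * Real.exp z := by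
    intro x y z
    rw [Real.exp_add, Real.exp_add]
  rw [e, h4]
  ring

theorem gE_nonneg (hf : BM f) (hX : BMC X) {t : ℝ} (ht : 0 ≤ t) : 0 ≤ gE P f X t :=
  (sq_nonneg _).trans (sq_le_gE hf hX ht 0)

/-- Near a point where the weight has a constant sign, the Gaussian energy is positive for large
`t`. -/
theorem exists_gE_pos (hf : BM f) (hX : BMC X) {p : ℂ} {c δ : ℝ} (hc : c ≠ 0) (hδ : 0 < δ)
    (h1 : ∀ ω, ‖X ω - p‖ < δ → f ω = c) (h2 : 0 < P.real {ω | ‖X ω - p‖ < δ / 2}) :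
    ∃ T : ℝ, 0 ≤ T ∧ ∀ t, T < t → 0 < gE P f X t := by
  obtain ⟨C, hC0, hC⟩ := hf.bdd
  set A : ℝ := c ^ 2 * P.real {ω | ‖X ω - p‖ < δ / 2} with hA
  set B : ℝ := |c| * C * P.real univ with hB
  have hA0 : 0 < A := by positivity
  have hB0 : 0 ≤ B := by positivity
  -- for large `t` the first dominates
  have hlim : Tendsto (fun t : ℝ => Real.exp (t * (3 / 4 * δ ^ 2))) atTop atTop :=
    Real.tendsto_exp_atTop.comp (tendsto_id.atTop_mul_const (by positivity))
  obtain ⟨T, hT⟩ := ((tendsto_atTop.1 hlim (B / A + 1)).and (eventually_ge_atTop 0)).exists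
  refine ⟨T, hT.2, fun t ht => ?_⟩
  have ht0 : 0 ≤ t := hT.2.trans ht.le
  refine lt_of_lt_of_le (b := (∫ ω, f ω * Real.exp (-(t * ‖X ω - p‖ ^ 2)) ∂P) ^ 2) ?_
    (sq_le_gE hf hX ht0 p)
  have hE : BM fun ω => Real.exp (-(t * ‖X ω - p‖ ^ 2)) :=
    BM.continuous_comp (hX.sq p) (h := fun x => Real.exp (-(t * x)))
      (Real.continuous_exp.comp (continuous_const.mul continuous_id).neg)
  have hI : Integrable (fun ω => f ω * Real.exp (-(t * ‖X ω - p‖ ^ 2))) P := (hf.mul hE).integrable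
  have hms : ∀ ρ : ℝ, MeasurableSet {ω | ‖X ω - p‖ < ρ} := fun ρ =>
    measurableSet_lt (hX.meas.sub_const p).norm measurable_const
  have key : A * Real.exp (-(t * (δ / 2) ^ 2)) - B * Real.exp (-(t * δ ^ 2)) ≤
      c * ∫ ω, f ω * Real.exp (-(t * ‖X ω - p‖ ^ 2)) ∂P := by
    rw [← integral_const_mul]
    have h3 : ∫ ω, (c ^ 2 * ({ω | ‖X ω - p‖ < δ / 2}.indicator (fun _ => (1 : ℝ)) ω *
        Real.exp (-(t * (δ / 2) ^ 2))) - |c| * C * Real.exp (-(t * δ ^ 2))) ∂P ≤
        ∫ ω, c * (f ω * Real.exp (-(t * ‖X ω - p‖ ^ 2))) ∂P := by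
      refine integral_mono ?_ (hI.const_mul c) fun ω => ?_
      · refine Integrable.sub ?_ (integrable_const _)
        refine Integrable.const_mul ?_ _
        refine Integrable.mul_const ?_ _
        exact (integrable_const (1 : ℝ)).indicator (hms _)
      · simp only
        have hcc : |c| * C * Real.exp (-(t * δ ^ 2)) ≥ 0 := by positivity
        by_cases hω : ‖X ω - p‖ < δ / 2
        · have h4 : ω ∈ {ω | ‖X ω - p‖ < δ / 2} := hω
          rw [indicator_of_mem h4, one_mul, h1 ω (by linarith)]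
          have h5 : Real.exp (-(t * (δ / 2) ^ 2)) ≤ Real.exp (-(t * ‖X ω - p‖ ^ 2)) := by
            refine Real.exp_le_exp.2 (neg_le_neg (mul_le_mul_of_nonneg_left ?_ ht0))
            exact pow_le_pow_left₀ (norm_nonneg _) hω.le 2
          have h6 := mul_le_mul_of_nonneg_left h5 (sq_nonneg c)
          nlinarith
        · have h4 : ω ∉ {ω | ‖X ω - p‖ < δ / 2} := hω
          rw [indicator_of_notMem h4, zero_mul, mul_zero, zero_sub]
          by_cases hω2 : ‖X ω - p‖ < δ
          · rw [h1 ω hω2]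
            have : 0 ≤ c * (c * Real.exp (-(t * ‖X ω - p‖ ^ 2))) := by
              rw [← mul_assoc]
              have := mul_self_nonneg c
              positivity
            linarith
          · have h5 : Real.exp (-(t * ‖X ω - p‖ ^ 2)) ≤ Real.exp (-(t * δ ^ 2)) := by
              refine Real.exp_le_exp.2 (neg_le_neg (mul_le_mul_of_nonneg_left ?_ ht0))
              exact pow_le_pow_left₀ hδ.le (not_lt.1 hω2) 2
            have h6 : |c * (f ω * Real.exp (-(t * ‖X ω - p‖ ^ 2)))| ≤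
                |c| * C * Real.exp (-(t * δ ^ 2)) := by
              rw [abs_mul, abs_mul, Real.abs_exp, ← mul_assoc]
              exact mul_le_mul (mul_le_mul_of_nonneg_left (hC ω) (abs_nonneg _)) h5
                (Real.exp_pos _).le (by positivity)
            exact (abs_le.1 h6).1
    refine le_trans (le_of_eq ?_) h3
    rw [integral_sub, integral_const_mul, integral_mul_const, integral_indicator (hms _),
      integral_const, integral_const]
    · simp only [smul_eq_mul, mul_one, measureReal_restrict_apply_univ]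
      rw [hA, hB]
      ring
    · refine Integrable.const_mul ?_ _
      refine Integrable.mul_const ?_ _
      exact (integrable_const (1 : ℝ)).indicator (hms _)
    · exact integrable_const _
  have hpos : 0 < A * Real.exp (-(t * (δ / 2) ^ 2)) - B * Real.exp (-(t * δ ^ 2)) := by
    have h7 : B / A + 1 ≤ Real.exp (t * (3 / 4 * δ ^ 2)) := by
      refine hT.1.trans (Real.exp_le_exp.2 (mul_le_mul_of_nonneg_right ht.le (by positivity)))
    have h8 : Real.exp (-(t * (δ / 2) ^ 2)) = Real.exp (t * (3 / 4 * δ ^ 2)) *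
        Real.exp (-(t * δ ^ 2)) := by
      rw [← Real.exp_add]
      congr 1
      ring
    have h9 : B < A * Real.exp (t * (3 / 4 * δ ^ 2)) := by
      have h10 := mul_le_mul_of_nonneg_left h7 hA0.le
      have h11 : A * (B / A + 1) = B + A := by
        field_simp
      linarith
    rw [h8]
    have h12 := mul_lt_mul_of_pos_right h9 (Real.exp_pos (-(t * δ ^ 2)))
    linarith
  have hne : ∫ ω, f ω * Real.exp (-(t * ‖X ω - p‖ ^ 2)) ∂P ≠ 0 := by
    intro h0
    rw [h0, mul_zero] at key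
    linarith
  positivity

end gauss

end Pool.Agent.Y775.CC
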