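import Pool.Agent.Y775.CC.Energy
set_option autoImplicit false

/-!
Negativity of the regularised logarithmic energy of real weights of total mass zero.
-/

namespace Pool.Agent.Y775.CC

open MeasureTheory Set Filter Topology

variable {Ω : Type*} [MeasurableSpace Ω] {P : Measure Ω} [IsFiniteMeasure P]

variable {f : Ω → ℝ} {X : Ω → ℂ}

/-- the regularised logarithmic energy -/
noncomputable def lE (P : Measure Ω) (f : Ω → ℝ) (X : Ω → ℂ) (s : ℝ) : ℝ :=
  ∫ p : Ω × Ω, f p.1 * f p.2 * Real.log (s + ‖X p.1 - X p.2‖ ^ 2) ∂(P.prod P)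

/-- its derivative -/
noncomputable def hE (P : Measure Ω) (f : Ω → ℝ) (X : Ω → ℂ) (s : ℝ) : ℝ :=
  ∫ p : Ω × Ω, f p.1 * f p.2 * (s + ‖X p.1 - X p.2‖ ^ 2)⁻¹ ∂(P.prod P)

theorem bm_log {Ω' : Type*} [MeasurableSpace Ω'] {r : Ω' → ℝ} (hr : BM r) (h0 : ∀ ω, 0 ≤ r ω)
    {s : ℝ} (hs : 0 < s) : BM fun ω => Real.log (s + r ω) := by
  have h1 : Continuous fun x : ℝ => Real.log (s + |x|) := by
    refine Continuous.log (continuous_const.add continuous_abs) fun x => ?_
    have := abs_nonneg x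
    positivity
  have h2 := hr.continuous_comp h1
  have e : (fun ω => Real.log (s + |r ω|)) = fun ω => Real.log (s + r ω) := by
    funext ω
    rw [abs_of_nonneg (h0 ω)]
  rwa [e] at h2

theorem bm_inv {Ω' : Type*} [MeasurableSpace Ω'] {r : Ω' → ℝ} (hr : BM r) (h0 : ∀ ω, 0 ≤ r ω)
    {s : ℝ} (hs : 0 < s) : BM fun ω => (s + r ω)⁻¹ := by
  have h1 : Continuous fun x : ℝ => (s + |x|)⁻¹ := by
    refine Continuous.inv₀ (continuous_const.add continuous_abs) fun x => ?_
    have := abs_nonneg x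
    positivity
  have h2 := hr.continuous_comp h1
  have e : (fun ω => (s + |r ω|)⁻¹) = fun ω => (s + r ω)⁻¹ := by
    funext ω
    rw [abs_of_nonneg (h0 ω)]
  rwa [e] at h2

theorem bm_ff (hf : BM f) : BM fun p : Ω × Ω => f p.1 * f p.2 := hf.fst.mul hf.snd

theorem hasDerivAt_lE (hf : BM f) (hX : BMC X) {s : ℝ} (hs : 0 < s) :
    HasDerivAt (lE P f X) (hE P f X s) s := by
  obtain ⟨C, hC0, hC⟩ := (bm_ff hf).bdd
  have hr0 : ∀ p : Ω × Ω, 0 ≤ ‖X p.1 - X p.2‖ ^ 2 := fun p => by positivity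
  refine (hasDerivAt_integral_of_dominated_loc_of_deriv_le (μ := P.prod P)
    (F := fun s p => f p.1 * f p.2 * Real.log (s + ‖X p.1 - X p.2‖ ^ 2))
    (F' := fun s p => f p.1 * f p.2 * (s + ‖X p.1 - X p.2‖ ^ 2)⁻¹) (x₀ := s)
    (bound := fun _ => C * (s / 2)⁻¹) (s := Ioi (s / 2))
    (Ioi_mem_nhds (by linarith)) ?_ ?_ ?_ ?_ (integrable_const _) ?_).2
  · filter_upwards [Ioi_mem_nhds hs] with x hx
    exact ((bm_ff hf).mul (bm_log hX.dist hr0 hx)).meas.aestronglyMeasurable
  · exact ((bm_ff hf).mul (bm_log hX.dist hr0 hs)).integrable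
  · exact ((bm_ff hf).mul (bm_inv hX.dist hr0 hs)).meas.aestronglyMeasurable
  · refine Eventually.of_forall fun p x hx => ?_
    have hx' : s / 2 < x := hx
    rw [Real.norm_eq_abs, abs_mul]
    refine mul_le_mul (hC p) ?_ (abs_nonneg _) hC0
    have h3 : 0 < s / 2 := by linarith
    have h4 : s / 2 ≤ x + ‖X p.1 - X p.2‖ ^ 2 := by
      have := hr0 p
      linarith
    rw [abs_of_nonneg (inv_nonneg.2 (h3.le.trans h4))]
    exact inv_anti₀ h3 h4
  · refine Eventually.of_forall fun p x hx => ?_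
    have hx' : s / 2 < x := hx
    have h4 : x + ‖X p.1 - X p.2‖ ^ 2 ≠ 0 := by
      have := hr0 p
      have : 0 < x + ‖X p.1 - X p.2‖ ^ 2 := by linarith
      exact this.ne'
    have h5 := (((hasDerivAt_id x).add_const (‖X p.1 - X p.2‖ ^ 2)).log h4).const_mul
      (f p.1 * f p.2)
    refine h5.congr_deriv ?_
    simp

theorem integral_exp_laplace {x : ℝ} (hx : 0 < x) :
    ∫ t in Ioi (0 : ℝ), Real.exp (-(t * x)) = x⁻¹ := by
  have h := integral_exp_mul_Ioi (a := -x) (by linarith) 0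
  have e : ∀ t : ℝ, -(t * x) = -x * t := fun t => by ring
  simp only [e]
  rw [h]
  simp

theorem integrableOn_exp_laplace {x : ℝ} (hx : 0 < x) :
    IntegrableOn (fun t : ℝ => Real.exp (-(t * x))) (Ioi 0) := by
  have h := integrableOn_exp_mul_Ioi (a := -x) (by linarith) 0
  have e : (fun t : ℝ => Real.exp (-(t * x))) = fun t => Real.exp (-x * t) := by
    funext t
    congr 1
    ring
  rw [e]
  exact h

theorem hE_eq (hf : BM f) (hX : BMC X) {s : ℝ} (hs : 0 < s) :
    hE P f X s = ∫ t in Ioi (0 : ℝ), Real.exp (-(t * s)) * gE P f X t ∧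
    Integrable (fun t => Real.exp (-(t * s)) * gE P f X t)
      ((volume : Measure ℝ).restrict (Ioi 0)) := by
  obtain ⟨C, hC0, hC⟩ := (bm_ff hf).bdd
  have hr0 : ∀ p : Ω × Ω, 0 ≤ ‖X p.1 - X p.2‖ ^ 2 := fun p => by positivity
  set F : Ω × Ω → ℝ → ℝ := fun p t => f p.1 * f p.2 *
    Real.exp (-(t * (s + ‖X p.1 - X p.2‖ ^ 2))) with hF
  have hFm : Measurable (Function.uncurry F) := by
    have h1 : Measurable fun q : (Ω × Ω) × ℝ => f q.1.1 * f q.1.2 :=
      (bm_ff hf).meas.comp measurable_fst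
    have h2 : Measurable fun q : (Ω × Ω) × ℝ => ‖X q.1.1 - X q.1.2‖ ^ 2 :=
      hX.dist.meas.comp measurable_fst
    exact h1.mul (Real.measurable_exp.comp ((measurable_snd.mul (h2.const_add s)).neg))
  have hint : Integrable (Function.uncurry F)
      ((P.prod P).prod ((volume : Measure ℝ).restrict (Ioi 0))) := by
    have h3 : Integrable (fun q : (Ω × Ω) × ℝ => C * Real.exp (-(q.2 * s)))
        ((P.prod P).prod ((volume : Measure ℝ).restrict (Ioi 0))) := by
      have h4 := (integrable_const (μ := P.prod P) C).mul_prod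
        (integrableOn_exp_laplace hs : Integrable _ ((volume : Measure ℝ).restrict (Ioi 0)))
      exact h4
    refine h3.mono' hFm.aestronglyMeasurable ?_
    have h5 : ∀ᵐ q : (Ω × Ω) × ℝ ∂((P.prod P).prod ((volume : Measure ℝ).restrict (Ioi 0))),
        0 < q.2 := by
      have h6 : ∀ᵐ t : ℝ ∂((volume : Measure ℝ).restrict (Ioi 0)), 0 < t :=
        ae_restrict_mem measurableSet_Ioi
      exact Measure.quasiMeasurePreserving_snd.ae h6
    filter_upwards [h5] with q hq
    simp only [Function.uncurry, hF]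
    rw [Real.norm_eq_abs, abs_mul, Real.abs_exp]
    refine mul_le_mul (hC _) (Real.exp_le_exp.2 (neg_le_neg ?_)) (Real.exp_pos _).le hC0
    exact mul_le_mul_of_nonneg_left (by have := hr0 q.1; linarith) hq.le
  have hG : ∀ t, Real.exp (-(t * s)) * gE P f X t = ∫ p, F p t ∂(P.prod P) := by
    intro t
    unfold gE
    rw [← integral_const_mul]
    refine integral_congr_ae (Eventually.of_forall fun p => ?_)
    simp only [hF]
    have e : -(t * (s + ‖X p.1 - X p.2‖ ^ 2)) = -(t * s) + -(t * ‖X p.1 - X p.2‖ ^ 2) := by ring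
    rw [e, Real.exp_add]
    ring
  constructor
  · simp only [hG]
    rw [← integral_integral_swap hint]
    unfold hE
    refine integral_congr_ae (Eventually.of_forall fun p => ?_)
    simp only [hF]
    rw [integral_const_mul, integral_exp_laplace (by have := hr0 p; linarith)]
  · simp only [hG]
    exact hint.integral_prod_right

theorem hE_pos (hf : BM f) (hX : BMC X) {T : ℝ} (hT : ∀ t, T < t → 0 < gE P f X t) {s : ℝ}
    (hs : 0 < s) : 0 < hE P f X s := by
  obtain ⟨h1, h2⟩ := hE_eq (P := P) hf hX hs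
  rw [h1, integral_pos_iff_support_of_nonneg_ae ?_ h2]
  · refine lt_of_lt_of_le ?_ (measure_mono (s := Ioc (max T 0) (max T 0 + 1)) ?_)
    · rw [Measure.restrict_apply measurableSet_Ioc]
      have h3 : Ioc (max T 0) (max T 0 + 1) ∩ Ioi 0 = Ioc (max T 0) (max T 0 + 1) :=
        inter_eq_left.2 fun t ht => (le_max_right T 0).trans_lt ht.1
      rw [h3, Real.volume_Ioc]
      simp
    · intro t ht
      rw [Function.mem_support]
      exact (mul_pos (Real.exp_pos _) (hT t ((le_max_left T 0).trans_lt ht.1))).ne'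
  · filter_upwards [ae_restrict_mem measurableSet_Ioi] with t ht
    exact mul_nonneg (Real.exp_pos _).le (gE_nonneg hf hX (le_of_lt ht))

theorem strictMono_lE (hf : BM f) (hX : BMC X) {T : ℝ} (hT : ∀ t, T < t → 0 < gE P f X t) :
    StrictMonoOn (lE P f X) (Ioi 0) := by
  refine strictMonoOn_of_deriv_pos (convex_Ioi 0) (fun s hs =>
    (hasDerivAt_lE hf hX hs).continuousAt.continuousWithinAt) fun s hs => ?_
  rw [interior_Ioi] at hs
  rw [(hasDerivAt_lE hf hX hs).deriv]
  exact hE_pos hf hX hT hs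

/-- The regularised logarithmic energy tends to zero. -/
theorem exists_lE_le (hf : BM f) (hX : BMC X) (h0 : ∫ ω, f ω ∂P = 0) :
    ∃ K : ℝ, ∀ s, 1 ≤ s → |lE P f X s| ≤ K / s := by
  obtain ⟨C, hC0, hC⟩ := (bm_ff hf).bdd
  obtain ⟨D, hD0, hD⟩ := (hX.dist : BM fun p : Ω × Ω => ‖X p.1 - X p.2‖ ^ 2).bdd
  have hr0 : ∀ p : Ω × Ω, 0 ≤ ‖X p.1 - X p.2‖ ^ 2 := fun p => by positivity
  refine ⟨C * D * (P.prod P).real univ, fun s hs => ?_⟩
  have hs0 : 0 < s := by linarith
  have h1 : lE P f X s = ∫ p : Ω × Ω, f p.1 * f p.2 *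
      (Real.log (s + ‖X p.1 - X p.2‖ ^ 2) - Real.log s) ∂(P.prod P) := by
    have h2 : ∫ p : Ω × Ω, f p.1 * f p.2 * Real.log s ∂(P.prod P) = 0 := by
      rw [integral_mul_const, integral_prod_mul f f, h0]
      simp
    have h3 : ∫ p : Ω × Ω, f p.1 * f p.2 *
      (Real.log (s + ‖X p.1 - X p.2‖ ^ 2) - Real.log s) ∂(P.prod P) =
      lE P f X s - ∫ p : Ω × Ω, f p.1 * f p.2 * Real.log s ∂(P.prod P) := by
      unfold lE
      rw [← integral_sub]
      · refine integral_congr_ae (Eventually.of_forall fun p => ?_)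
        simp only
        ring
      · exact ((bm_ff hf).mul (bm_log hX.dist hr0 hs0)).integrable
      · exact ((bm_ff hf).mul (BM.const _)).integrable
    rw [h3, h2, sub_zero]
  rw [h1, ← Real.norm_eq_abs]
  have h4 : ∀ p : Ω × Ω, ‖f p.1 * f p.2 * (Real.log (s + ‖X p.1 - X p.2‖ ^ 2) - Real.log s)‖ ≤
      C * (D / s) := by
    intro p
    rw [Real.norm_eq_abs, abs_mul]
    refine mul_le_mul (hC p) ?_ (abs_nonneg _) hC0
    have hp := hr0 p
    rw [← Real.log_div (by linarith) (by linarith)]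
    have h5 : 1 ≤ (s + ‖X p.1 - X p.2‖ ^ 2) / s := by
      rw [le_div_iff₀ hs0]
      linarith
    rw [abs_of_nonneg (Real.log_nonneg h5)]
    refine (Real.log_le_sub_one_of_pos (by linarith)).trans ?_
    have h6 : (s + ‖X p.1 - X p.2‖ ^ 2) / s - 1 = ‖X p.1 - X p.2‖ ^ 2 / s := by
      field_simp
      ring
    rw [h6]
    refine div_le_div_of_nonneg_right ?_ hs0.le
    have := hD p
    rwa [abs_of_nonneg hp] at this
  refine (norm_integral_le_of_norm_le_const (Eventually.of_forall h4)).trans (le_of_eq ?_)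
  ring

/-- The regularised logarithmic energies of a weight of total mass zero are bounded above by a
negative number. -/
theorem lE_neg (hf : BM f) (hX : BMC X) (h0 : ∫ ω, f ω ∂P = 0) {p : ℂ} {c δ : ℝ} (hc : c ≠ 0)
    (hδ : 0 < δ) (h1 : ∀ ω, ‖X ω - p‖ < δ → f ω = c)
    (h2 : 0 < P.real {ω | ‖X ω - p‖ < δ / 2}) :
    ∃ κ : ℝ, 0 < κ ∧ ∀ s, 0 < s → s ≤ 1 → lE P f X s ≤ -κ := by
  obtain ⟨T, -, hT⟩ := exists_gE_pos (P := P) hf hX hc hδ h1 h2
  have hmono := strictMono_lE (P := P) hf hX hT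
  obtain ⟨K, hK⟩ := exists_lE_le (P := P) hf hX h0
  have h3 : lE P f X 2 ≤ 0 := by
    have hlim : Tendsto (fun s : ℝ => K / s) atTop (𝓝 0) := tendsto_const_nhds.div_atTop tendsto_id
    refine ge_of_tendsto hlim ?_
    filter_upwards [eventually_gt_atTop 2] with s hs
    have h4 := hmono (by norm_num : (2 : ℝ) ∈ Ioi (0 : ℝ)) (by
      rw [mem_Ioi]; linarith : s ∈ Ioi (0 : ℝ)) hs
    exact h4.le.trans ((le_abs_self _).trans (hK s (by linarith)))
  have h5 := hmono (by norm_num : (1 : ℝ) ∈ Ioi (0 : ℝ)) (by norm_num : (2 : ℝ) ∈ Ioi (0 : ℝ))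
    (by norm_num)
  refine ⟨-lE P f X 1, by linarith, fun s hs hs1 => ?_⟩
  rw [neg_neg]
  exact hmono.monotoneOn hs (by norm_num : (1 : ℝ) ∈ Ioi (0 : ℝ)) hs1

end Pool.Agent.Y775.CC
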