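import Pool.Agent.Y775.CC.Mat
import Pool.Agent.Y775.CC.LogEnergy
set_option autoImplicit false

/-!
The matrix of the averages of `log |φ_i(u) - φ_j(v)|` is negative definite on the vectors with sum
zero.
-/

namespace Pool.Agent.Y775.CC

open MeasureTheory Set Filter Topology Polynomial

variable {G : ℂ[X]} {n : ℕ} {V : Set ℂ} {φ : Fin n → ℂ → ℂ}

/-- the measure on `n` copies of the interval `(0,1]` -/
noncomputable def Pn (n : ℕ) : Measure (Fin n × ℝ) :=
  (Measure.count : Measure (Fin n)).prod (volume.restrict (Ioc 0 1))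

instance : IsFiniteMeasure (Pn n) := by
  unfold Pn
  infer_instance

theorem integral_Pn {h : Fin n × ℝ → ℝ} (hint : Integrable h (Pn n)) :
    ∫ ω, h ω ∂(Pn n) = ∑ i, ∫ t in (0 : ℝ)..1, h (i, t) := by
  unfold Pn at hint ⊢
  rw [integral_prod _ hint, integral_count]
  refine Finset.sum_congr rfl fun i _ => ?_
  rw [intervalIntegral.integral_of_le zero_le_one]

/-- the weight -/
def fw (c : Fin n → ℝ) (ω : Fin n × ℝ) : ℝ := c ω.1

/-- the points of the branches -/
noncomputable def Xw (φ : Fin n → ℂ → ℂ) (ω : Fin n × ℝ) : ℂ := φ ω.1 (uu 1 ω.2)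

theorem bm_fw (c : Fin n → ℝ) : BM (fw c) := by
  refine ⟨(measurable_of_finite c).comp measurable_fst, ∑ i, |c i|,
    Finset.sum_nonneg fun i _ => abs_nonneg _, fun ω => ?_⟩
  exact Finset.single_le_sum (f := fun i => |c i|) (fun i _ => abs_nonneg _)
    (Finset.mem_univ ω.1)

section

variable (H : Branches G V φ)

include H

theorem bmc_Xw : BMC (Xw φ) := by
  refine ⟨?_, ?_⟩
  · have h1 : Measurable fun p : ℝ × Fin n => φ p.2 (uu 1 p.1) :=
      measurable_from_prod_countable_left fun i => (continuous_branch H i).measurable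
    exact h1.comp measurable_swap
  · have hK : IsCompact ((fun t : ℝ => (t : ℂ)) '' Icc (-2) 2) :=
      isCompact_Icc.image Complex.continuous_ofReal
    have hKV : ((fun t : ℝ => (t : ℂ)) '' Icc (-2) 2) ⊆ V := by
      rintro _ ⟨t, ht, rfl⟩
      exact H.mem t (abs_le.2 ht)
    have hex : ∀ i, ∃ C : ℝ, ∀ t : ℝ, ‖φ i (uu 1 t)‖ ≤ C := by
      intro i
      obtain ⟨C, hC⟩ := hK.exists_bound_of_continuousOn ((H.continuousOn i).mono hKV)
      refine ⟨C, fun t => hC _ ?_⟩
      rw [uu_one]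
      exact ⟨_, abs_le.1 (abs_cos_le t), rfl⟩
    choose C hC using hex
    refine ⟨∑ i, |C i|, Finset.sum_nonneg fun i _ => abs_nonneg _, fun ω => ?_⟩
    refine ((hC ω.1 ω.2).trans (le_abs_self _)).trans ?_
    exact Finset.single_le_sum (f := fun i => |C i|) (fun i _ => abs_nonneg _)
      (Finset.mem_univ ω.1)

theorem lE_Pn (c : Fin n → ℝ) {s : ℝ} (hs : 0 < s) :
    lE (Pn n) (fw c) (Xw φ) s = ∑ j, ∑ i, c j * c i * Lam φ s i j := by
  have hX := bmc_Xw H
  have hr0 : ∀ p : (Fin n × ℝ) × (Fin n × ℝ), 0 ≤ ‖Xw φ p.1 - Xw φ p.2‖ ^ 2 :=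
    fun p => by positivity
  have hg : BM fun p : (Fin n × ℝ) × (Fin n × ℝ) => fw c p.1 * fw c p.2 *
      Real.log (s + ‖Xw φ p.1 - Xw φ p.2‖ ^ 2) :=
    (bm_ff (bm_fw c)).mul (bm_log hX.dist hr0 hs)
  have hint := hg.integrable (P := (Pn n).prod (Pn n))
  unfold lE
  rw [integral_prod _ hint, integral_Pn hint.integral_prod_left]
  refine Finset.sum_congr rfl fun j _ => ?_
  have h1 : ∀ θ : ℝ, ∫ ω', fw c (j, θ) * fw c ω' *
      Real.log (s + ‖Xw φ (j, θ) - Xw φ ω'‖ ^ 2) ∂(Pn n) =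
      ∑ i, c j * c i * ∫ t in (0 : ℝ)..1,
        Real.log (s + ‖φ i (uu 1 t) - φ j (uu 1 θ)‖ ^ 2) := by
    intro θ
    have hg1 : BM fun ω' : Fin n × ℝ => fw c (j, θ) * fw c ω' *
        Real.log (s + ‖Xw φ (j, θ) - Xw φ ω'‖ ^ 2) := by
      obtain ⟨C, hC0, hC⟩ := hg.bdd
      exact ⟨hg.meas.comp (measurable_prodMk_left (x := (j, θ))), C, hC0,
        fun ω' => hC ((j, θ), ω')⟩
    rw [integral_Pn hg1.integrable]
    refine Finset.sum_congr rfl fun i _ => ?_
    rw [← intervalIntegral.integral_const_mul]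
    refine intervalIntegral.integral_congr fun t _ => ?_
    simp only [fw, Xw]
    rw [norm_sub_rev]
  simp only [h1]
  rw [intervalIntegral.integral_finsetSum]
  · refine Finset.sum_congr rfl fun i _ => ?_
    rw [intervalIntegral.integral_const_mul]
    rfl
  · intro i _
    have h2 : Continuous fun θ => c j * c i * ∫ t in (0 : ℝ)..1,
        Real.log (s + ‖φ i (uu 1 t) - φ j (uu 1 θ)‖ ^ 2) :=
      continuous_const.mul (continuous_Lam_inner H i j hs)
    exact h2.intervalIntegrable _ _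

theorem exists_sep' (i : Fin n) : ∃ δ : ℝ, 0 < δ ∧ ∀ j, j ≠ i → ∀ t : ℝ,
    δ ≤ ‖φ j (uu 1 t) - φ i (uu 1 0)‖ := by
  have hex : ∀ j, ∃ δ : ℝ, 0 < δ ∧ (j ≠ i → ∀ t : ℝ, δ ≤ ‖φ j (uu 1 t) - φ i (uu 1 0)‖) := by
    intro j
    by_cases h : j = i
    · exact ⟨1, one_pos, fun h' => absurd h h'⟩
    · obtain ⟨δ, hδ, hsep⟩ := exists_sep H h
      exact ⟨δ, hδ, fun _ t => hsep 0 t⟩
  choose δ hδ hsep using hex
  have hne : (Finset.univ : Finset (Fin n)).Nonempty := ⟨i, Finset.mem_univ i⟩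
  obtain ⟨k, -, hk⟩ := Finset.exists_min_image Finset.univ δ hne
  exact ⟨δ k, hδ k, fun j hj t => (hk j (Finset.mem_univ j)).trans (hsep j hj t)⟩

/-- Negativity on the vectors with sum zero. -/
theorem Mm_neg_of_sum {c : Fin n → ℝ} (hsum : ∑ i, c i = 0) {i₀ : Fin n} (hi₀ : c i₀ ≠ 0) :
    ∑ i, ∑ j, c i * c j * Mm φ i j < 0 := by
  have hX := bmc_Xw H
  have h0 : ∫ ω, fw c ω ∂(Pn n) = 0 := by
    rw [integral_Pn (bm_fw c).integrable]
    simp only [fw, intervalIntegral.integral_const, sub_zero, one_smul]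
    exact hsum
  obtain ⟨δ, hδ, hsep⟩ := exists_sep' H i₀
  have h1 : ∀ ω, ‖Xw φ ω - φ i₀ (uu 1 0)‖ < δ → fw c ω = c i₀ := by
    intro ω hω
    by_contra hne
    have hne' : ω.1 ≠ i₀ := fun h => hne (by unfold fw; rw [h])
    exact absurd (hsep ω.1 hne' ω.2) (not_le.2 hω)
  have h2 : 0 < (Pn n).real {ω | ‖Xw φ ω - φ i₀ (uu 1 0)‖ < δ / 2} := by
    have hc : ContinuousAt (fun t => ‖φ i₀ (uu 1 t) - φ i₀ (uu 1 0)‖) 0 :=
      ((continuous_branch H i₀).sub continuous_const).norm.continuousAt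
    have h3 : ∀ᶠ t in 𝓝 (0 : ℝ), ‖φ i₀ (uu 1 t) - φ i₀ (uu 1 0)‖ < δ / 2 := by
      refine hc.eventually_lt continuousAt_const ?_
      rw [sub_self, norm_zero]
      linarith
    obtain ⟨ε, hε, hball⟩ := Metric.eventually_nhds_iff.1 h3
    set ε' : ℝ := min (ε / 2) 1 with hε'
    have hε'0 : 0 < ε' := lt_min (by linarith) one_pos
    have hsub : ({i₀} : Set (Fin n)) ×ˢ Ioc 0 ε' ⊆
        {ω | ‖Xw φ ω - φ i₀ (uu 1 0)‖ < δ / 2} := by
      rintro ⟨i, t⟩ ⟨hi, ht⟩
      have hi' : i = i₀ := hi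
      rw [hi']
      refine hball ?_
      rw [Real.dist_eq, sub_zero, abs_of_pos ht.1]
      have := ht.2.trans (min_le_left _ _)
      linarith
    have hpos : 0 < (Pn n).real (({i₀} : Set (Fin n)) ×ˢ Ioc 0 ε') := by
      unfold Pn
      rw [measureReal_prod_prod]
      have h4 : (Measure.count : Measure (Fin n)).real {i₀} = 1 := by
        rw [measureReal_def, Measure.count_singleton]
        rfl
      have h5 : (volume.restrict (Ioc (0 : ℝ) 1)).real (Ioc 0 ε') = ε' := by
        rw [measureReal_restrict_apply measurableSet_Ioc]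
        have h6 : Ioc 0 ε' ∩ Ioc 0 1 = Ioc 0 ε' := inter_eq_left.2 fun t ht =>
          ⟨ht.1, ht.2.trans (min_le_right _ _)⟩
        rw [h6, Real.volume_real_Ioc_of_le hε'0.le, sub_zero]
      rw [h4, h5, one_mul]
      exact hε'0
    exact hpos.trans_le (measureReal_mono hsub)
  obtain ⟨κ, hκ, hle⟩ := lE_neg (P := Pn n) (bm_fw c) hX h0 hi₀ hδ h1 h2
  choose K hK using fun i j => exists_Mm_sub_Lam H i j
  -- comparison with the regularised matrix
  have hcomp : ∀ s, 0 < s → s ≤ 1 → 2 * ∑ i, ∑ j, c i * c j * Mm φ i j ≤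
      -κ + (∑ i, ∑ j, |c i * c j| * |K i j|) * s := by
    intro s hs hs1
    have h3 : ∀ i j, c i * c j * (2 * Mm φ i j) ≤ c i * c j * Lam φ s i j +
        |c i * c j| * |K i j| * s := by
      intro i j
      by_cases h : i = j
      · subst h
        have h4 := two_mul_Mm_self_le H i hs
        have h5 := mul_le_mul_of_nonneg_left h4 (mul_self_nonneg (c i))
        have h6 : 0 ≤ |c i * c i| * |K i i| * s := by positivity
        linarith
      · have h4 := hK i j s hs h
        have h5 : c i * c j * (2 * Mm φ i j) - c i * c j * Lam φ s i j ≤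
            |c i * c j| * |K i j| * s := by
          calc c i * c j * (2 * Mm φ i j) - c i * c j * Lam φ s i j =
              c i * c j * (2 * Mm φ i j - Lam φ s i j) := by ring
            _ ≤ |c i * c j * (2 * Mm φ i j - Lam φ s i j)| := le_abs_self _
            _ = |c i * c j| * |2 * Mm φ i j - Lam φ s i j| := abs_mul _ _
            _ ≤ |c i * c j| * (K i j * s) := mul_le_mul_of_nonneg_left h4 (abs_nonneg _)
            _ ≤ |c i * c j| * (|K i j| * s) := by
                refine mul_le_mul_of_nonneg_left ?_ (abs_nonneg _)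
                exact mul_le_mul_of_nonneg_right (le_abs_self _) hs.le
            _ = _ := by ring
        linarith
    have h4 : 2 * ∑ i, ∑ j, c i * c j * Mm φ i j = ∑ i, ∑ j, c i * c j * (2 * Mm φ i j) := by
      rw [Finset.mul_sum]
      refine Finset.sum_congr rfl fun i _ => ?_
      rw [Finset.mul_sum]
      exact Finset.sum_congr rfl fun j _ => by ring
    have h5 : ∑ i, ∑ j, c i * c j * Lam φ s i j = lE (Pn n) (fw c) (Xw φ) s := by
      rw [lE_Pn H c hs, Finset.sum_comm]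
      exact Finset.sum_congr rfl fun j _ => Finset.sum_congr rfl fun i _ => by ring
    calc 2 * ∑ i, ∑ j, c i * c j * Mm φ i j ≤ ∑ i, ∑ j, (c i * c j * Lam φ s i j +
          |c i * c j| * |K i j| * s) := by
          rw [h4]
          exact Finset.sum_le_sum fun i _ => Finset.sum_le_sum fun j _ => h3 i j
      _ = lE (Pn n) (fw c) (Xw φ) s + (∑ i, ∑ j, |c i * c j| * |K i j|) * s := by
          simp only [Finset.sum_add_distrib]
          rw [h5, Finset.sum_mul]
          simp only [Finset.sum_mul]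
      _ ≤ _ := by
          have := hle s hs hs1
          linarith
  have hlim : Tendsto (fun s : ℝ => -κ + (∑ i, ∑ j, |c i * c j| * |K i j|) * s) (𝓝[>] 0)
      (𝓝 (-κ + (∑ i, ∑ j, |c i * c j| * |K i j|) * 0)) := by
    refine Tendsto.mono_left ?_ nhdsWithin_le_nhds
    exact (continuous_const.add (continuous_const.mul continuous_id)).tendsto 0
  have hfin : 2 * ∑ i, ∑ j, c i * c j * Mm φ i j ≤
      -κ + (∑ i, ∑ j, |c i * c j| * |K i j|) * 0 := by
    refine ge_of_tendsto hlim ?_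
    filter_upwards [Ioc_mem_nhdsGT one_pos] with s hs
    exact hcomp s hs.1 hs.2
  rw [mul_zero, add_zero] at hfin
  linarith

/-- Negativity on the nonconstant vectors. -/
theorem Mm_neg {c : Fin n → ℝ} (hc : ∃ i j, c i ≠ c j) :
    ∑ i, ∑ j, c i * c j * Mm φ i j < 0 := by
  obtain ⟨a, b, hab⟩ := hc
  have hn : (n : ℝ) ≠ 0 := by
    have : 0 < n := a.pos
    exact_mod_cast this.ne'
  set m : ℝ := (∑ i, c i) / n with hm
  set c' : Fin n → ℝ := fun i => c i - m with hc'
  have hsum : ∑ i, c' i = 0 := by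
    simp only [hc']
    rw [Finset.sum_sub_distrib, Finset.sum_const, Finset.card_univ, Fintype.card_fin,
      nsmul_eq_mul, hm]
    field_simp
    ring
  have hex : ∃ i₀, c' i₀ ≠ 0 := by
    by_contra hcon
    push Not at hcon
    apply hab
    have h1 := hcon a
    have h2 := hcon b
    simp only [hc'] at h1 h2
    linarith
  obtain ⟨i₀, hi₀⟩ := hex
  have h := Mm_neg_of_sum H hsum hi₀
  have e : ∑ i, ∑ j, c' i * c' j * Mm φ i j = ∑ i, ∑ j, c i * c j * Mm φ i j := by
    have e1 : ∀ i, ∑ j, c' i * c' j * Mm φ i j = ∑ j, c i * c j * Mm φ i j -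
        m * ∑ j, c j * Mm φ i j := by
      intro i
      have e2 : ∀ j, c' i * c' j * Mm φ i j = c i * c j * Mm φ i j - m * (c j * Mm φ i j) -
          (c' i * m) * Mm φ i j := by
        intro j
        simp only [hc']
        ring
      simp only [e2]
      rw [Finset.sum_sub_distrib, Finset.sum_sub_distrib, ← Finset.mul_sum, ← Finset.mul_sum,
        sum_Mm' H i, mul_zero, sub_zero]
    simp only [e1]
    rw [Finset.sum_sub_distrib, ← Finset.mul_sum]
    have e3 : ∑ i, ∑ j, c j * Mm φ i j = 0 := by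
      rw [Finset.sum_comm]
      refine Finset.sum_eq_zero fun j _ => ?_
      rw [← Finset.mul_sum, sum_Mm H j, mul_zero]
    rw [e3, mul_zero, sub_zero]
  rw [← e]
  exact h

end

end Pool.Agent.Y775.CC
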