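import Pool.Agent.Y775.CC.Tor
import Pool.Agent.Y775.CC.Neg
set_option autoImplicit false

/-!
The regulators of the symbols `{x_1 - ζ x_2, z_1, z_2}` on the products of the loops of the curve
`z + 1/z = F(x)` over the components of `F(x) ∈ [-2, 2]`.
-/

namespace Pool.Agent.Y775.CC

open Polynomial Filter Topology

open Pool.Agent.TH826.MK (Torus KQ symb pairing circ norm_circ contDiff_circ circ_add_one vf
  Unramified unitPart)

section sym

variable {K : Type*} [Field K] {F : K[X]} {s : K →+* ℂ} {n : ℕ} {V : Set ℂ}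
  {φ : Fin n → ℂ → ℂ}

/-- The symmetries permute the branches. -/
theorem exists_perm (H : Branches (F.map s) V φ) (ζ : Sym F) (j : Fin n) :
    ∃ k : Fin n, ∀ u ∈ V, s ζ.1 * φ j u = φ k u := by
  have h0 : (0 : ℂ) ∈ V := by
    have := H.mem 0 (by norm_num)
    simpa using this
  have hev : ∀ u ∈ V, (F.map s).eval (s ζ.1 * φ j u) = u := by
    intro u hu
    rw [eval_map, eval_sym, ← eval_map, H.eval_branch j hu]
  have hex : ∀ u ∈ V, ∃ k, s ζ.1 * φ j u = φ k u := by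
    intro u hu
    have h1 := H.eval_sub_eq hu (s ζ.1 * φ j u)
    rw [hev u hu, sub_self, eq_comm] at h1
    obtain ⟨k, -, hk⟩ := Finset.prod_eq_zero_iff.1 h1
    exact ⟨k, sub_eq_zero.1 hk⟩
  have hfreq : ∃ k, ∃ᶠ u in 𝓝[≠] (0 : ℂ), s ζ.1 * φ j u = φ k u := by
    by_contra hcon
    push Not at hcon
    have h1 : ∀ᶠ u in 𝓝[≠] (0 : ℂ), ∀ k, s ζ.1 * φ j u ≠ φ k u := by
      rw [eventually_all]
      intro k
      exact not_frequently.1 (not_frequently.2 (hcon k))
    have h2 : ∀ᶠ u in 𝓝[≠] (0 : ℂ), u ∈ V := nhdsWithin_le_nhds (H.isOpen.mem_nhds h0)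
    obtain ⟨u, hu1, hu2⟩ := (h1.and h2).exists
    obtain ⟨k, hk⟩ := hex u hu2
    exact hu1 k hk
  obtain ⟨k, hk⟩ := hfreq
  refine ⟨k, fun u hu => ?_⟩
  have ha : AnalyticOnNhd ℂ (fun u => s ζ.1 * φ j u) V := fun u hu =>
    analyticAt_const.mul (H.analyticAt j hu)
  have hb : AnalyticOnNhd ℂ (φ k) V := fun u hu => H.analyticAt k hu
  exact ha.eqOn_of_preconnected_of_frequently_eq hb H.convex.isPreconnected h0 hk hu

theorem perm_injective (H : Branches (F.map s) V φ) {ζ ζ' : Sym F} {j k : Fin n}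
    (h : ∀ u ∈ V, s ζ.1 * φ j u = φ k u) (h' : ∀ u ∈ V, s ζ'.1 * φ j u = φ k u) : ζ = ζ' := by
  have h0 : (0 : ℂ) ∈ V := by
    have := H.mem 0 (by norm_num)
    simpa using this
  have h1 : (1 : ℂ) ∈ V := by
    have := H.mem 1 (by norm_num)
    simpa using this
  have hne : ∃ u ∈ V, φ j u ≠ 0 := by
    by_contra hcon
    push Not at hcon
    have := (H.eq_of_eq (i := j) (j := j) h0 h1 (by rw [hcon 0 h0, hcon 1 h1])).2
    exact zero_ne_one this
  obtain ⟨u, hu, hφ⟩ := hne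
  have h2 : s ζ.1 * φ j u = s ζ'.1 * φ j u := by rw [h u hu, h' u hu]
  exact Subtype.ext (s.injective (mul_right_cancel₀ hφ h2))

end sym

section indep

/-- Linear independence of the columns of the matrix that are permuted by the symmetries. -/
theorem indep_of_neg {n : ℕ} {M : Fin n → Fin n → ℝ}
    (hneg : ∀ c : Fin n → ℝ, (∃ i j, c i ≠ c j) → ∑ i, ∑ j, c i * c j * M i j < 0)
    {ι : Type*} (ρ : ι → Fin n → Fin n) (j₀ : Fin n)
    (hρ : ∀ a b, ρ a j₀ = ρ b j₀ → a = b) (T : Finset ι) (t : ι → ℝ)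
    (h : ∀ i, ∑ a ∈ T, t a * M i (ρ a j₀) = 0) :
    (∀ a ∈ T, t a = 0) ∨ (T.card = n ∧ ∀ a ∈ T, ∀ b ∈ T, t a = t b) := by
  classical
  set c : Fin n → ℝ := fun k => ∑ a ∈ T, if ρ a j₀ = k then t a else 0 with hc
  have hval : ∀ a ∈ T, c (ρ a j₀) = t a := by
    intro a ha
    simp only [hc]
    rw [Finset.sum_eq_single a]
    · simp
    · intro b _ hba
      rw [if_neg fun h => hba (hρ b a h)]
    · intro h
      exact absurd ha h
  have hM : ∀ i, ∑ k, c k * M i k = 0 := by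
    intro i
    rw [← h i]
    simp only [hc, Finset.sum_mul]
    rw [Finset.sum_comm]
    refine Finset.sum_congr rfl fun a _ => ?_
    rw [Finset.sum_eq_single (ρ a j₀)]
    · simp
    · intro k _ hk
      rw [if_neg (Ne.symm hk), zero_mul]
    · intro h
      exact absurd (Finset.mem_univ _) h
  have hconst : ∀ i j, c i = c j := by
    by_contra hcon
    push Not at hcon
    have h1 := hneg c hcon
    have h2 : ∑ i, ∑ j, c i * c j * M i j = 0 := by
      refine Finset.sum_eq_zero fun i _ => ?_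
      have h3 : ∀ j, c i * c j * M i j = c i * (c j * M i j) := fun j => by ring
      simp only [h3]
      rw [← Finset.mul_sum, hM i, mul_zero]
    rw [h2] at h1
    exact lt_irrefl _ h1
  by_cases hcard : T.card = n
  · right
    refine ⟨hcard, fun a ha b hb => ?_⟩
    rw [← hval a ha, ← hval b hb]
    exact hconst _ _
  · left
    have hle : (T.image fun a => ρ a j₀).card = T.card :=
      Finset.card_image_of_injective _ fun a b hab => hρ a b hab
    have hne : (T.image fun a => ρ a j₀) ≠ Finset.univ := by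
      intro h1
      rw [h1, Finset.card_univ, Fintype.card_fin] at hle
      exact hcard hle.symm
    obtain ⟨k, hk⟩ : ∃ k, k ∉ (T.image fun a => ρ a j₀) := by
      by_contra hcon
      push Not at hcon
      exact hne (Finset.eq_univ_iff_forall.2 hcon)
    have hk0 : c k = 0 := by
      simp only [hc]
      refine Finset.sum_eq_zero fun a ha => ?_
      rw [if_neg]
      intro h1
      exact hk (Finset.mem_image.2 ⟨a, ha, h1⟩)
    intro a ha
    rw [← hval a ha, hconst _ k, hk0]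

end indep

section main

variable {K : Type*} [Field K] (F : K[X])

/-- The trivial symmetry. -/
def symOne : Sym F := ⟨1, by rw [C_1, one_mul, comp_X]⟩

/-- The smoothness of the affine curve at its complex points. -/
def SmoothPts {K : Type*} [Field K] (s : K →+* ℂ) (F : K[X]) : Prop :=
  ∀ x z : ℂ, z ^ 2 - F.eval₂ s x * z + 1 = 0 →
    2 * z - F.eval₂ s x ≠ 0 ∨ (derivative F).eval₂ s x * z ≠ 0

variable {F} {s : K →+* ℂ} {n : ℕ}

theorem smoothPts (hcrit : ∀ x : ℂ, (derivative F).eval₂ s x = 0 → ∀ t : ℝ, |t| ≤ 2 →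
    F.eval₂ s x ≠ t) : SmoothPts s F := by
  intro x z h
  by_cases h1 : 2 * z - F.eval₂ s x = 0
  · right
    have h2 : F.eval₂ s x = 2 * z := by linear_combination -h1
    have h3 : z ^ 2 = 1 := by
      rw [h2] at h
      linear_combination -h
    have h4 : z = 1 ∨ z = -1 := by
      have : (z - 1) * (z + 1) = 0 := by linear_combination h3
      rcases mul_eq_zero.1 this with h | h
      · left; linear_combination h
      · right; linear_combination h
    have hz : z ≠ 0 := by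
      rintro rfl
      norm_num at h3
    refine mul_ne_zero (fun hd => ?_) hz
    rcases h4 with h4 | h4
    · refine hcrit x hd 2 (by norm_num) ?_
      rw [h2, h4]
      norm_num
    · refine hcrit x hd (-2) (by norm_num) ?_
      rw [h2, h4]
      norm_num
  · exact Or.inl h1

theorem main (hm : F.Monic) (hn : F.natDegree = n) (h2 : 2 ≤ n)
    (hcrit : ∀ x : ℂ, (derivative F).eval₂ s x = 0 → ∀ t : ℝ, |t| ≤ 2 → F.eval₂ s x ≠ t) :
    ∃ (V : Set ℂ) (φ : Fin n → ℂ → ℂ) (R : ℝ) (γ γ' : Fin n → Torus (CRing F) 1)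
      (Γ : Fin n → Fin n → Torus (ORing F) 2),
      Branches (F.map s) V φ ∧ 1 < R ∧ (∀ z : ℂ, 1 ≤ ‖z‖ → ‖z‖ ≤ R → z + z⁻¹ ∈ V) ∧
      (∀ i θ, (∀ a : K, (γ i).e θ (cc F a) = s a) ∧ (γ i).e θ (cx F) = φ i (uu R (θ 0)) ∧
        (γ i).e θ (cz F) = circ R (θ 0)) ∧
      (∀ i θ, (∀ a : K, (γ' i).e θ (cc F a) = s a) ∧ (γ' i).e θ (cx F) = φ i (uu 1 (θ 0)) ∧
        (γ' i).e θ (cz F) = circ 1 (θ 0)) ∧
      (∀ i j θ r, (Γ i j).e θ (toO F (pr1 F r)) = (γ i).e (fun _ => θ 0) r ∧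
        (Γ i j).e θ (toO F (pr2 F r)) = (γ' j).e (fun _ => θ 1) r) ∧
      (∀ i j, (Γ i j).reg (symb (ent F (symOne F))) = (Γ j i).reg (symb (ent F (symOne F)))) ∧
      (∀ i, ∑ j, (Γ i j).reg (symb (ent F (symOne F))) = 0) ∧
      (∀ c : Fin n → ℝ, (∃ i j, c i ≠ c j) →
        ∑ i, ∑ j, c i * c j * (Γ i j).reg (symb (ent F (symOne F))) < 0) ∧
      (∀ (T : Finset (Sym F)) (t : Sym F → ℝ),
        (∀ i j, ∑ ζ ∈ T, t ζ * (Γ i j).reg (symb (ent F ζ)) = 0) →
        (∀ ζ ∈ T, t ζ = 0) ∨ (T.card = n ∧ ∀ ζ ∈ T, ∀ ζ' ∈ T, t ζ = t ζ')) := by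
  have hGm : (F.map s).Monic := hm.map s
  have hGd : (F.map s).natDegree = n := by rw [hm.natDegree_map, hn]
  obtain ⟨V, φ, H⟩ := exists_branches (G := F.map s) hGm (by omega) hGd (by
    intro x hx t ht
    rw [eval_map]
    refine hcrit x ?_ t ht
    rw [← eval_map, ← derivative_map]
    exact hx)
  obtain ⟨R, hR, hV⟩ := exists_radius' H.isOpen H.mem
  have hR0 : 0 < R := by linarith
  have hev : ∀ i, ∀ u ∈ V, F.eval₂ s (φ i u) = u := fun i u hu => by
    rw [← eval_map]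
    exact H.eval_branch i hu
  have hV1 : ∀ t, uu 1 t ∈ V := uu_one_mem' hR.le hV
  have hVR : ∀ t, uu R t ∈ V := uu_mem hR.le hV
  have heq : ∀ (r : ℝ), 0 < r → (∀ t, uu r t ∈ V) → ∀ i t,
      circ r t ^ 2 - F.eval₂ s (φ i (uu r t)) * circ r t + 1 = 0 := by
    intro r hr hm i t
    rw [hev i _ (hm t)]
    have h1 : circ r t * (circ r t)⁻¹ = 1 := mul_inv_cancel₀ (circ_ne_zero hr t)
    have h3 : uu r t = circ r t + (circ r t)⁻¹ := rfl
    rw [h3]
    linear_combination -h1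
  have hP : ∀ i j a b, PtO F s (φ i (uu R a)) (circ R a) (φ j (uu 1 b)) (circ 1 b) := by
    intro i j a b
    refine ⟨heq R hR0 hVR i a, heq 1 one_pos hV1 j b, ?_⟩
    rw [hev i _ (hVR a), hev j _ (hV1 b)]
    exact uu_ne hR a b
  have hX : ∀ i, ContDiff ℝ 2 fun t => φ i (uu R t) := fun i =>
    contDiff_branch_uu H hR hV i hR.le le_rfl
  have hY : ∀ i, ContDiff ℝ 2 fun t => φ i (uu 1 t) := fun i =>
    contDiff_branch_uu H hR hV i le_rfl hR.le
  have pX : ∀ r i t, φ i (uu r (t + 1)) = φ i (uu r t) := fun r i t => by rw [uu_add_one]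
  set γ : Fin n → Torus (CRing F) 1 := fun i =>
    mkL (hX i) (contDiff_circ R) (pX R i) (circ_add_one R) (heq R hR0 hVR i) with hγ
  set γ' : Fin n → Torus (CRing F) 1 := fun i =>
    mkL (hY i) (contDiff_circ 1) (pX 1 i) (circ_add_one 1) (heq 1 one_pos hV1 i) with hγ'
  set Γ : Fin n → Fin n → Torus (ORing F) 2 := fun i j =>
    mkT (hX i) (contDiff_circ R) (hY j) (contDiff_circ 1) (pX R i) (circ_add_one R) (pX 1 j)
      (circ_add_one 1) (hP i j) with hΓ
  have hperm : ∀ (ζ : Sym F) (j : Fin n), ∃ k : Fin n, ∀ u ∈ V, s ζ.1 * φ j u = φ k u :=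
    fun ζ j => exists_perm H ζ j
  choose ρ hρ using hperm
  have hΓe : ∀ i j (θ : Fin 2 → ℝ) (r : SRing F), (Γ i j).e θ (toO F r) =
      evS s (φ i (uu R (θ 0))) (circ R (θ 0)) (φ j (uu 1 (θ 1))) (circ 1 (θ 1))
        (hP i j (θ 0) (θ 1)).eq1 (hP i j (θ 0) (θ 1)).eq2 r := fun i j θ r =>
    (hP i j (θ 0) (θ 1)).ev_toO r
  have hreg : ∀ (ζ : Sym F) (i j : Fin n), (Γ i j).reg (symb (ent F ζ)) =
      4 * Real.pi ^ 2 * Mm φ i (ρ ζ j) := by
    intro ζ i j
    rw [Torus.reg_symb, ← pairing_hfun H hR hV i (ρ ζ j)]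
    unfold Torus.pair
    congr 1
    funext l
    refine Fin.cases ?_ (fun l => ?_) l
    · funext θ
      show (Γ i j).e θ (toO F (x1 F - sk F ζ.1 * x2 F)) = hfun φ R i (ρ ζ j) θ
      rw [hΓe, map_sub, map_mul, evS_x1, evS_x2, evS_sk, hρ ζ j _ (hV1 (θ 1))]
      rfl
    · refine Fin.cases ?_ (fun l => ?_) l
      · funext θ
        show (Γ i j).e θ (toO F (z1 F)) = circ R (θ 0)
        rw [hΓe, evS_z1]
      · rw [Subsingleton.elim l 0]
        funext θ
        show (Γ i j).e θ (toO F (z2 F)) = circ 1 (θ 1)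
        rw [hΓe, evS_z2]
  have hρ1 : ∀ j, ρ (symOne F) j = j := by
    intro j
    have h0 : (0 : ℂ) ∈ V := by
      have := H.mem 0 (by norm_num)
      simpa using this
    have h1 := hρ (symOne F) j 0 h0
    have h3 : s (symOne F).1 = 1 := map_one s
    rw [h3, one_mul] at h1
    exact (H.inj 0 h0 h1).symm
  have hreg1 : ∀ (i j : Fin n), (Γ i j).reg (symb (ent F (symOne F))) =
      4 * Real.pi ^ 2 * Mm φ i j := fun i j => by rw [hreg, hρ1]
  have hpi : (0 : ℝ) < 4 * Real.pi ^ 2 := by positivity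
  have hneg : ∀ c : Fin n → ℝ, (∃ i j, c i ≠ c j) →
      ∑ i, ∑ j, c i * c j * (4 * Real.pi ^ 2 * Mm φ i j) < 0 := by
    intro c hc
    have h1 := Mm_neg H hc
    have h3 : ∑ i, ∑ j, c i * c j * (4 * Real.pi ^ 2 * Mm φ i j) =
        4 * Real.pi ^ 2 * ∑ i, ∑ j, c i * c j * Mm φ i j := by
      rw [Finset.mul_sum]
      refine Finset.sum_congr rfl fun i _ => ?_
      rw [Finset.mul_sum]
      exact Finset.sum_congr rfl fun j _ => by ring
    rw [h3]
    exact mul_neg_of_pos_of_neg hpi h1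
  refine ⟨V, φ, R, γ, γ', Γ, H, hR, hV, fun i θ => ⟨fun a => ?_, ?_, ?_⟩,
    fun i θ => ⟨fun a => ?_, ?_, ?_⟩, fun i j θ r => ⟨?_, ?_⟩, ?_, ?_, ?_, ?_⟩
  · exact evC_cc s _ _ (heq R hR0 hVR i (θ 0)) a
  · exact evC_cx s _ _ (heq R hR0 hVR i (θ 0))
  · exact evC_cz s _ _ (heq R hR0 hVR i (θ 0))
  · exact evC_cc s _ _ (heq 1 one_pos hV1 i (θ 0)) a
  · exact evC_cx s _ _ (heq 1 one_pos hV1 i (θ 0))
  · exact evC_cz s _ _ (heq 1 one_pos hV1 i (θ 0))
  · rw [hΓe, evS_pr1]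
    rfl
  · rw [hΓe, evS_pr2]
    rfl
  · intro i j
    rw [hreg1, hreg1, Mm_symm H]
  · intro i
    simp only [hreg1]
    rw [← Finset.mul_sum, sum_Mm' H, mul_zero]
  · intro c hc
    simp only [hreg1]
    exact hneg c hc
  · intro T t h
    simp only [hreg] at h
    have j₀ : Fin n := ⟨0, by omega⟩
    exact indep_of_neg (M := fun i j => 4 * Real.pi ^ 2 * Mm φ i j) hneg ρ j₀
      (fun ζ ζ' hh => perm_injective H (hρ ζ j₀) (by rw [hh]; exact hρ ζ' j₀)) T t
      (fun i => h i j₀)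

end main

end Pool.Agent.Y775.CC
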