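import Pool.Agent.Y775.CC.Avg
import Pool.Agent.Y775.CC.Branch
set_option autoImplicit false

/-!
The matrix of the averages of `log |φ_i(u) - φ_j(v)|` over the interval `[-2, 2]`, where the `φ_i`
are the branches of the inverse of a polynomial.
-/

namespace Pool.Agent.Y775.CC

open MeasureTheory Set Filter Topology Polynomial

variable {G : ℂ[X]} {n : ℕ} {V : Set ℂ} {φ : Fin n → ℂ → ℂ}

/-- `φ_i(u) - φ_j(v)` for `i ≠ j`, and `(φ_j(u) - φ_j(v)) / (u - v)` for `i = j` -/
noncomputable def psi (φ : Fin n → ℂ → ℂ) (i j : Fin n) (v u : ℂ) : ℂ :=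
  if i = j then dslope (φ j) v u else φ i u - φ j v

theorem psi_self (j : Fin n) (v u : ℂ) : psi φ j j v u = dslope (φ j) v u := if_pos rfl

theorem psi_ne {i j : Fin n} (h : i ≠ j) (v u : ℂ) : psi φ i j v u = φ i u - φ j v := if_neg h

/-- the average of `log |psi|` over `u` -/
noncomputable def Jm (φ : Fin n → ℂ → ℂ) (i j : Fin n) (θ : ℝ) : ℝ :=
  ∫ t in (0 : ℝ)..1, Real.log ‖psi φ i j (uu 1 θ) (uu 1 t)‖

/-- the average of `log |psi|` over `u` and `v` -/
noncomputable def Mm (φ : Fin n → ℂ → ℂ) (i j : Fin n) : ℝ := ∫ θ in (0 : ℝ)..1, Jm φ i j θ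

section

variable (H : Branches G V φ)

include H

theorem Branches.uu_mem (t : ℝ) : uu 1 t ∈ V := uu_one_mem H.mem t

theorem differentiableOn_psi (i j : Fin n) {v : ℂ} (hv : v ∈ V) :
    DifferentiableOn ℂ (psi φ i j v) V := by
  by_cases h : i = j
  · subst h
    have e : psi φ i i v = dslope (φ i) v := funext fun u => psi_self i v u
    rw [e]
    exact (Complex.differentiableOn_dslope (H.isOpen.mem_nhds hv)).2 (H.differentiableOn i)
  · have e : psi φ i j v = fun u => φ i u - φ j v := funext fun u => psi_ne h v u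
    rw [e]
    exact (H.differentiableOn i).sub_const _

theorem psi_ne_zero (i j : Fin n) {v u : ℂ} (hv : v ∈ V) (hu : u ∈ V) : psi φ i j v u ≠ 0 := by
  by_cases h : i = j
  · subst h
    rw [psi_self]
    by_cases huv : u = v
    · rw [huv, dslope_same]
      exact H.deriv_ne_zero i hv
    · intro h0
      have h1 := sub_smul_dslope (φ i) v u
      rw [h0, smul_zero] at h1
      exact huv (H.eq_of_eq hu hv (sub_eq_zero.1 h1.symm)).2
  · rw [psi_ne h]
    intro h0
    exact h (H.eq_of_eq hu hv (sub_eq_zero.1 h0)).1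

/-- The product of the `psi` is of absolute value one. -/
theorem prod_psi_of_ne (j : Fin n) {v u : ℂ} (hv : v ∈ V) (hu : u ∈ V) (huv : u ≠ v) :
    ∏ i, ‖psi φ i j v u‖ = 1 := by
  have h1 := H.eval_sub_eq hu (φ j v)
  rw [H.eval_branch j hv, ← Finset.mul_prod_erase _ _ (Finset.mem_univ j)] at h1
  have h2 := sub_smul_dslope (φ j) v u
  rw [smul_eq_mul] at h2
  have h3 : ∏ i ∈ Finset.univ.erase j, ‖psi φ i j v u‖ =
      ∏ i ∈ Finset.univ.erase j, ‖φ j v - φ i u‖ := by
    refine Finset.prod_congr rfl fun i hi => ?_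
    rw [psi_ne (Finset.ne_of_mem_erase hi), norm_sub_rev]
  rw [← Finset.mul_prod_erase _ _ (Finset.mem_univ j), h3, psi_self, ← norm_prod, ← norm_mul]
  have huv' : v - u ≠ 0 := sub_ne_zero.2 (Ne.symm huv)
  have h4 : dslope (φ j) v u * ∏ i ∈ Finset.univ.erase j, (φ j v - φ i u) = 1 := by
    apply mul_left_cancel₀ huv'
    rw [mul_one]
    nth_rewrite 2 [h1]
    linear_combination (-(∏ i ∈ Finset.univ.erase j, (φ j v - φ i u))) * h2
  rw [h4, norm_one]

theorem prod_psi (j : Fin n) {v u : ℂ} (hv : v ∈ V) (hu : u ∈ V) :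
    ∏ i, ‖psi φ i j v u‖ = 1 := by
  by_cases huv : u = v
  · subst huv
    have hc : ContinuousAt (fun w => ∏ i, ‖psi φ i j u w‖) u := by
      refine tendsto_finsetProd _ fun i _ => ?_
      exact ((differentiableOn_psi H i j hv).continuousOn.continuousAt
        (H.isOpen.mem_nhds hv)).norm
    have h1 : Tendsto (fun w => ∏ i, ‖psi φ i j u w‖) (𝓝[≠] u) (𝓝 (∏ i, ‖psi φ i j u u‖)) :=
      hc.tendsto.mono_left nhdsWithin_le_nhds
    have h2 : Tendsto (fun w => ∏ i, ‖psi φ i j u w‖) (𝓝[≠] u) (𝓝 1) := by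
      refine tendsto_const_nhds.congr' ?_
      filter_upwards [self_mem_nhdsWithin, nhdsWithin_le_nhds (H.isOpen.mem_nhds hv)] with w hw hwV
      exact (prod_psi_of_ne H j hv hwV hw).symm
    exact tendsto_nhds_unique h1 h2
  · exact prod_psi_of_ne H j hv hu huv

theorem continuous_log_psi (i j : Fin n) {v : ℂ} (hv : v ∈ V) :
    Continuous fun t => Real.log ‖psi φ i j v (uu 1 t)‖ := by
  refine Continuous.log (Continuous.norm ?_) fun t =>
    norm_ne_zero_iff.2 (psi_ne_zero H i j hv (H.uu_mem t))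
  exact (differentiableOn_psi H i j hv).continuousOn.comp_continuous (continuous_uu one_pos)
    H.uu_mem

theorem sum_Jm (j : Fin n) (θ : ℝ) : ∑ i, Jm φ i j θ = 0 := by
  unfold Jm
  rw [← intervalIntegral.integral_finsetSum]
  · have h1 : ∀ t : ℝ, ∑ i, Real.log ‖psi φ i j (uu 1 θ) (uu 1 t)‖ = 0 := by
      intro t
      rw [← Real.log_prod fun i _ => norm_ne_zero_iff.2 (psi_ne_zero H i j (H.uu_mem θ)
        (H.uu_mem t)), prod_psi H j (H.uu_mem θ) (H.uu_mem t), Real.log_one]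
    simp only [h1]
    simp
  · intro i _
    exact (continuous_log_psi H i j (H.uu_mem θ)).intervalIntegrable _ _

theorem continuous_branch (i : Fin n) : Continuous fun t => φ i (uu 1 t) :=
  (H.continuousOn i).comp_continuous (continuous_uu one_pos) H.uu_mem

theorem continuous_log_sub {i j : Fin n} (h : i ≠ j) :
    Continuous fun p : ℝ × ℝ => Real.log ‖φ i (uu 1 p.2) - φ j (uu 1 p.1)‖ := by
  refine Continuous.log (Continuous.norm ?_) fun p => norm_ne_zero_iff.2 fun h0 => ?_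
  · exact ((continuous_branch H i).comp continuous_snd).sub
      ((continuous_branch H j).comp continuous_fst)
  · exact h (H.eq_of_eq (H.uu_mem _) (H.uu_mem _) (sub_eq_zero.1 h0)).1

theorem continuous_Jm_of_ne {i j : Fin n} (h : i ≠ j) : Continuous (Jm φ i j) := by
  have h1 : Continuous (Function.uncurry fun θ t =>
      Real.log ‖φ i (uu 1 t) - φ j (uu 1 θ)‖) := continuous_log_sub H h
  have h2 := intervalIntegral.continuous_parametric_intervalIntegral_of_continuous'
    (μ := volume) h1 0 1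
  have e : Jm φ i j = fun θ => ∫ t in (0 : ℝ)..1, Real.log ‖φ i (uu 1 t) - φ j (uu 1 θ)‖ := by
    funext θ
    unfold Jm
    simp only [psi_ne h]
  rw [e]
  exact h2

theorem continuous_Jm (i j : Fin n) : Continuous (Jm φ i j) := by
  by_cases h : i = j
  · subst h
    have e : Jm φ i i = fun θ => -∑ k ∈ Finset.univ.erase i, Jm φ k i θ := by
      funext θ
      have h1 := sum_Jm H i θ
      rw [← Finset.add_sum_erase _ _ (Finset.mem_univ i)] at h1
      linarith
    rw [e]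
    exact (continuous_finsetSum _ fun k hk =>
      continuous_Jm_of_ne H (Finset.ne_of_mem_erase hk)).neg
  · exact continuous_Jm_of_ne H h

theorem sum_Mm (j : Fin n) : ∑ i, Mm φ i j = 0 := by
  unfold Mm
  rw [← intervalIntegral.integral_finsetSum]
  · simp only [sum_Jm H]
    simp
  · intro i _
    exact (continuous_Jm H i j).intervalIntegrable _ _

theorem Mm_symm (i j : Fin n) : Mm φ i j = Mm φ j i := by
  by_cases h : i = j
  · rw [h]
  · unfold Mm Jm
    simp only [psi_ne h, psi_ne (Ne.symm h)]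
    rw [intervalIntegral_intervalIntegral_swap]
    · refine intervalIntegral.integral_congr fun t _ => ?_
      refine intervalIntegral.integral_congr fun θ _ => ?_
      exact congrArg Real.log (norm_sub_rev _ _)
    · have h1 := continuous_log_sub H h
      refine (h1.continuousOn.integrableOn_compact (isCompact_Icc.prod isCompact_Icc)).mono_set
        (t := Icc (0 : ℝ) 1 ×ˢ Icc (0 : ℝ) 1) ?_
      rw [uIoc_of_le zero_le_one]
      exact prod_mono Ioc_subset_Icc_self Ioc_subset_Icc_self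

theorem sum_Mm' (i : Fin n) : ∑ j, Mm φ i j = 0 := by
  simp only [Mm_symm H i]
  exact sum_Mm H i

/-- the regularised kernel -/
theorem continuous_kernel (i j : Fin n) {s : ℝ} (hs : 0 < s) :
    Continuous fun p : ℝ × ℝ => Real.log (s + ‖φ i (uu 1 p.2) - φ j (uu 1 p.1)‖ ^ 2) := by
  refine Continuous.log (continuous_const.add ((Continuous.norm ?_).pow 2)) fun p => ?_
  · exact ((continuous_branch H i).comp continuous_snd).sub
      ((continuous_branch H j).comp continuous_fst)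
  · positivity

/-- The upper bound for the diagonal entries. -/
theorem two_mul_Jm_le (j : Fin n) (θ : ℝ) {s : ℝ} (hs : 0 < s) :
    2 * Jm φ j j θ ≤
      ∫ t in (0 : ℝ)..1, Real.log (s + ‖φ j (uu 1 t) - φ j (uu 1 θ)‖ ^ 2) := by
  have hv := H.uu_mem θ
  have hψc : Continuous fun t => psi φ j j (uu 1 θ) (uu 1 t) :=
    (differentiableOn_psi H j j hv).continuousOn.comp_continuous (continuous_uu one_pos) H.uu_mem
  obtain ⟨B, hB⟩ := (isCompact_Icc (a := (0 : ℝ)) (b := 1)).exists_bound_of_continuousOn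
    hψc.continuousOn
  set D : ℝ := max B 1 with hD
  have hD1 : 1 ≤ D := le_max_right _ _
  have hD0 : 0 < D := by linarith
  have hψB : ∀ t ∈ Icc (0 : ℝ) 1, ‖psi φ j j (uu 1 θ) (uu 1 t)‖ ≤ D := fun t ht =>
    (hB t ht).trans (le_max_left _ _)
  set s' : ℝ := s / D ^ 2 with hs'
  have hs'0 : 0 < s' := by positivity
  have h1 := avg_log_add_nonneg hs'0 (2 * Real.cos (2 * Real.pi * θ))
  have hcl := continuous_log_psi H j j hv
  have hc2 : Continuous fun t : ℝ => Real.log (s' + (2 * Real.cos (2 * Real.pi * t) -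
      2 * Real.cos (2 * Real.pi * θ)) ^ 2) := by
    refine Continuous.log (by fun_prop) fun t => by positivity
  have hc1 : Continuous fun t : ℝ => 2 * Real.log ‖psi φ j j (uu 1 θ) (uu 1 t)‖ :=
    continuous_const.mul hcl
  have hc12 : Continuous fun t : ℝ => (2 * Real.log ‖psi φ j j (uu 1 θ) (uu 1 t)‖ +
      Real.log (s' + (2 * Real.cos (2 * Real.pi * t) - 2 * Real.cos (2 * Real.pi * θ)) ^ 2)) :=
    hc1.add hc2
  have hc3 : Continuous fun t : ℝ => Real.log (s + ‖φ j (uu 1 t) - φ j (uu 1 θ)‖ ^ 2) := by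
    have h3 := (continuous_kernel H j j hs).comp
      (continuous_const.prodMk continuous_id : Continuous fun t : ℝ => (θ, t))
    exact h3
  have h2 : 2 * Jm φ j j θ ≤ ∫ t in (0 : ℝ)..1, (2 * Real.log ‖psi φ j j (uu 1 θ) (uu 1 t)‖ +
      Real.log (s' + (2 * Real.cos (2 * Real.pi * t) - 2 * Real.cos (2 * Real.pi * θ)) ^ 2)) := by
    rw [intervalIntegral.integral_add (hc1.intervalIntegrable _ _)
      (hc2.intervalIntegrable _ _), intervalIntegral.integral_const_mul]
    unfold Jm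
    linarith
  refine h2.trans ?_
  refine intervalIntegral.integral_mono_on zero_le_one
    (hc12.intervalIntegrable _ _) (hc3.intervalIntegrable _ _) fun t ht => ?_
  have hψ0 := psi_ne_zero H j j hv (H.uu_mem t)
  have hn0 : 0 < ‖psi φ j j (uu 1 θ) (uu 1 t)‖ := norm_pos_iff.2 hψ0
  have hd : ‖uu 1 t - uu 1 θ‖ ^ 2 = (2 * Real.cos (2 * Real.pi * t) -
      2 * Real.cos (2 * Real.pi * θ)) ^ 2 := by
    rw [uu_one, uu_one, ← Complex.ofReal_sub, Complex.norm_real, Real.norm_eq_abs, sq_abs]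
  have h3 : ‖φ j (uu 1 t) - φ j (uu 1 θ)‖ ^ 2 = ‖psi φ j j (uu 1 θ) (uu 1 t)‖ ^ 2 *
      (2 * Real.cos (2 * Real.pi * t) - 2 * Real.cos (2 * Real.pi * θ)) ^ 2 := by
    rw [← hd, psi_self, ← sub_smul_dslope (φ j) (uu 1 θ) (uu 1 t), smul_eq_mul, norm_mul, mul_pow]
    exact mul_comm _ _
  have h4 : 2 * Real.log ‖psi φ j j (uu 1 θ) (uu 1 t)‖ =
      Real.log (‖psi φ j j (uu 1 θ) (uu 1 t)‖ ^ 2) := by
    rw [Real.log_pow]
    push_cast
    rfl
  have h5 : 0 < s' + (2 * Real.cos (2 * Real.pi * t) - 2 * Real.cos (2 * Real.pi * θ)) ^ 2 := by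
    positivity
  rw [h4, ← Real.log_mul (by positivity) h5.ne', h3]
  refine Real.log_le_log (mul_pos (by positivity) h5) ?_
  rw [mul_add]
  refine add_le_add ?_ le_rfl
  have h6 : ‖psi φ j j (uu 1 θ) (uu 1 t)‖ ^ 2 ≤ D ^ 2 :=
    pow_le_pow_left₀ hn0.le (hψB t ht) 2
  calc ‖psi φ j j (uu 1 θ) (uu 1 t)‖ ^ 2 * s' ≤ D ^ 2 * s' :=
        mul_le_mul_of_nonneg_right h6 hs'0.le
    _ = s := by
        rw [hs']
        field_simp

/-- the regularised matrix -/
noncomputable def Lam (φ : Fin n → ℂ → ℂ) (s : ℝ) (i j : Fin n) : ℝ :=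
  ∫ θ in (0 : ℝ)..1, ∫ t in (0 : ℝ)..1, Real.log (s + ‖φ i (uu 1 t) - φ j (uu 1 θ)‖ ^ 2)

theorem continuous_Lam_inner (i j : Fin n) {s : ℝ} (hs : 0 < s) : Continuous fun θ =>
    ∫ t in (0 : ℝ)..1, Real.log (s + ‖φ i (uu 1 t) - φ j (uu 1 θ)‖ ^ 2) := by
  have h1 : Continuous (Function.uncurry fun θ t =>
      Real.log (s + ‖φ i (uu 1 t) - φ j (uu 1 θ)‖ ^ 2)) := continuous_kernel H i j hs
  exact intervalIntegral.continuous_parametric_intervalIntegral_of_continuous'
    (μ := volume) h1 0 1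

theorem two_mul_Mm_self_le (j : Fin n) {s : ℝ} (hs : 0 < s) : 2 * Mm φ j j ≤ Lam φ s j j := by
  have hcJ : Continuous fun θ => 2 * Jm φ j j θ := continuous_const.mul (continuous_Jm H j j)
  unfold Mm Lam
  rw [← intervalIntegral.integral_const_mul]
  exact intervalIntegral.integral_mono_on zero_le_one
    (hcJ.intervalIntegrable _ _)
    ((continuous_Lam_inner H j j hs).intervalIntegrable _ _)
    fun θ _ => two_mul_Jm_le H j θ hs

/-- the distances between different branches are bounded from below -/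
theorem exists_sep {i j : Fin n} (h : i ≠ j) : ∃ δ : ℝ, 0 < δ ∧
    ∀ θ t : ℝ, δ ≤ ‖φ i (uu 1 t) - φ j (uu 1 θ)‖ := by
  have hK : IsCompact (((fun t : ℝ => (t : ℂ)) '' Icc (-2) 2) ×ˢ
      ((fun t : ℝ => (t : ℂ)) '' Icc (-2) 2)) :=
    (isCompact_Icc.image Complex.continuous_ofReal).prod
      (isCompact_Icc.image Complex.continuous_ofReal)
  have hKV : ((fun t : ℝ => (t : ℂ)) '' Icc (-2) 2) ⊆ V := by
    rintro _ ⟨t, ht, rfl⟩
    exact H.mem t (abs_le.2 ht)
  have hne : (((fun t : ℝ => (t : ℂ)) '' Icc (-2) 2) ×ˢ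
      ((fun t : ℝ => (t : ℂ)) '' Icc (-2) 2)).Nonempty :=
    ⟨(((0 : ℝ) : ℂ), ((0 : ℝ) : ℂ)), ⟨0, by norm_num, rfl⟩, ⟨0, by norm_num, rfl⟩⟩
  have hc : ContinuousOn (fun p : ℂ × ℂ => ‖φ i p.1 - φ j p.2‖)
      (((fun t : ℝ => (t : ℂ)) '' Icc (-2) 2) ×ˢ ((fun t : ℝ => (t : ℂ)) '' Icc (-2) 2)) := by
    refine ContinuousOn.norm (ContinuousOn.sub ?_ ?_)
    · exact ((H.continuousOn i).mono hKV).comp continuousOn_fst fun p hp => hp.1
    · exact ((H.continuousOn j).mono hKV).comp continuousOn_snd fun p hp => hp.2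
  obtain ⟨p, hp, hmin⟩ := hK.exists_isMinOn hne hc
  refine ⟨‖φ i p.1 - φ j p.2‖, norm_pos_iff.2 fun h0 =>
    h (H.eq_of_eq (hKV hp.1) (hKV hp.2) (sub_eq_zero.1 h0)).1, fun θ t => ?_⟩
  have hm : ∀ t : ℝ, uu 1 t ∈ ((fun t : ℝ => (t : ℂ)) '' Icc (-2) 2) := by
    intro t
    rw [uu_one]
    exact ⟨_, abs_le.1 (abs_cos_le t), rfl⟩
  exact hmin (a := (uu 1 t, uu 1 θ)) ⟨hm t, hm θ⟩

omit H in
theorem abs_log_add_sub {s x : ℝ} (hs : 0 ≤ s) {δ : ℝ} (hδ : 0 < δ) (hx : δ ≤ x) :
    |2 * Real.log x - Real.log (s + x ^ 2)| ≤ s / δ ^ 2 := by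
  have hx0 : 0 < x := hδ.trans_le hx
  have h1 : 2 * Real.log x = Real.log (x ^ 2) := by
    rw [Real.log_pow]
    push_cast
    ring
  rw [h1, abs_sub_comm, ← Real.log_div (by positivity) (by positivity)]
  have h2 : (s + x ^ 2) / x ^ 2 = 1 + s / x ^ 2 := by
    field_simp
    ring
  have h3 : 0 ≤ s / x ^ 2 := by positivity
  rw [h2, abs_of_nonneg (Real.log_nonneg (by linarith))]
  refine (Real.log_le_sub_one_of_pos (by linarith)).trans ?_
  have h4 : 1 + s / x ^ 2 - 1 = s / x ^ 2 := by ring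
  rw [h4]
  exact div_le_div_of_nonneg_left hs (by positivity) (pow_le_pow_left₀ hδ.le hx 2)

theorem exists_Mm_sub_Lam (i j : Fin n) : ∃ K : ℝ, ∀ s, 0 < s → i ≠ j →
    |2 * Mm φ i j - Lam φ s i j| ≤ K * s := by
  by_cases h : i = j
  · exact ⟨0, fun s _ h' => absurd h h'⟩
  obtain ⟨δ, hδ, hsep⟩ := exists_sep H h
  refine ⟨1 / δ ^ 2, fun s hs _ => ?_⟩
  have h1 : ∀ θ, |2 * Jm φ i j θ - ∫ t in (0 : ℝ)..1,
      Real.log (s + ‖φ i (uu 1 t) - φ j (uu 1 θ)‖ ^ 2)| ≤ s / δ ^ 2 := by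
    intro θ
    have hc0 : Continuous fun t => Real.log ‖φ i (uu 1 t) - φ j (uu 1 θ)‖ := by
      have h3 := (continuous_log_sub H h).comp
        (continuous_const.prodMk continuous_id : Continuous fun t : ℝ => (θ, t))
      exact h3
    have hc1 : Continuous fun t => 2 * Real.log ‖φ i (uu 1 t) - φ j (uu 1 θ)‖ :=
      continuous_const.mul hc0
    have hc2 : Continuous fun t : ℝ => Real.log (s + ‖φ i (uu 1 t) - φ j (uu 1 θ)‖ ^ 2) := by
      have h3 := (continuous_kernel H i j hs).comp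
        (continuous_const.prodMk continuous_id : Continuous fun t : ℝ => (θ, t))
      exact h3
    unfold Jm
    simp only [psi_ne h]
    rw [← intervalIntegral.integral_const_mul, ← intervalIntegral.integral_sub
      (hc1.intervalIntegrable _ _) (hc2.intervalIntegrable _ _),
      ← Real.norm_eq_abs]
    have h2 := intervalIntegral.norm_integral_le_of_norm_le_const (a := (0 : ℝ)) (b := 1)
      (C := s / δ ^ 2) (f := fun t => 2 * Real.log ‖φ i (uu 1 t) - φ j (uu 1 θ)‖ -
        Real.log (s + ‖φ i (uu 1 t) - φ j (uu 1 θ)‖ ^ 2)) fun t _ => by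
      rw [Real.norm_eq_abs]
      exact abs_log_add_sub hs.le hδ (hsep θ t)
    simpa using h2
  have hcJ : Continuous fun θ => 2 * Jm φ i j θ := continuous_const.mul (continuous_Jm H i j)
  unfold Mm Lam
  rw [← intervalIntegral.integral_const_mul, ← intervalIntegral.integral_sub
    (hcJ.intervalIntegrable _ _)
    ((continuous_Lam_inner H i j hs).intervalIntegrable _ _), ← Real.norm_eq_abs]
  have h2 := intervalIntegral.norm_integral_le_of_norm_le_const (a := (0 : ℝ)) (b := 1)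
    (C := s / δ ^ 2) (f := fun θ => 2 * Jm φ i j θ - ∫ t in (0 : ℝ)..1,
      Real.log (s + ‖φ i (uu 1 t) - φ j (uu 1 θ)‖ ^ 2)) fun θ _ => by
    rw [Real.norm_eq_abs]
    exact h1 θ
  have e : 1 / δ ^ 2 * s = s / δ ^ 2 := by ring
  rw [e]
  simpa using h2

end

end Pool.Agent.Y775.CC
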