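import Pool.Agent.Y775.CC.Mat
set_option autoImplicit false

/-!
The regulator integrals of the symbols `{x_1 - x_2, z_1, z_2}` on products of two loops of the
curve `z + 1/z = F(x)`.
-/

namespace Pool.Agent.Y775.CC

open MeasureTheory Set Filter Topology Polynomial

open Pool.Agent.TH826.MK (circ norm_circ circ_add_one contDiff_circ hasDerivAt_circ pairing
  integrand grow lw vf tl Good One one_lin wd restrict_Icc lw_vf_self lw_vf_ne grow_succ grow_zero
  continuous_integrand tl_apply)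

theorem integral_tl {d : ℕ} {f : (Fin d → ℝ) → ℝ} (hf : Continuous f) :
    ∫ y in Icc (0 : Fin (d + 1) → ℝ) 1, f (tl d y) = ∫ θ in Icc (0 : Fin d → ℝ) 1, f θ := by
  have hint : Integrable f (Measure.pi fun _ : Fin d => (volume : Measure ℝ).restrict (Icc 0 1)) := by
    rw [← restrict_Icc]
    exact hf.continuousOn.integrableOn_compact isCompact_Icc
  rw [restrict_Icc, restrict_Icc]
  have h := measurePreserving_piFinSuccAbove
    (fun _ : Fin (d + 1) => (volume : Measure ℝ).restrict (Icc 0 1)) 0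
  have h2 := h.integral_comp' (fun p : ℝ × (Fin d → ℝ) => f p.2)
  have e : ∀ y : Fin (d + 1) → ℝ, (fun p : ℝ × (Fin d → ℝ) => f p.2)
      (MeasurableEquiv.piFinSuccAbove (fun _ => ℝ) 0 y) = f (tl d y) := by
    intro y
    rfl
  simp only [e] at h2
  rw [h2, integral_prod]
  · simp
  · exact hint.comp_snd _

theorem integral_two {f : (Fin 2 → ℝ) → ℝ} (hf : Continuous f) :
    ∫ θ in Icc (0 : Fin 2 → ℝ) 1, f θ =
      ∫ b in (0 : ℝ)..1, ∫ a in (0 : ℝ)..1, f ![a, b] := by
  have h := (volume_preserving_finTwoArrow ℝ).symm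
  have h1 := h.setIntegral_preimage_emb (MeasurableEquiv.measurableEmbedding _) f
    (Icc (0 : Fin 2 → ℝ) 1)
  have e1 : (MeasurableEquiv.finTwoArrow.symm : ℝ × ℝ → (Fin 2 → ℝ)) ⁻¹' (Icc (0 : Fin 2 → ℝ) 1) =
      Icc (0 : ℝ) 1 ×ˢ Icc (0 : ℝ) 1 := by
    ext p
    have e2 : MeasurableEquiv.finTwoArrow.symm p = (![p.1, p.2] : Fin 2 → ℝ) := rfl
    rw [mem_preimage, e2, mem_Icc, Pi.le_def, Pi.le_def, mem_prod, mem_Icc, mem_Icc]
    simp only [Fin.forall_fin_two]
    simp
    tauto
  rw [e1] at h1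
  rw [← h1, Measure.volume_eq_prod]
  have e3 : ∀ p : ℝ × ℝ, MeasurableEquiv.finTwoArrow.symm p = (![p.1, p.2] : Fin 2 → ℝ) :=
    fun p => rfl
  simp only [e3]
  have hcont : Continuous fun p : ℝ × ℝ => f ![p.1, p.2] := by
    refine hf.comp (continuous_pi fun i => ?_)
    fin_cases i
    · exact continuous_fst
    · exact continuous_snd
  have hint : Integrable (fun p : ℝ × ℝ => f ![p.1, p.2])
      (((volume : Measure ℝ).restrict (Icc 0 1)).prod ((volume : Measure ℝ).restrict (Icc 0 1))) := by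
    rw [Measure.prod_restrict]
    exact hcont.continuousOn.integrableOn_compact (isCompact_Icc.prod isCompact_Icc)
  rw [← Measure.prod_restrict, integral_prod_symm _ hint, integral_Icc_eq_integral_Ioc,
    ← intervalIntegral.integral_of_le zero_le_one]
  refine intervalIntegral.integral_congr fun b _ => ?_
  show ∫ x in Icc (0 : ℝ) 1, f ![x, b] = _
  rw [integral_Icc_eq_integral_Ioc, ← intervalIntegral.integral_of_le zero_le_one]

theorem grow_circ_zero {d : ℕ} {R : ℝ} (hR : 0 < R) (l : Fin d) (y : Fin (d + 1) → ℝ) :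
    grow (fun θ : Fin d → ℝ => circ R (θ l)) y 0 = (Real.log R : ℝ) := by
  rw [grow_zero, norm_circ hR.le]

theorem grow_circ_self {d : ℕ} {R : ℝ} (hR : 0 < R) (l : Fin d) (y : Fin (d + 1) → ℝ) :
    grow (fun θ : Fin d → ℝ => circ R (θ l)) y l.succ = 2 * Real.pi * Complex.I := by
  rw [grow_succ, lw_vf_self (contDiff_circ R), (hasDerivAt_circ R _).deriv,
    mul_div_cancel_right₀ _ (circ_ne_zero hR _)]
  simp
  ring

theorem grow_circ_ne {d : ℕ} {R : ℝ} {l k : Fin d} (h : k ≠ l) (y : Fin (d + 1) → ℝ) :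
    grow (fun θ : Fin d → ℝ => circ R (θ l)) y k.succ = 0 := by
  rw [grow_succ, lw_vf_ne (contDiff_circ R) h]
  simp

theorem integrand_two {R r : ℝ} (hR : 0 < R) (hr : 0 < r) (h : (Fin 2 → ℝ) → ℂ)
    (y : Fin 3 → ℝ) :
    integrand (Fin.cons h (vf ![circ R, circ r]) : Fin 3 → (Fin 2 → ℝ) → ℂ) y =
      4 * Real.pi ^ 2 * Real.log ‖h (tl 2 y)‖ - 2 * Real.pi *
        ((lw h 0 (tl 2 y)).im * Real.log R + (lw h 1 (tl 2 y)).im * Real.log r) := by
  have hdet : (Matrix.of fun l => grow ((Fin.cons h (vf ![circ R, circ r]) :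
      Fin 3 → (Fin 2 → ℝ) → ℂ) l) y).det = -(4 * Real.pi ^ 2 * Real.log ‖h (tl 2 y)‖ : ℝ) -
        (2 * Real.pi * Complex.I) * (grow h y 1 * Real.log R + grow h y 2 * Real.log r) := by
    rw [Matrix.det_fin_three]
    simp only [Matrix.of_apply]
    have a0 : grow ((Fin.cons h (vf ![circ R, circ r]) : Fin 3 → (Fin 2 → ℝ) → ℂ) 0) y 0 =
      ((Real.log ‖h (tl 2 y)‖ : ℝ) : ℂ) := rfl
    have a1 : grow ((Fin.cons h (vf ![circ R, circ r]) : Fin 3 → (Fin 2 → ℝ) → ℂ) 0) y 1 =
      grow h y 1 := rfl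
    have a2 : grow ((Fin.cons h (vf ![circ R, circ r]) : Fin 3 → (Fin 2 → ℝ) → ℂ) 0) y 2 =
      grow h y 2 := rfl
    have b0 : grow ((Fin.cons h (vf ![circ R, circ r]) : Fin 3 → (Fin 2 → ℝ) → ℂ) 1) y 0 =
      (Real.log R : ℝ) := grow_circ_zero hR (0 : Fin 2) y
    have b1 : grow ((Fin.cons h (vf ![circ R, circ r]) : Fin 3 → (Fin 2 → ℝ) → ℂ) 1) y 1 =
      2 * Real.pi * Complex.I := grow_circ_self hR (0 : Fin 2) y
    have b2 : grow ((Fin.cons h (vf ![circ R, circ r]) : Fin 3 → (Fin 2 → ℝ) → ℂ) 1) y 2 =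
      0 := grow_circ_ne (l := (0 : Fin 2)) (k := 1) (by decide) y
    have c0 : grow ((Fin.cons h (vf ![circ R, circ r]) : Fin 3 → (Fin 2 → ℝ) → ℂ) 2) y 0 =
      (Real.log r : ℝ) := grow_circ_zero hr (1 : Fin 2) y
    have c1 : grow ((Fin.cons h (vf ![circ R, circ r]) : Fin 3 → (Fin 2 → ℝ) → ℂ) 2) y 1 =
      0 := grow_circ_ne (l := (1 : Fin 2)) (k := 0) (by decide) y
    have c2 : grow ((Fin.cons h (vf ![circ R, circ r]) : Fin 3 → (Fin 2 → ℝ) → ℂ) 2) y 2 =
      2 * Real.pi * Complex.I := grow_circ_self hr (1 : Fin 2) y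
    rw [a0, a1, a2, b0, b1, b2, c0, c1, c2]
    push_cast
    linear_combination (4 * (Real.pi : ℂ) ^ 2 * (Real.log ‖h (tl 2 y)‖ : ℝ)) * Complex.I_sq
  unfold integrand
  rw [hdet]
  have g1 : grow h y 1 = ((y 0 * (lw h 0 (tl 2 y)).re : ℝ) : ℂ) +
      Complex.I * ((lw h 0 (tl 2 y)).im : ℝ) := grow_succ h y 0
  have g2 : grow h y 2 = ((y 0 * (lw h 1 (tl 2 y)).re : ℝ) : ℂ) +
      Complex.I * ((lw h 1 (tl 2 y)).im : ℝ) := grow_succ h y 1
  rw [g1, g2, neg_sq, Complex.I_sq]
  simp only [Complex.neg_re, Complex.sub_re, Complex.mul_re, Complex.add_re, Complex.ofReal_re,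
    Complex.I_re, Complex.I_im, Complex.mul_im, Complex.ofReal_im, Complex.add_im,
    Complex.neg_im, Complex.sub_im, Complex.one_re, Complex.one_im, Complex.re_ofNat,
    Complex.im_ofNat]
  ring

theorem lw_zero_eq {h : (Fin 2 → ℝ) → ℂ} (hg : Good h) (a b : ℝ) :
    lw h 0 ![a, b] = deriv (fun t => h ![t, b]) a / h ![a, b] := by
  unfold lw
  congr 1
  have hf : HasFDerivAt h (fderiv ℝ h ![a, b]) ![a, b] :=
    ((hg.smooth.differentiable (by norm_num)) _).hasFDerivAt
  have hl : HasDerivAt (fun t : ℝ => (![t, b] : Fin 2 → ℝ)) (Pi.single 0 1) a := by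
    rw [hasDerivAt_pi]
    intro i
    refine Fin.cases ?_ (fun i => ?_) i
    · show HasDerivAt (fun t : ℝ => t) ((Pi.single 0 (1 : ℝ) : Fin 2 → ℝ) 0) a
      rw [Pi.single_eq_same]
      exact hasDerivAt_id a
    · have h0 : (Pi.single 0 (1 : ℝ) : Fin 2 → ℝ) i.succ = 0 :=
        Pi.single_eq_of_ne (Fin.succ_ne_zero i) _
      rw [h0]
      have h1 : (fun t : ℝ => (![t, b] : Fin 2 → ℝ) i.succ) = fun _ => (![b] : Fin 1 → ℝ) i := by
        funext t
        exact Matrix.cons_val_succ t ![b] i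
      rw [h1]
      exact hasDerivAt_const a _
  exact (hf.comp_hasDerivAt a hl).deriv.symm

theorem continuous_lw {d : ℕ} {h : (Fin d → ℝ) → ℂ} (hg : Good h) (i : Fin d) :
    Continuous (lw h i) := by
  unfold lw
  exact ((hg.smooth.continuous_fderiv (by norm_num)).clm_apply continuous_const).div
    hg.smooth.continuous hg.ne_zero

/-- The regulator integral over the product of the circles of radii `R` and `1`. -/
theorem pairing_two {R : ℝ} (hR : 0 < R) {h : (Fin 2 → ℝ) → ℂ} (hg : Good h) :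
    pairing (Fin.cons h (vf ![circ R, circ 1]) : Fin 3 → (Fin 2 → ℝ) → ℂ) =
      ∫ b in (0 : ℝ)..1, ∫ a in (0 : ℝ)..1, (4 * Real.pi ^ 2 * Real.log ‖h ![a, b]‖ -
        2 * Real.pi * Real.log R * (deriv (fun t => h ![t, b]) a / h ![a, b]).im) := by
  have hc : Continuous fun θ : Fin 2 → ℝ => 4 * Real.pi ^ 2 * Real.log ‖h θ‖ -
      2 * Real.pi * Real.log R * (lw h 0 θ).im := by
    refine Continuous.sub (continuous_const.mul ?_) (continuous_const.mul ?_)
    · exact Continuous.log hg.smooth.continuous.norm fun θ => norm_ne_zero_iff.2 (hg.ne_zero θ)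
    · exact Complex.continuous_im.comp (continuous_lw hg 0)
  have e : ∀ y : Fin 3 → ℝ, integrand (Fin.cons h (vf ![circ R, circ 1]) :
      Fin 3 → (Fin 2 → ℝ) → ℂ) y = (fun θ : Fin 2 → ℝ => 4 * Real.pi ^ 2 * Real.log ‖h θ‖ -
      2 * Real.pi * Real.log R * (lw h 0 θ).im) (tl 2 y) := by
    intro y
    rw [integrand_two hR one_pos, Real.log_one]
    simp only
    ring
  unfold pairing
  simp only [e]
  rw [integral_tl hc, integral_two hc]
  simp only [lw_zero_eq hg]

/-- the logarithmic average and the winding number of `z + 1/z - v`, `v ∈ [-2, 2]` -/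
theorem one_uu_sub {R : ℝ} (hR : 1 < R) (b : ℝ) : One (fun t => uu R t - uu 1 b) 1 ∧
    ∫ t in (0 : ℝ)..1, Real.log ‖uu R t - uu 1 b‖ = Real.log R := by
  have hR0 : 0 < R := by linarith
  have hn1 : ‖circ 1 b‖ = 1 := norm_circ zero_le_one b
  have hn2 : ‖(circ 1 b)⁻¹‖ = 1 := by rw [norm_inv, hn1, inv_one]
  have hb0 := circ_ne_zero one_pos b
  have h1 : One (fun s => circ R s - circ 1 b) (wd R (circ 1 b)) :=
    one_lin hR0 (by rw [hn1]; exact hR.ne)
  have h2 : One (fun s => circ R s - (circ 1 b)⁻¹) (wd R (circ 1 b)⁻¹) :=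
    one_lin hR0 (by rw [hn2]; exact hR.ne)
  have h0 : One (fun s => circ R s - 0) (wd R 0) :=
    one_lin hR0 (by rw [norm_zero]; exact hR0.ne)
  have w1 : wd R (circ 1 b) = 1 := if_pos (by rw [hn1]; exact hR)
  have w2 : wd R (circ 1 b)⁻¹ = 1 := if_pos (by rw [hn2]; exact hR)
  have w0 : wd R 0 = 1 := if_pos (by rw [norm_zero]; exact hR0)
  have e : (fun t => uu R t - uu 1 b) = fun s => (circ R s - circ 1 b) /
      ((circ R s - 0) / (circ R s - (circ 1 b)⁻¹)) := by
    funext s
    have h3 := circ_ne_zero hR0 s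
    have h4 := h2.ne_zero s
    rw [sub_zero, div_div_eq_mul_div, eq_div_iff h3]
    unfold uu
    field_simp
    ring
  constructor
  · rw [e]
    have h3 := h1.div (h0.div h2)
    rw [w1, w2, w0] at h3
    have h4 : (1 : ℝ) - (1 - 1) = 1 := by ring
    rwa [h4] at h3
  · have e2 : ∀ t, Real.log ‖uu R t - uu 1 b‖ = Real.log ‖circ R t - circ 1 b‖ +
        Real.log ‖circ R t - (circ 1 b)⁻¹‖ - Real.log R := by
      intro t
      have h3 : uu R t - uu 1 b = _ := congrFun e t
      rw [h3, norm_div, norm_div, sub_zero, norm_circ hR0.le, div_div_eq_mul_div,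
        Real.log_div (mul_ne_zero (norm_ne_zero_iff.2 (h1.ne_zero t))
          (norm_ne_zero_iff.2 (h2.ne_zero t))) hR0.ne',
        Real.log_mul (norm_ne_zero_iff.2 (h1.ne_zero t)) (norm_ne_zero_iff.2 (h2.ne_zero t))]
    have hc : Continuous (circ R) := (contDiff_circ R (n := 0)).continuous
    have c1 : Continuous fun t => Real.log ‖circ R t - circ 1 b‖ :=
      Continuous.log (hc.sub continuous_const).norm fun t => norm_ne_zero_iff.2 (h1.ne_zero t)
    have c2 : Continuous fun t => Real.log ‖circ R t - (circ 1 b)⁻¹‖ :=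
      Continuous.log (hc.sub continuous_const).norm fun t => norm_ne_zero_iff.2 (h2.ne_zero t)
    have c12 : Continuous fun t => Real.log ‖circ R t - circ 1 b‖ +
        Real.log ‖circ R t - (circ 1 b)⁻¹‖ := c1.add c2
    simp only [e2]
    rw [intervalIntegral.integral_sub (c12.intervalIntegrable _ _)
      (continuous_const.intervalIntegrable _ _),
      intervalIntegral.integral_add (c1.intervalIntegrable _ _) (c2.intervalIntegrable _ _),
      avg_circ_sub hR0 (by rw [hn1]; exact hR.le), avg_circ_sub hR0 (by rw [hn2]; exact hR.le)]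
    simp

variable {G : ℂ[X]} {n : ℕ} {V : Set ℂ} {φ : Fin n → ℂ → ℂ}

section

variable (H : Branches G V φ) {R : ℝ} (hR : 1 < R)
  (hV : ∀ z : ℂ, 1 ≤ ‖z‖ → ‖z‖ ≤ R → z + z⁻¹ ∈ V)

include H hR hV

omit H hV in
theorem uu_ne (a b : ℝ) : uu R a ≠ uu 1 b := by
  intro h
  exact (one_uu_sub hR b).1.ne_zero a (sub_eq_zero.2 h)

omit hR hV in
theorem contDiffAt_branch (i : Fin n) {u : ℂ} (hu : u ∈ V) : ContDiffAt ℝ 2 (φ i) u :=
  ((H.analyticAt i hu).contDiffAt (n := 2)).restrict_scalars ℝ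

theorem contDiff_branch_uu (i : Fin n) {r : ℝ} (hr : 1 ≤ r) (hrR : r ≤ R) :
    ContDiff ℝ 2 fun t => φ i (uu r t) := by
  rw [contDiff_iff_contDiffAt]
  intro t
  have hu : uu r t ∈ V := hV _ (by rw [norm_circ (by linarith)]; exact hr)
    (by rw [norm_circ (by linarith)]; exact hrR)
  exact (contDiffAt_branch H i hu).comp t (contDiff_uu (by linarith)).contDiffAt

/-- the function `x_1 - x_2` on the torus -/
noncomputable def hfun (φ : Fin n → ℂ → ℂ) (R : ℝ) (i j : Fin n) (θ : Fin 2 → ℝ) : ℂ :=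
  φ i (uu R (θ 0)) - φ j (uu 1 (θ 1))

theorem good_hfun (i j : Fin n) : Good (hfun φ R i j) := by
  refine ⟨?_, fun θ h0 => ?_⟩
  · exact ((contDiff_branch_uu H hR hV i hR.le le_rfl).comp (contDiff_apply ℝ ℝ 0)).sub
      ((contDiff_branch_uu H hR hV j le_rfl hR.le).comp (contDiff_apply ℝ ℝ 1))
  · have h1 := H.eq_of_eq (uu_mem hR.le hV _) (uu_one_mem' hR.le hV _) (sub_eq_zero.1 h0)
    exact uu_ne hR _ _ h1.2

/-- the inner integral -/
theorem inner_eq (i j : Fin n) (b : ℝ) : ∫ a in (0 : ℝ)..1,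
    (4 * Real.pi ^ 2 * Real.log ‖hfun φ R i j ![a, b]‖ - 2 * Real.pi * Real.log R *
      (deriv (fun t => hfun φ R i j ![t, b]) a / hfun φ R i j ![a, b]).im) =
      4 * Real.pi ^ 2 * Jm φ i j b := by
  have hv : uu 1 b ∈ V := uu_one_mem' hR.le hV b
  have hR0 : 0 < R := by linarith
  have hψ := differentiableOn_psi H i j hv
  have hψ0 : ∀ u ∈ V, psi φ i j (uu 1 b) u ≠ 0 := fun u hu => psi_ne_zero H i j hv hu
  have havg := avg_log_eq H.isOpen H.convex hR.le hV hψ hψ0
  have hwind := wind_eq_zero H.isOpen H.convex hR.le hV hψ hψ0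
  have hψs : ContDiff ℝ 2 fun t => psi φ i j (uu 1 b) (uu R t) := by
    rw [contDiff_iff_contDiffAt]
    intro t
    have hu : uu R t ∈ V := uu_mem hR.le hV t
    exact (((hψ.analyticAt (H.isOpen.mem_nhds hu)).contDiffAt (n := 2)).restrict_scalars ℝ).comp t
      (contDiff_uu hR0).contDiffAt
  have hψd : ∀ t, HasDerivAt (fun t => psi φ i j (uu 1 b) (uu R t))
      (deriv (fun t => psi φ i j (uu 1 b) (uu R t)) t) t := fun t =>
    (hψs.differentiable (by norm_num) t).hasDerivAt
  have hψld : Continuous fun t => deriv (fun t => psi φ i j (uu 1 b) (uu R t)) t /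
      psi φ i j (uu 1 b) (uu R t) :=
    (hψs.continuous_deriv (by norm_num)).div hψs.continuous fun t => hψ0 _ (uu_mem hR.le hV t)
  have hψim : ∫ a in (0 : ℝ)..1, (deriv (fun t => psi φ i j (uu 1 b) (uu R t)) a /
      psi φ i j (uu 1 b) (uu R a)).im = 0 := by
    have h1 := Complex.imCLM.intervalIntegral_comp_comm
      (hψld.intervalIntegrable (μ := volume) 0 1)
    simp only [Complex.imCLM_apply] at h1
    rw [h1, hwind, Complex.zero_im]
  have cl1 : Continuous fun t => Real.log ‖psi φ i j (uu 1 b) (uu R t)‖ :=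
    Continuous.log hψs.continuous.norm fun t => norm_ne_zero_iff.2 (hψ0 _ (uu_mem hR.le hV t))
  have ci1 : Continuous fun a => (deriv (fun t => psi φ i j (uu 1 b) (uu R t)) a /
      psi φ i j (uu 1 b) (uu R a)).im := Complex.continuous_im.comp hψld
  by_cases hij : i = j
  · subst hij
    obtain ⟨ho, hlog⟩ := one_uu_sub hR b
    have e1 : ∀ t, hfun φ R i i ![t, b] = (uu R t - uu 1 b) * psi φ i i (uu 1 b) (uu R t) := by
      intro t
      rw [psi_self]
      have h2 := sub_smul_dslope (φ i) (uu 1 b) (uu R t)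
      rw [smul_eq_mul] at h2
      rw [h2]
      rfl
    have hod : ∀ t, HasDerivAt (fun t => uu R t - uu 1 b)
        (deriv (fun t => uu R t - uu 1 b) t) t := fun t =>
      (ho.smooth.differentiable (by norm_num) t).hasDerivAt
    have e2 : ∀ a, deriv (fun t => hfun φ R i i ![t, b]) a / hfun φ R i i ![a, b] =
        deriv (fun t => uu R t - uu 1 b) a / (uu R a - uu 1 b) +
        deriv (fun t => psi φ i i (uu 1 b) (uu R t)) a / psi φ i i (uu 1 b) (uu R a) := by
      intro a
      have e3 : (fun t => hfun φ R i i ![t, b]) = fun t => (uu R t - uu 1 b) *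
        psi φ i i (uu 1 b) (uu R t) := funext e1
      rw [e3, e1 a, ((hod a).fun_mul (hψd a)).deriv]
      have h3 := ho.ne_zero a
      have h4 := hψ0 _ (uu_mem hR.le hV a)
      field_simp
    have e4 : ∀ a, Real.log ‖hfun φ R i i ![a, b]‖ = Real.log ‖uu R a - uu 1 b‖ +
        Real.log ‖psi φ i i (uu 1 b) (uu R a)‖ := by
      intro a
      rw [e1 a, norm_mul, Real.log_mul (norm_ne_zero_iff.2 (ho.ne_zero a))
        (norm_ne_zero_iff.2 (hψ0 _ (uu_mem hR.le hV a)))]
    simp only [e2, e4, Complex.add_im]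
    have cl0 : Continuous fun t => Real.log ‖uu R t - uu 1 b‖ :=
      Continuous.log ho.smooth.continuous.norm fun t => norm_ne_zero_iff.2 (ho.ne_zero t)
    have ci0 : Continuous fun a => (deriv (fun t => uu R t - uu 1 b) a /
        (uu R a - uu 1 b)).im := Complex.continuous_im.comp ho.continuous_ld
    have hoim : ∫ a in (0 : ℝ)..1, (deriv (fun t => uu R t - uu 1 b) a /
        (uu R a - uu 1 b)).im = 2 * Real.pi := by
      have h1 := Complex.imCLM.intervalIntegral_comp_comm
        (ho.continuous_ld.intervalIntegrable (μ := volume) 0 1)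
      simp only [Complex.imCLM_apply] at h1
      have h2 := ho.wind
      rw [integral_Icc_eq_integral_Ioc, ← intervalIntegral.integral_of_le zero_le_one] at h2
      rw [h1, h2]
      simp
    have s1 : IntervalIntegrable (fun a => 4 * Real.pi ^ 2 * (Real.log ‖uu R a - uu 1 b‖ +
        Real.log ‖psi φ i i (uu 1 b) (uu R a)‖)) volume 0 1 :=
      (continuous_const.mul (cl0.add cl1)).intervalIntegrable _ _
    have s2 : IntervalIntegrable (fun a => 2 * Real.pi * Real.log R *
        ((deriv (fun t => uu R t - uu 1 b) a / (uu R a - uu 1 b)).im +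
        (deriv (fun t => psi φ i i (uu 1 b) (uu R t)) a /
          psi φ i i (uu 1 b) (uu R a)).im)) volume 0 1 :=
      (continuous_const.mul (ci0.add ci1)).intervalIntegrable _ _
    rw [intervalIntegral.integral_sub s1 s2, intervalIntegral.integral_const_mul,
      intervalIntegral.integral_const_mul,
      intervalIntegral.integral_add (cl0.intervalIntegrable _ _) (cl1.intervalIntegrable _ _),
      intervalIntegral.integral_add (ci0.intervalIntegrable _ _) (ci1.intervalIntegrable _ _),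
      hlog, hoim, hψim, havg]
    unfold Jm
    ring
  · have e1 : ∀ t, hfun φ R i j ![t, b] = psi φ i j (uu 1 b) (uu R t) := by
      intro t
      rw [psi_ne hij]
      rfl
    simp only [e1]
    have s1 : IntervalIntegrable (fun a => 4 * Real.pi ^ 2 *
        Real.log ‖psi φ i j (uu 1 b) (uu R a)‖) volume 0 1 :=
      (continuous_const.mul cl1).intervalIntegrable _ _
    have s2 : IntervalIntegrable (fun a => 2 * Real.pi * Real.log R *
        (deriv (fun t => psi φ i j (uu 1 b) (uu R t)) a /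
          psi φ i j (uu 1 b) (uu R a)).im) volume 0 1 :=
      (continuous_const.mul ci1).intervalIntegrable _ _
    rw [intervalIntegral.integral_sub s1 s2, intervalIntegral.integral_const_mul,
      intervalIntegral.integral_const_mul, hψim, havg, mul_zero, sub_zero]
    rfl

/-- The regulator integral of `{x_1 - x_2, z_1, z_2}` on the torus. -/
theorem pairing_hfun (i j : Fin n) :
    pairing (Fin.cons (hfun φ R i j) (vf ![circ R, circ 1]) : Fin 3 → (Fin 2 → ℝ) → ℂ) =
      4 * Real.pi ^ 2 * Mm φ i j := by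
  rw [pairing_two (by linarith) (good_hfun H hR hV i j)]
  simp only [inner_eq H hR hV]
  rw [intervalIntegral.integral_const_mul]
  rfl

end

end Pool.Agent.Y775.CC
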