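import Pool.Agent.TH826.HD.Ring
set_option autoImplicit false

/-!
The coordinate ring of the curve `C : z² - F(x) z + 1 = 0` over a commutative ring, and the
coordinate rings of `C × C` and of the open part `F(x_1) ≠ F(x_2)` of `C × C`.
-/

namespace Pool.Agent.Y775.CC

open Polynomial

section curve

variable {A : Type*} [CommRing A] (F : A[X])

/-- The polynomial `Z² - F Z + 1`. -/
noncomputable def ceq : A[X][X] := X ^ 2 - C F * X + 1

/-- The coordinate ring of the affine curve `z² - F(x) z + 1 = 0` over the ring `A`. -/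
def CRing : Type _ := AdjoinRoot (ceq F)

noncomputable instance : CommRing (CRing F) := AdjoinRoot.instCommRing (ceq F)

/-- The polynomials in `x` as functions on the curve. -/
noncomputable def cp : A[X] →+* CRing F := AdjoinRoot.of (ceq F)

/-- The constants. -/
noncomputable def cc : A →+* CRing F := (cp F).comp C

/-- The function `x`. -/
noncomputable def cx : CRing F := cp F X

/-- The function `z`. -/
noncomputable def cz : CRing F := AdjoinRoot.root (ceq F)

theorem cp_eq (p : A[X]) : cp F p = p.eval₂ (cc F) (cx F) := by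
  have h : cp F = Polynomial.eval₂RingHom (cc F) (cx F) := by
    refine Polynomial.ringHom_ext (fun a => ?_) ?_
    · rw [Polynomial.coe_eval₂RingHom, Polynomial.eval₂_C]
      rfl
    · rw [Polynomial.coe_eval₂RingHom, Polynomial.eval₂_X]
      rfl
  rw [h, Polynomial.coe_eval₂RingHom]

theorem cz_eq : cz F ^ 2 - F.eval₂ (cc F) (cx F) * cz F + 1 = 0 := by
  rw [← cp_eq]
  have h := AdjoinRoot.mk_self (f := ceq F)
  have h2 : AdjoinRoot.mk (ceq F) (ceq F) = AdjoinRoot.root (ceq F) ^ 2 -
      AdjoinRoot.of _ F * AdjoinRoot.root (ceq F) + 1 := by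
    conv_lhs => rw [show AdjoinRoot.mk (ceq F) (ceq F) =
      AdjoinRoot.mk (ceq F) (X ^ 2 - C F * X + 1) from rfl]
    rw [map_add, map_sub, map_mul, map_pow, map_one, AdjoinRoot.mk_X, AdjoinRoot.mk_C]
  rw [h2] at h
  exact h

section lift

variable {F} {S : Type*} [CommRing S]

/-- The homomorphism on the coordinate ring of the curve defined by a solution `(x, z)`. -/
noncomputable def evC (k : A →+* S) (x z : S) (h : z ^ 2 - F.eval₂ k x * z + 1 = 0) :
    CRing F →+* S :=
  AdjoinRoot.lift (Polynomial.eval₂RingHom k x) z (by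
    unfold ceq
    simp only [Polynomial.eval₂_add, Polynomial.eval₂_sub, Polynomial.eval₂_mul,
      Polynomial.eval₂_X, Polynomial.eval₂_C, Polynomial.eval₂_one, Polynomial.eval₂_X_pow]
    exact h)

variable (k : A →+* S) (x z : S) (h : z ^ 2 - F.eval₂ k x * z + 1 = 0)

theorem evC_cp (p : A[X]) : evC k x z h (cp F p) = p.eval₂ k x := AdjoinRoot.lift_of _

theorem evC_cc (a : A) : evC k x z h (cc F a) = k a := by
  show evC k x z h (cp F (C a)) = k a
  rw [evC_cp, Polynomial.eval₂_C]

theorem evC_comp : (evC k x z h).comp (cc F) = k := RingHom.ext fun a => evC_cc k x z h a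

theorem evC_cx : evC k x z h (cx F) = x := by
  show evC k x z h (cp F X) = x
  rw [evC_cp, Polynomial.eval₂_X]

theorem evC_cz : evC k x z h (cz F) = z := AdjoinRoot.lift_root _

theorem evC_mk (p : A[X][X]) : evC k x z h (AdjoinRoot.mk (ceq F) p : AdjoinRoot (ceq F)) =
    p.eval₂ (Polynomial.eval₂RingHom k x) z := AdjoinRoot.lift_mk _ p

end lift

/-- Two homomorphisms that agree on the constants, `x` and `z`, are equal. -/
theorem hom_ext {F : A[X]} {S : Type*} [CommRing S] {f g : CRing F →+* S}
    (h1 : ∀ a, f (cc F a) = g (cc F a)) (h2 : f (cx F) = g (cx F)) (h3 : f (cz F) = g (cz F)) :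
    f = g := by
  have h4 : f.comp (cp F) = g.comp (cp F) := by
    refine Polynomial.ringHom_ext (fun a => h1 a) h2
  ext r
  obtain ⟨p, hp⟩ := AdjoinRoot.mk_surjective (g := ceq F) r
  have h5 : ∀ f : CRing F →+* S, f (AdjoinRoot.mk (ceq F) p : AdjoinRoot (ceq F)) =
      p.eval₂ (f.comp (cp F)) (f (cz F)) := by
    intro f
    have h6 : f.comp (AdjoinRoot.mk (ceq F)) = Polynomial.eval₂RingHom (f.comp (cp F))
        (f (cz F)) := by
      refine Polynomial.ringHom_ext (fun a => ?_) ?_
      · rw [Polynomial.coe_eval₂RingHom, Polynomial.eval₂_C]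
        rfl
      · rw [Polynomial.coe_eval₂RingHom, Polynomial.eval₂_X]
        rfl
    exact congrArg (fun q : A[X][X] →+* S => q p) h6
  rw [← hp, h5 f, h5 g, h4, h3]

theorem monic_ceq : (ceq F).Monic := by
  nontriviality A
  unfold ceq
  monicity!

theorem natDegree_ceq [Nontrivial A] : (ceq F).natDegree = 2 := by
  unfold ceq
  compute_degree!

theorem cp_injective [Nontrivial A] : Function.Injective (cp F) := by
  rw [injective_iff_map_eq_zero]
  intro p h
  have h1 : AdjoinRoot.mk (ceq F) (C p) = 0 := h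
  rw [AdjoinRoot.mk_eq_zero] at h1
  by_contra hp
  refine (monic_ceq F).not_dvd_of_natDegree_lt (by simpa using hp) ?_ h1
  rw [natDegree_ceq, natDegree_C]
  norm_num

end curve

/-- The coordinate ring of the curve over a domain is a domain. -/
theorem isDomain_CRing {A : Type*} [CommRing A] [IsDomain A] {F : A[X]} (hF : 0 < F.natDegree) :
    IsDomain (CRing F) := by
  set ι : A →+* FractionRing A := algebraMap A (FractionRing A) with hι
  have hι0 : Function.Injective ι := IsFractionRing.injective A (FractionRing A)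
  set F' : (FractionRing A)[X] := F.map ι with hF'
  have hdom : IsDomain (AdjoinRoot (ceq F')) := by
    have h1 : 0 < F'.natDegree := by rw [hF', natDegree_map_eq_of_injective hι0]; exact hF
    exact Pool.Agent.TH826.HD.isDomain_PRing h1
  have hmap : (ceq F).map (mapRingHom ι) = ceq F' := by
    unfold ceq
    simp only [Polynomial.map_add, Polynomial.map_sub, Polynomial.map_mul, Polynomial.map_pow,
      Polynomial.map_X, Polynomial.map_C, Polynomial.map_one]
    rfl
  have hj : Function.Injective (mapRingHom ι) := by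
    rw [coe_mapRingHom]
    exact Polynomial.map_injective ι hι0
  set f : AdjoinRoot (ceq F) →+* AdjoinRoot (ceq F') :=
    AdjoinRoot.map (mapRingHom ι) (ceq F) (ceq F') (by rw [hmap]) with hf
  have hfmk : ∀ p : A[X][X], f (AdjoinRoot.mk (ceq F) p) =
      AdjoinRoot.mk (ceq F') (p.map (mapRingHom ι)) := by
    intro p
    have h1 : f.comp (AdjoinRoot.mk (ceq F)) = (AdjoinRoot.mk (ceq F')).comp
        (mapRingHom (mapRingHom ι)) := by
      refine Polynomial.ringHom_ext (fun a => ?_) ?_
      · rw [RingHom.comp_apply, RingHom.comp_apply, AdjoinRoot.mk_C, hf, AdjoinRoot.map_of,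
          coe_mapRingHom (mapRingHom ι), Polynomial.map_C]
        rfl
      · rw [RingHom.comp_apply, RingHom.comp_apply, AdjoinRoot.mk_X, hf, AdjoinRoot.map_root,
          coe_mapRingHom (mapRingHom ι), Polynomial.map_X, AdjoinRoot.mk_X]
    exact congrArg (fun q : A[X][X] →+* AdjoinRoot (ceq F') => q p) h1
  have hinj : Function.Injective f := by
    rw [injective_iff_map_eq_zero]
    intro a ha
    obtain ⟨p, rfl⟩ := AdjoinRoot.mk_surjective (g := ceq F) a
    rw [hfmk, AdjoinRoot.mk_eq_zero, ← hmap,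
      ← modByMonic_eq_zero_iff_dvd ((monic_ceq F).map (mapRingHom ι)),
      ← Polynomial.map_modByMonic _ (monic_ceq F)] at ha
    rw [AdjoinRoot.mk_eq_zero, ← modByMonic_eq_zero_iff_dvd (monic_ceq F)]
    exact Polynomial.map_injective _ hj (by rw [ha, Polynomial.map_zero])
  exact hinj.isDomain f

section surface

variable {K : Type*} [Field K] (F : K[X])

/-- The polynomial `F` over the coordinate ring of the curve. -/
noncomputable def F1 : (CRing F)[X] := F.map (cc F)

/-- The coordinate ring of `C × C`: the coordinate ring of the curve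
`z_2² - F(x_2) z_2 + 1 = 0` over the coordinate ring of the curve `z_1² - F(x_1) z_1 + 1 = 0`. -/
abbrev SRing : Type _ := CRing (F1 F)

/-- The constants. -/
noncomputable def sk : K →+* SRing F := (cc (F1 F)).comp (cc F)

/-- The functions on the first factor. -/
noncomputable def pr1 : CRing F →+* SRing F := cc (F1 F)

theorem F1_eval₂ {S : Type*} [CommRing S] (k : CRing F →+* S) (x : S) :
    (F1 F).eval₂ k x = F.eval₂ (k.comp (cc F)) x := by
  unfold F1
  rw [Polynomial.eval₂_map]

theorem sk_eqn : cz (F1 F) ^ 2 - F.eval₂ (sk F) (cx (F1 F)) * cz (F1 F) + 1 = 0 := by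
  have h := cz_eq (F1 F)
  rw [F1_eval₂] at h
  exact h

/-- The functions on the second factor. -/
noncomputable def pr2 : CRing F →+* SRing F :=
  evC (F := F) (sk F) (cx (F1 F)) (cz (F1 F)) (sk_eqn F)

/-- The coordinate `x_1`. -/
noncomputable def x1 : SRing F := pr1 F (cx F)

/-- The coordinate `z_1`. -/
noncomputable def z1 : SRing F := pr1 F (cz F)

/-- The coordinate `x_2`. -/
noncomputable def x2 : SRing F := pr2 F (cx F)

/-- The coordinate `z_2`. -/
noncomputable def z2 : SRing F := pr2 F (cz F)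

theorem x2_eq : x2 F = cx (F1 F) := evC_cx (F := F) (sk F) (cx (F1 F)) (cz (F1 F)) (sk_eqn F)

theorem z2_eq : z2 F = cz (F1 F) := evC_cz (F := F) (sk F) (cx (F1 F)) (cz (F1 F)) (sk_eqn F)

theorem eval_x1 (p : K[X]) : p.eval₂ (sk F) (x1 F) = pr1 F (cp F p) := by
  rw [cp_eq, Polynomial.hom_eval₂]
  rfl

theorem pr2_cc (a : K) : pr2 F (cc F a) = sk F a :=
  evC_cc (F := F) (sk F) (cx (F1 F)) (cz (F1 F)) (sk_eqn F) a

theorem pr2_comp : (pr2 F).comp (cc F) = sk F := RingHom.ext fun a => pr2_cc F a

theorem eval_x2 (p : K[X]) : p.eval₂ (sk F) (x2 F) = pr2 F (cp F p) := by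
  rw [cp_eq, Polynomial.hom_eval₂, pr2_comp]
  rfl

theorem z1_eqn : z1 F ^ 2 - F.eval₂ (sk F) (x1 F) * z1 F + 1 = 0 := by
  have h := congrArg (pr1 F) (cz_eq F)
  rw [← cp_eq] at h
  simp only [map_add, map_sub, map_mul, map_pow, map_one, map_zero] at h
  rw [eval_x1]
  exact h

theorem z2_eqn : z2 F ^ 2 - F.eval₂ (sk F) (x2 F) * z2 F + 1 = 0 := by
  have h := congrArg (pr2 F) (cz_eq F)
  rw [← cp_eq] at h
  simp only [map_add, map_sub, map_mul, map_pow, map_one, map_zero] at h
  rw [eval_x2]
  exact h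

/-- The function `F(x_1) - F(x_2)`. -/
noncomputable def sdel : SRing F := F.eval₂ (sk F) (x1 F) - F.eval₂ (sk F) (x2 F)

/-- The coordinate ring of the open part `F(x_1) ≠ F(x_2)` of `C × C`. -/
def ORing : Type _ := Localization.Away (sdel F)

noncomputable instance : CommRing (ORing F) :=
  OreLocalization.instCommRing (R := SRing F) (S := Submonoid.powers (sdel F))

noncomputable instance : Algebra (SRing F) (ORing F) :=
  OreLocalization.instAlgebra (R := SRing F) (S := Submonoid.powers (sdel F)) (R₀ := SRing F)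

instance : IsLocalization.Away (sdel F) (ORing F) :=
  inferInstanceAs (IsLocalization.Away (sdel F) (Localization.Away (sdel F)))

/-- The restriction of functions to the open part. -/
noncomputable def toO : SRing F →+* ORing F := algebraMap (SRing F) (ORing F)

theorem isUnit_sdel : IsUnit (toO F (sdel F)) :=
  IsLocalization.Away.algebraMap_isUnit (sdel F)

theorem isUnit_z1 : IsUnit (toO F (z1 F)) := by
  refine IsUnit.map _ (IsUnit.of_mul_eq_one (F.eval₂ (sk F) (x1 F) - z1 F) ?_)
  linear_combination -(z1_eqn F)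

theorem isUnit_z2 : IsUnit (toO F (z2 F)) := by
  refine IsUnit.map _ (IsUnit.of_mul_eq_one (F.eval₂ (sk F) (x2 F) - z2 F) ?_)
  linear_combination -(z2_eqn F)

/-- The elements `ζ` of `K` with `F(ζ x) = F(x)`. -/
def Sym : Type _ := {ζ : K // F.comp (C ζ * X) = F}

theorem eval_sym {F : K[X]} {S : Type*} [CommRing S] (k : K →+* S) (y : S) (ζ : Sym F) :
    F.eval₂ k (k ζ.1 * y) = F.eval₂ k y := by
  have h := congrArg (Polynomial.eval₂ k y) ζ.2
  rwa [Polynomial.eval₂_comp, Polynomial.eval₂_mul, Polynomial.eval₂_C, Polynomial.eval₂_X] at h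

theorem sdvd (ζ : Sym F) : x1 F - sk F ζ.1 * x2 F ∣ sdel F := by
  unfold sdel
  rw [← eval_sym (sk F) (x2 F) ζ, ← Polynomial.eval_map, ← Polynomial.eval_map]
  exact Polynomial.sub_dvd_eval_sub _ _ _

theorem isUnit_diff (ζ : Sym F) : IsUnit (toO F (x1 F - sk F ζ.1 * x2 F)) :=
  isUnit_of_dvd_unit (map_dvd _ (sdvd F ζ)) (isUnit_sdel F)

/-- The entries of the symbol `{x_1 - ζ x_2, z_1, z_2}`. -/
noncomputable def ent (ζ : Sym F) : Fin 3 → (ORing F)ˣ :=
  Fin.cons (isUnit_diff F ζ).unit ![(isUnit_z1 F).unit, (isUnit_z2 F).unit]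

variable {F} {S : Type*} [CommRing S]

theorem evS_eqn (k : K →+* S) (x z y w : S) (h : z ^ 2 - F.eval₂ k x * z + 1 = 0)
    (h' : w ^ 2 - F.eval₂ k y * w + 1 = 0) :
    w ^ 2 - (F1 F).eval₂ (evC k x z h) y * w + 1 = 0 := by
  rw [F1_eval₂, evC_comp]
  exact h'

/-- The homomorphism on the coordinate ring of `C × C` defined by two points of the curve. -/
noncomputable def evS (k : K →+* S) (x z y w : S) (h : z ^ 2 - F.eval₂ k x * z + 1 = 0)
    (h' : w ^ 2 - F.eval₂ k y * w + 1 = 0) : SRing F →+* S :=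
  evC (F := F1 F) (evC k x z h) y w (evS_eqn k x z y w h h')

variable (k : K →+* S) (x z y w : S) (h : z ^ 2 - F.eval₂ k x * z + 1 = 0)
    (h' : w ^ 2 - F.eval₂ k y * w + 1 = 0)

theorem evS_pr1 (r : CRing F) : evS k x z y w h h' (pr1 F r) = evC k x z h r :=
  evC_cc (F := F1 F) (evC k x z h) y w (evS_eqn k x z y w h h') r

theorem evS_sk (a : K) : evS k x z y w h h' (sk F a) = k a :=
  (evS_pr1 k x z y w h h' (cc F a)).trans (evC_cc k x z h a)

theorem evS_cx : evS k x z y w h h' (cx (F1 F)) = y :=
  evC_cx (F := F1 F) (evC k x z h) y w (evS_eqn k x z y w h h')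

theorem evS_cz : evS k x z y w h h' (cz (F1 F)) = w :=
  evC_cz (F := F1 F) (evC k x z h) y w (evS_eqn k x z y w h h')

theorem evS_pr2 (r : CRing F) : evS k x z y w h h' (pr2 F r) = evC k y w h' r := by
  have e : (evS k x z y w h h').comp (pr2 F) = evC k y w h' := by
    refine hom_ext (fun a => ?_) ?_ ?_
    · rw [evC_cc, RingHom.comp_apply, pr2_cc, evS_sk]
    · have h1 : pr2 F (cx F) = cx (F1 F) := x2_eq F
      rw [evC_cx, RingHom.comp_apply, h1, evS_cx]
    · have h1 : pr2 F (cz F) = cz (F1 F) := z2_eq F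
      rw [evC_cz, RingHom.comp_apply, h1, evS_cz]
  rw [← RingHom.comp_apply, e]

theorem evS_x1 : evS k x z y w h h' (x1 F) = x := by
  unfold x1
  rw [evS_pr1, evC_cx]

theorem evS_z1 : evS k x z y w h h' (z1 F) = z := by
  unfold z1
  rw [evS_pr1, evC_cz]

theorem evS_x2 : evS k x z y w h h' (x2 F) = y := by
  unfold x2
  rw [evS_pr2, evC_cx]

theorem evS_z2 : evS k x z y w h h' (z2 F) = w := by
  unfold z2
  rw [evS_pr2, evC_cz]

theorem evS_comp_sk : (evS k x z y w h h').comp (sk F) = k :=
  RingHom.ext fun a => evS_sk k x z y w h h' a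

theorem evS_sdel : evS k x z y w h h' (sdel F) = F.eval₂ k x - F.eval₂ k y := by
  unfold sdel
  rw [map_sub, Polynomial.hom_eval₂, Polynomial.hom_eval₂, evS_x1, evS_x2, evS_comp_sk]

end surface

section domain

variable {K : Type*} [Field K] {F : K[X]}

theorem cc_injective {A : Type*} [CommRing A] [Nontrivial A] (F : A[X]) :
    Function.Injective (cc F) := (cp_injective F).comp C_injective

theorem natDegree_F1 : (F1 F).natDegree = F.natDegree :=
  natDegree_map_eq_of_injective (cc_injective F) F

theorem isDomain_SRing (hF : 0 < F.natDegree) : IsDomain (SRing F) := by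
  have : IsDomain (CRing F) := isDomain_CRing hF
  exact isDomain_CRing (by rw [natDegree_F1]; exact hF)

theorem sdel_ne_zero (hF : 0 < F.natDegree) : sdel F ≠ 0 := by
  have : IsDomain (CRing F) := isDomain_CRing hF
  have e : sdel F = cp (F1 F) (C (cp F F) - F1 F) := by
    unfold sdel
    rw [map_sub, eval_x1, x2_eq]
    congr 1
    rw [cp_eq, F1_eval₂]
    rfl
  rw [e, Ne, map_eq_zero_iff _ (cp_injective (F1 F)), sub_eq_zero]
  intro h
  have h1 := congrArg natDegree h
  rw [natDegree_C, natDegree_F1] at h1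
  omega

end domain

end Pool.Agent.Y775.CC
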