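import Pool.Agent.TH826.SX.Milnor
set_option autoImplicit false

/-!
The symbol `{x - y, z, w}` with `z + 1/z = P(x)`, `w + 1/w = P(y)`, `P` monic with integral
coefficients, is unramified.
-/

namespace Pool.Agent.Y775.CC

open scoped WithZero

open Polynomial

open Pool.Agent.TH826.MK (symb unitPart symb_update_mul symb_update_zpow symb_eq_zero'
  mem_unitPart_of_oneUnit' val_one_of_sub_one)

open Pool.Agent.TH826.SX (symb_self symb_upd_neg symb_upd_inv)

variable {L : Type*} [Field L] (v : Valuation L ℤᵐ⁰)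

section symbols

theorem upd0 (a b c d : Lˣ) : Function.update ![a, b, c] 0 d = ![d, b, c] := by
  funext i
  fin_cases i <;> rfl

theorem upd1 (a b c d : Lˣ) : Function.update ![a, b, c] 1 d = ![a, d, c] := by
  funext i
  fin_cases i <;> rfl

theorem upd2 (a b c d : Lˣ) : Function.update ![a, b, c] 2 d = ![a, b, d] := by
  funext i
  fin_cases i <;> rfl

theorem s_mul0 (a a' b c : Lˣ) : symb ![a * a', b, c] = symb ![a, b, c] + symb ![a', b, c] := by
  have h := symb_update_mul ![a, b, c] 0 a a'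
  rwa [upd0, upd0, upd0] at h

theorem s_mul1 (a b b' c : Lˣ) : symb ![a, b * b', c] = symb ![a, b, c] + symb ![a, b', c] := by
  have h := symb_update_mul ![a, b, c] 1 b b'
  rwa [upd1, upd1, upd1] at h

theorem s_mul2 (a b c c' : Lˣ) : symb ![a, b, c * c'] = symb ![a, b, c] + symb ![a, b, c'] := by
  have h := symb_update_mul ![a, b, c] 2 c c'
  rwa [upd2, upd2, upd2] at h

theorem s_neg0 (a b c : Lˣ) : symb ![-a, b, c] = symb ![a, b, c] := by
  have h := symb_upd_neg ![a, b, c] 0 a
  rwa [upd0, upd0] at h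

theorem s_zpow1 (a b c : Lˣ) (k : ℤ) : symb ![a, b ^ k, c] = (k : ℚ) • symb ![a, b, c] := by
  have h := symb_update_zpow ![a, b, c] 1 b k
  rwa [upd1, upd1] at h

theorem s_zpow2 (a b c : Lˣ) (k : ℤ) : symb ![a, b, c ^ k] = (k : ℚ) • symb ![a, b, c] := by
  have h := symb_update_zpow ![a, b, c] 2 c k
  rwa [upd2, upd2] at h

theorem s_inv1 (a b c : Lˣ) : symb ![a, b⁻¹, c] = - symb ![a, b, c] := by
  have h := symb_upd_inv ![a, b, c] 1 b
  rwa [upd1, upd1] at h

theorem s_self01 (a c : Lˣ) : symb ![a, a, c] = 0 :=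
  symb_self ![a, a, c] (i := 0) (j := 1) (by decide) rfl

theorem s_self12 (a b : Lˣ) : symb ![a, b, b] = 0 :=
  symb_self ![a, b, b] (i := 1) (j := 2) (by decide) rfl

theorem s_self02 (a b : Lˣ) : symb ![a, b, a] = 0 :=
  symb_self ![a, b, a] (i := 0) (j := 2) (by decide) rfl

theorem s_one0 {a b c : Lˣ} (h : v ((a : L) - 1) < 1) : symb ![a, b, c] ∈ unitPart v 3 :=
  mem_unitPart_of_oneUnit' v 0 ![a, b, c] h

theorem s_one1 {a b c : Lˣ} (h : v ((b : L) - 1) < 1) : symb ![a, b, c] ∈ unitPart v 3 :=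
  mem_unitPart_of_oneUnit' v 1 ![a, b, c] h

theorem s_one2 {a b c : Lˣ} (h : v ((c : L) - 1) < 1) : symb ![a, b, c] ∈ unitPart v 3 :=
  mem_unitPart_of_oneUnit' v 2 ![a, b, c] h

theorem s_unit {a b c : Lˣ} (ha : v (a : L) = 1) (hb : v (b : L) = 1) (hc : v (c : L) = 1) :
    symb ![a, b, c] ∈ unitPart v 3 := by
  refine Submodule.subset_span ⟨![a, b, c], fun i => ?_, rfl⟩
  fin_cases i
  · exact ha
  · exact hb
  · exact hc

/-- `{x - y, x, y} = 0` -/
theorem s_diff {x y h : Lˣ} (hh : (h : L) = x - y) : symb ![h, x, y] = 0 := by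
  have hx := x.ne_zero
  have ht0 : (1 : L) - (y : L) / x ≠ 0 := by
    intro h0
    apply h.ne_zero
    rw [hh]
    have h1 : (y : L) / x = 1 := by linear_combination -h0
    rw [div_eq_one_iff_eq hx] at h1
    rw [h1, sub_self]
  set u : Lˣ := Units.mk0 _ ht0 with hu
  set t : Lˣ := y / x with ht
  have hxu : h = x * u := by
    apply Units.ext
    rw [hh, hu, Units.val_mul, Units.val_mk0]
    field_simp
  have hy : y = x * t := by
    rw [ht, mul_div_cancel]
  rw [hxu, s_mul0, s_self01, zero_add]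
  rw [hy]
  rw [s_mul2, s_self12, zero_add]
  have h1 : symb (Function.update ![u, x, t] 2 t) = 0 := by
    refine symb_eq_zero' _ (i := 0) (j := 2) (by decide) ?_
    rw [upd2]
    show (u : L) + (t : L) = 1
    rw [hu, ht, Units.val_mk0, Units.val_div_eq_div_val]
    ring
  rwa [upd2] at h1

end symbols

section poly

variable {v} {P : L[X]} (hP : P.Monic) (hPv : ∀ i, v (P.coeff i) ≤ 1)

include hPv

theorem val_eval_le_one {x : L} (hx : v x ≤ 1) : v (P.eval x) ≤ 1 := by
  rw [Polynomial.eval_eq_sum_range]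
  refine Valuation.map_sum_le v fun i _ => ?_
  rw [map_mul, map_pow]
  exact mul_le_one' (hPv i) (pow_le_one' hx _)

theorem val_eval_sub_lt {x y : L} (hx : v x ≤ 1) (hy : v y ≤ 1) (h : v (x - y) < 1) :
    v (P.eval x - P.eval y) < 1 := by
  rw [Polynomial.eval_eq_sum_range, Polynomial.eval_eq_sum_range, ← Finset.sum_sub_distrib]
  refine (Valuation.map_sum_le v (g := v (x - y)) fun i _ => ?_).trans_lt h
  have h2 : P.coeff i * x ^ i - P.coeff i * y ^ i = P.coeff i * ((x - y) *
      ∑ j ∈ Finset.range i, x ^ j * y ^ (i - 1 - j)) := by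
    rw [(Commute.all x y).mul_geom_sum₂ i]
    ring
  rw [h2, map_mul, map_mul]
  have h3 : v (∑ j ∈ Finset.range i, x ^ j * y ^ (i - 1 - j)) ≤ 1 := by
    refine Valuation.map_sum_le v fun j _ => ?_
    rw [map_mul, map_pow, map_pow]
    exact mul_le_one' (pow_le_one' hx _) (pow_le_one' hy _)
  calc v (P.coeff i) * (v (x - y) * v (∑ j ∈ Finset.range i, x ^ j * y ^ (i - 1 - j))) ≤
      1 * (v (x - y) * 1) := mul_le_mul' (hPv i) (mul_le_mul' le_rfl h3)
    _ = v (x - y) := by rw [mul_one, one_mul]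

include hP

/-- Near infinity, `P(x)` is `x^n` times a one-unit. -/
theorem val_eval_div {x : L} (hx : 1 < v x) :
    v (P.eval x / x ^ P.natDegree - 1) < 1 := by
  have hx0 : x ≠ 0 := by
    rintro rfl
    rw [map_zero] at hx
    exact absurd hx (not_lt.2 zero_le_one)
  have hpow : x ^ P.natDegree ≠ 0 := pow_ne_zero _ hx0
  have h1 : P.eval x / x ^ P.natDegree - 1 = ∑ i ∈ Finset.range P.natDegree,
      P.coeff i * x ^ i / x ^ P.natDegree := by
    have h2 : P.eval x = x ^ P.natDegree + ∑ i ∈ Finset.range P.natDegree, P.coeff i * x ^ i := by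
      rw [Polynomial.eval_eq_sum_range, Finset.sum_range_succ, hP.coeff_natDegree, one_mul,
        add_comm]
    rw [h2, add_div, div_self hpow, add_sub_cancel_left, Finset.sum_div]
  rw [h1]
  refine Valuation.map_sum_lt v one_ne_zero fun i hi => ?_
  have hi' : i < P.natDegree := Finset.mem_range.1 hi
  have h3 : x ^ P.natDegree = x ^ i * x ^ (P.natDegree - i) := by
    rw [← pow_add]
    congr 1
    omega
  have h4 : P.coeff i * x ^ i / x ^ P.natDegree = P.coeff i * (x ^ (P.natDegree - i))⁻¹ := by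
    rw [h3]
    field_simp
  rw [h4, map_mul, map_inv₀, map_pow]
  have h5 : 1 < v x ^ (P.natDegree - i) := one_lt_pow₀ hx (by omega)
  calc v (P.coeff i) * (v x ^ (P.natDegree - i))⁻¹ ≤ 1 * (v x ^ (P.natDegree - i))⁻¹ :=
        mul_le_mul' (hPv i) le_rfl
    _ < 1 := by
        rw [one_mul]
        exact inv_lt_one_of_one_lt₀ h5

/-- Near infinity, `z` is a power of `x` times a one-unit. -/
theorem exists_zpow {x z : Lˣ} (hdeg : 0 < P.natDegree) (hx : 1 < v (x : L))
    (hz : (z : L) ^ 2 + 1 = P.eval (x : L) * z) :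
    ∃ (m : ℤ) (u : Lˣ), z = x ^ m * u ∧ v ((u : L) - 1) < 1 := by
  have h1 := val_eval_div hP hPv hx
  have h2 := val_one_of_sub_one h1
  have hx0 := x.ne_zero
  have hz0 := z.ne_zero
  have hPx : 1 < v (P.eval (x : L)) := by
    have h3 : v (P.eval (x : L)) = v (x : L) ^ P.natDegree := by
      rw [map_div₀, map_pow] at h2
      exact (div_eq_one_iff_eq (pow_ne_zero _ (zero_lt_one.trans hx).ne')).1 h2
    rw [h3]
    exact one_lt_pow₀ hx (by omega)
  have hPx0 : P.eval (x : L) ≠ 0 := by
    intro h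
    rw [h, map_zero] at hPx
    exact absurd hPx (not_lt.2 zero_le_one)
  set p : Lˣ := Units.mk0 _ hPx0 with hp
  set n : ℕ := P.natDegree with hn
  -- a product of two one-units
  have hmul : ∀ a b : L, v (a - 1) < 1 → v (b - 1) < 1 → v (a * b - 1) < 1 := by
    intro a b ha hb
    have e : a * b - 1 = (a - 1) * b + (b - 1) := by ring
    rw [e]
    refine (v.map_add _ _).trans_lt (max_lt ?_ hb)
    rw [map_mul, val_one_of_sub_one hb, mul_one]
    exact ha
  have hinv : ∀ a : L, v (a - 1) < 1 → v (a⁻¹ - 1) < 1 := by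
    intro a ha
    have ha1 := val_one_of_sub_one ha
    have ha0 : a ≠ 0 := by
      rintro rfl
      rw [map_zero] at ha1
      exact zero_ne_one ha1
    have e : a⁻¹ - 1 = -((a - 1) * a⁻¹) := by
      field_simp
      ring
    rw [e, Valuation.map_neg, map_mul, map_inv₀, ha1, inv_one, mul_one]
    exact ha
  rcases lt_trichotomy (v (z : L)) 1 with hlt | heq | hgt
  · -- `z = 1 / (x^n ...)`
    refine ⟨-(n : ℤ), z * x ^ (n : ℤ), ?_, ?_⟩
    · rw [zpow_neg, mul_comm z, inv_mul_cancel_left]
    · have e1 : ((z * x ^ (n : ℤ) : Lˣ) : L) = (P.eval (x : L) / (x : L) ^ n)⁻¹ *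
          (1 + (z : L) ^ 2) := by
        rw [Units.val_mul, zpow_natCast, Units.val_pow_eq_pow_val, inv_div, add_comm, hz]
        field_simp
      rw [e1]
      refine hmul _ _ (hinv _ h1) ?_
      rw [add_sub_cancel_left, map_pow]
      exact pow_lt_one₀ zero_le hlt (by norm_num)
  · exfalso
    have h3 : v ((z : L) ^ 2 + 1) ≤ 1 := by
      refine (v.map_add _ _).trans (max_le ?_ ?_)
      · rw [map_pow, heq, one_pow]
      · rw [map_one]
    rw [hz, map_mul, heq, mul_one] at h3
    exact absurd hPx (not_lt.2 h3)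
  · refine ⟨(n : ℤ), z * x ^ (-(n : ℤ)), ?_, ?_⟩
    · rw [zpow_neg, mul_comm z, mul_inv_cancel_left]
    · have e1 : ((z * x ^ (-(n : ℤ)) : Lˣ) : L) = (P.eval (x : L) / (x : L) ^ n) *
          (1 + ((z : L)⁻¹) ^ 2)⁻¹ := by
        have h4 : (z : L) ^ 2 + 1 ≠ 0 := by
          rw [hz]
          exact mul_ne_zero hPx0 hz0
        have h5 : 1 + ((z : L)⁻¹) ^ 2 = ((z : L) ^ 2 + 1) / (z : L) ^ 2 := by
          field_simp
        rw [Units.val_mul, zpow_neg, zpow_natCast, Units.val_inv_eq_inv_val,
          Units.val_pow_eq_pow_val, h5, inv_div, hz]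
        field_simp
      rw [e1]
      refine hmul _ _ h1 (hinv _ ?_)
      rw [add_sub_cancel_left, map_pow, map_inv₀]
      exact pow_lt_one₀ zero_le (inv_lt_one_of_one_lt₀ hgt) (by norm_num)

omit hP in
theorem val_z_eq_one {x : L} {z : Lˣ} (hx : v x ≤ 1)
    (hz : (z : L) ^ 2 + 1 = P.eval x * z) : v (z : L) = 1 := by
  have hPx := val_eval_le_one hPv hx
  rcases lt_trichotomy (v (z : L)) 1 with h | h | h
  · exfalso
    have h1 : v ((z : L) ^ 2 + 1) = 1 := by
      rw [add_comm]
      refine Valuation.map_one_add_of_lt v ?_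
      rw [map_pow]
      exact pow_lt_one₀ zero_le h (by norm_num)
    rw [hz, map_mul] at h1
    have h2 : v (P.eval x) * v (z : L) < 1 := by
      calc v (P.eval x) * v (z : L) ≤ 1 * v (z : L) := mul_le_mul' hPx le_rfl
        _ = v (z : L) := one_mul _
        _ < 1 := h
    exact h2.ne h1
  · exact h
  · exfalso
    have h1 : v ((z : L) ^ 2 + 1) = v (z : L) ^ 2 := by
      rw [← map_pow]
      refine Valuation.map_add_eq_of_lt_left v ?_
      rw [map_one, map_pow]
      exact one_lt_pow₀ h (by norm_num)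
    rw [hz, map_mul, pow_two] at h1
    have h2 : v (P.eval x) = v (z : L) :=
      mul_right_cancel₀ ((Valuation.ne_zero_iff v).2 z.ne_zero) h1
    rw [h2] at hPx
    exact absurd h (not_lt.2 hPx)

/-- The diagonal symbol is unramified. -/
theorem diag_mem_unitPart {x y : L} {z w h : Lˣ} (hdeg : 0 < P.natDegree)
    (hh : (h : L) = x - y) (hz : (z : L) ^ 2 + 1 = P.eval x * z)
    (hw : (w : L) ^ 2 + 1 = P.eval y * w) : symb ![h, z, w] ∈ unitPart v 3 := by
  have hunit : ∀ {a : L}, 1 < v a → ∃ a' : Lˣ, (a' : L) = a := by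
    intro a ha
    have ha0 : a ≠ 0 := by
      rintro rfl
      rw [map_zero] at ha
      exact absurd ha (not_lt.2 zero_le_one)
    exact ⟨Units.mk0 a ha0, rfl⟩
  rcases lt_or_ge 1 (v x) with hx | hx
  · obtain ⟨x', rfl⟩ := hunit hx
    obtain ⟨m, u, hm, hu⟩ := exists_zpow hP hPv hdeg hx hz
    rcases lt_or_ge 1 (v y) with hy | hy
    · obtain ⟨y', rfl⟩ := hunit hy
      obtain ⟨k, t, hk, ht⟩ := exists_zpow hP hPv hdeg hy hw
      rw [hm, hk, s_mul1, s_mul2, s_zpow1, s_zpow2, s_diff hh, smul_zero, smul_zero, zero_add]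
      exact Submodule.add_mem _ (s_one2 v ht) (s_one1 v hu)
    · have hxu : v ((1 : L) - y / x' - 1) < 1 := by
        have e : (1 : L) - y / x' - 1 = -(y / x') := by ring
        rw [e, Valuation.map_neg, map_div₀, div_lt_one₀ (zero_lt_one.trans hx)]
        exact hy.trans_lt hx
      have hu0 : (1 : L) - y / x' ≠ 0 := by
        intro h0
        rw [h0, zero_sub, Valuation.map_neg, map_one] at hxu
        exact lt_irrefl _ hxu
      have hxh : h = x' * Units.mk0 _ hu0 := by
        apply Units.ext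
        have := x'.ne_zero
        rw [hh, Units.val_mul, Units.val_mk0]
        field_simp
      rw [hxh, hm, s_mul0, s_mul1, s_zpow1, s_self01, smul_zero, zero_add]
      exact Submodule.add_mem _ (s_one1 v hu) (s_one0 v hxu)
  · rcases lt_or_ge 1 (v y) with hy | hy
    · obtain ⟨y', rfl⟩ := hunit hy
      obtain ⟨k, t, hk, ht⟩ := exists_zpow hP hPv hdeg hy hw
      have hxu : v ((1 : L) - x / y' - 1) < 1 := by
        have e : (1 : L) - x / y' - 1 = -(x / y') := by ring
        rw [e, Valuation.map_neg, map_div₀, div_lt_one₀ (zero_lt_one.trans hy)]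
        exact hx.trans_lt hy
      have hu0 : (1 : L) - x / y' ≠ 0 := by
        intro h0
        rw [h0, zero_sub, Valuation.map_neg, map_one] at hxu
        exact lt_irrefl _ hxu
      have hxh : h = -(y' * Units.mk0 _ hu0) := by
        apply Units.ext
        have := y'.ne_zero
        rw [hh, Units.val_neg, Units.val_mul, Units.val_mk0]
        field_simp
        ring
      rw [hxh, hk, s_neg0, s_mul0, s_mul2, s_zpow2, s_self02, smul_zero, zero_add]
      exact Submodule.add_mem _ (s_one2 v ht) (s_one0 v hxu)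
    · have hz1 := val_z_eq_one hPv hx hz
      have hw1 := val_z_eq_one hPv hy hw
      have hhle : v (h : L) ≤ 1 := by
        rw [hh]
        exact (v.map_sub _ _).trans (max_le hx hy)
      rcases hhle.lt_or_eq with hlt | heq
      · have h1 : v (P.eval x - P.eval y) < 1 :=
          val_eval_sub_lt hPv hx hy (by rw [← hh]; exact hlt)
        have h2 : ((z : L) - w) * (z * w - 1) = (P.eval x - P.eval y) * (z * w) := by
          linear_combination (w : L) * hz - (z : L) * hw
        have h3 : v (((z : L) - w) * (z * w - 1)) < 1 := by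
          rw [h2, map_mul, map_mul, hz1, hw1, mul_one, mul_one]
          exact h1
        rw [map_mul] at h3
        have h4 : v ((z : L) - w) < 1 ∨ v ((z : L) * w - 1) < 1 := by
          by_contra hcon
          push Not at hcon
          exact absurd h3 (not_lt.2 (one_le_mul hcon.1 hcon.2))
        rcases h4 with h4 | h4
        · have e : z = w * (z / w) := by rw [mul_div_cancel]
          rw [e, s_mul1, s_self12, zero_add]
          refine s_one1 v ?_
          have e2 : ((z / w : Lˣ) : L) - 1 = ((z : L) - w) / w := by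
            rw [Units.val_div_eq_div_val]
            have := w.ne_zero
            field_simp
          rw [e2, map_div₀, hw1, div_one]
          exact h4
        · have e : z = w⁻¹ * (z * w) := by
            rw [mul_comm z w, inv_mul_cancel_left]
          rw [e, s_mul1, s_inv1, s_self12, neg_zero, zero_add]
          exact s_one1 v (by rw [Units.val_mul]; exact h4)
      · exact s_unit v heq hz1 hw1

end poly

end Pool.Agent.Y775.CC
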