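import Pool.Agent.Y775.CC.Ring
import Pool.Agent.Y775.CC.Unram
import Pool.Agent.Y775.CC.Pair
import Pool.Agent.TH826.MK.Variety
set_option autoImplicit false

/-!
Tori in the complex points of the open part `F(x_1) ≠ F(x_2)` of `C × C`, and the symbols
`{x_1 - ζ x_2, z_1, z_2}`.
-/

namespace Pool.Agent.Y775.CC

open Polynomial

open scoped WithZero

open Pool.Agent.TH826.MK (Torus KQ symb pairing circ norm_circ contDiff_circ circ_add_one vf
  Unramified unitPart)

section smooth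

variable {d : ℕ}

theorem contDiff_evC {A : Type*} [CommRing A] {G : A[X]} {k : (Fin d → ℝ) → A →+* ℂ}
    {x z : (Fin d → ℝ) → ℂ} (h : ∀ θ, z θ ^ 2 - G.eval₂ (k θ) (x θ) * z θ + 1 = 0)
    (hk : ∀ a, ContDiff ℝ 2 fun θ => k θ a) (hx : ContDiff ℝ 2 x) (hz : ContDiff ℝ 2 z)
    (r : CRing G) : ContDiff ℝ 2 fun θ => evC (k θ) (x θ) (z θ) (h θ) r := by
  have hpol : ∀ p : A[X], ContDiff ℝ 2 fun θ => p.eval₂ (k θ) (x θ) := by
    intro p
    have e : (fun θ => p.eval₂ (k θ) (x θ)) = fun θ =>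
        ∑ i ∈ Finset.range (p.natDegree + 1), k θ (p.coeff i) * (x θ) ^ i := by
      funext θ
      rw [Polynomial.eval₂_eq_sum_range]
    rw [e]
    exact ContDiff.sum fun i _ => (hk _).mul (hx.pow i)
  obtain ⟨p, hp⟩ := AdjoinRoot.mk_surjective (g := ceq G) r
  have e : (fun θ => evC (k θ) (x θ) (z θ) (h θ) r) = fun θ =>
      ∑ i ∈ Finset.range (p.natDegree + 1), (p.coeff i).eval₂ (k θ) (x θ) * (z θ) ^ i := by
    funext θ
    rw [← hp, evC_mk, Polynomial.eval₂_eq_sum_range]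
    rfl
  rw [e]
  exact ContDiff.sum fun i _ => (hpol _).mul (hz.pow i)

end smooth

section points

variable {K : Type*} [Field K] {F : K[X]} {S : Type*} [Field S]

/-- two points of the curve with different values of `F` -/
structure PtO (F : K[X]) (k : K →+* S) (x z y w : S) : Prop where
  eq1 : z ^ 2 - F.eval₂ k x * z + 1 = 0
  eq2 : w ^ 2 - F.eval₂ k y * w + 1 = 0
  ne : F.eval₂ k x ≠ F.eval₂ k y

variable {k : K →+* S} {x z y w : S}

theorem PtO.isUnit (h : PtO F k x z y w) :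
    IsUnit (evS k x z y w h.eq1 h.eq2 (sdel F)) := by
  rw [evS_sdel]
  exact (sub_ne_zero.2 h.ne).isUnit

/-- evaluation of the regular functions on the open part of `C × C` -/
noncomputable def PtO.ev (h : PtO F k x z y w) : ORing F →+* S :=
  IsLocalization.Away.lift (sdel F) h.isUnit

theorem PtO.ev_toO (h : PtO F k x z y w) (r : SRing F) :
    h.ev (toO F r) = evS k x z y w h.eq1 h.eq2 r :=
  IsLocalization.Away.lift_eq (sdel F) h.isUnit r

theorem PtO.ev_congr {x' z' y' w' : S} (h : PtO F k x z y w) (h' : PtO F k x' z' y' w')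
    (e1 : x = x') (e2 : z = z') (e3 : y = y') (e4 : w = w') : h.ev = h'.ev := by
  subst e1
  subst e2
  subst e3
  subst e4
  rfl

end points

section torus

variable {K : Type*} [Field K] {F : K[X]} {s : K →+* ℂ}

theorem contDiff_ev {d : ℕ} {x z y w : (Fin d → ℝ) → ℂ}
    (h : ∀ θ, PtO F s (x θ) (z θ) (y θ) (w θ)) (hx : ContDiff ℝ 2 x) (hz : ContDiff ℝ 2 z)
    (hy : ContDiff ℝ 2 y) (hw : ContDiff ℝ 2 w) (r : ORing F) :
    ContDiff ℝ 2 fun θ => (h θ).ev r := by
  have hS : ∀ a : SRing F, ContDiff ℝ 2 fun θ =>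
      evS s (x θ) (z θ) (y θ) (w θ) (h θ).eq1 (h θ).eq2 a := by
    intro a
    exact contDiff_evC (G := F1 F) (k := fun θ => evC s (x θ) (z θ) (h θ).eq1)
      (fun θ => evS_eqn s (x θ) (z θ) (y θ) (w θ) (h θ).eq1 (h θ).eq2)
      (fun b => contDiff_evC (fun θ => (h θ).eq1) (fun a => contDiff_const) hx hz b) hy hw a
  obtain ⟨m, a, ha⟩ := IsLocalization.Away.surj (sdel F) r
  have e : (fun θ => (h θ).ev r) = fun θ => evS s (x θ) (z θ) (y θ) (w θ) (h θ).eq1 (h θ).eq2 a *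
      (evS s (x θ) (z θ) (y θ) (w θ) (h θ).eq1 (h θ).eq2 (sdel F))⁻¹ ^ m := by
    funext θ
    have h1 := congrArg (h θ).ev ha
    have h2 : (h θ).ev (r * algebraMap (SRing F) (ORing F) (sdel F) ^ m) =
        (h θ).ev r * (h θ).ev (toO F (sdel F)) ^ m := by
      rw [map_mul, map_pow]
      rfl
    have h3 : (h θ).ev (algebraMap (SRing F) (ORing F) a) = (h θ).ev (toO F a) := rfl
    rw [h2, h3, PtO.ev_toO, PtO.ev_toO] at h1
    have h4 := (h θ).isUnit.ne_zero
    rw [← h1, inv_pow, mul_assoc, mul_inv_cancel₀ (pow_ne_zero _ h4), mul_one]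
  rw [e]
  exact (hS a).mul (((hS (sdel F)).inv fun θ => (h θ).isUnit.ne_zero).pow m)

/-- A product torus. -/
noncomputable def mkT {X Z Y W : ℝ → ℂ} (hX : ContDiff ℝ 2 X) (hZ : ContDiff ℝ 2 Z)
    (hY : ContDiff ℝ 2 Y) (hW : ContDiff ℝ 2 W) (pX : ∀ t, X (t + 1) = X t)
    (pZ : ∀ t, Z (t + 1) = Z t) (pY : ∀ t, Y (t + 1) = Y t) (pW : ∀ t, W (t + 1) = W t)
    (hP : ∀ a b, PtO F s (X a) (Z a) (Y b) (W b)) : Torus (ORing F) 2 where
  e θ := (hP (θ 0) (θ 1)).ev
  smooth r := contDiff_ev (x := fun θ => X (θ 0)) (z := fun θ => Z (θ 0))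
    (y := fun θ => Y (θ 1)) (w := fun θ => W (θ 1)) (fun θ => hP (θ 0) (θ 1))
    (hX.comp (contDiff_apply ℝ ℝ 0)) (hZ.comp (contDiff_apply ℝ ℝ 0))
    (hY.comp (contDiff_apply ℝ ℝ 1)) (hW.comp (contDiff_apply ℝ ℝ 1)) r
  periodic θ i := by
    have h0 : ∀ (f : ℝ → ℂ), (∀ t, f (t + 1) = f t) → ∀ l : Fin 2,
        f ((θ + Pi.single i 1 : Fin 2 → ℝ) l) = f (θ l) := by
      intro f hf l
      by_cases hl : l = i
      · rw [hl, Pi.add_apply, Pi.single_eq_same, hf]
      · rw [Pi.add_apply, Pi.single_eq_of_ne hl, add_zero]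
    exact PtO.ev_congr _ _ (h0 X pX 0) (h0 Z pZ 0) (h0 Y pY 1) (h0 W pW 1)

/-- A loop in the curve. -/
noncomputable def mkL {X Z : ℝ → ℂ} (hX : ContDiff ℝ 2 X) (hZ : ContDiff ℝ 2 Z)
    (pX : ∀ t, X (t + 1) = X t) (pZ : ∀ t, Z (t + 1) = Z t)
    (hP : ∀ t, Z t ^ 2 - F.eval₂ s (X t) * Z t + 1 = 0) : Torus (CRing F) 1 where
  e θ := evC s (X (θ 0)) (Z (θ 0)) (hP (θ 0))
  smooth r := contDiff_evC (x := fun θ => X (θ 0)) (z := fun θ => Z (θ 0)) (fun θ => hP (θ 0))
    (fun a => contDiff_const) (hX.comp (contDiff_apply ℝ ℝ 0)) (hZ.comp (contDiff_apply ℝ ℝ 0)) r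
  periodic θ i := by
    have h0 : (θ + Pi.single i 1 : Fin 1 → ℝ) 0 = θ 0 + 1 := by
      rw [Pi.add_apply, Subsingleton.elim i 0, Pi.single_eq_same]
    have hXe : X ((θ + Pi.single i 1 : Fin 1 → ℝ) 0) = X (θ 0) := by rw [h0, pX]
    have hZe : Z ((θ + Pi.single i 1 : Fin 1 → ℝ) 0) = Z (θ 0) := by rw [h0, pZ]
    refine hom_ext (fun a => ?_) ?_ ?_
    · rw [evC_cc, evC_cc]
    · rw [evC_cx, evC_cx, hXe]
    · rw [evC_cz, evC_cz, hZe]

end torus

section unram

variable {K : Type*} [Field K] {F : K[X]}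

/-- The symbols `{x_1 - ζ x_2, z_1, z_2}` are unramified at all discrete valuations. -/
theorem symb_ent_mem_unramified (hm : F.Monic) (hF : ∀ i, IsIntegral ℤ (F.coeff i))
    (hdeg : 0 < F.natDegree) {L : Type*} [Field L] (f : ORing F →+* L) (ζ : Sym F) :
    KQ.map 3 f (symb (ent F ζ)) ∈ Unramified L 3 := by
  rw [KQ.map_symb]
  unfold Unramified
  simp only [Submodule.mem_iInf]
  intro v _
  set c : K →+* L := (f.comp (toO F)).comp (sk F) with hc
  have e1 : (fun i => Units.map (f : ORing F →* L) (ent F ζ i)) =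
      ![Units.map (f : ORing F →* L) (isUnit_diff F ζ).unit,
        Units.map (f : ORing F →* L) (isUnit_z1 F).unit,
        Units.map (f : ORing F →* L) (isUnit_z2 F).unit] := by
    funext i
    fin_cases i <;> rfl
  rw [e1]
  have hev : ∀ (p : K[X]) (y : SRing F), f (toO F (p.eval₂ (sk F) y)) =
      (p.map c).eval (f (toO F y)) := by
    intro p y
    have h1 := Polynomial.hom_eval₂ p (sk F) (f.comp (toO F)) y
    rw [Polynomial.eval_map]
    exact h1
  have hq : ∀ z y : SRing F, z ^ 2 - F.eval₂ (sk F) y * z + 1 = 0 →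
      (f (toO F z)) ^ 2 + 1 = (F.map c).eval (f (toO F y)) * f (toO F z) := by
    intro z y h
    have h1 := congrArg (fun r => f (toO F r)) h
    simp only [map_add, map_sub, map_mul, map_pow, map_one, map_zero] at h1
    rw [← hev]
    linear_combination h1
  have hP : (F.map c).Monic := hm.map c
  have hPv : ∀ i, v ((F.map c).coeff i) ≤ 1 := by
    intro i
    rw [coeff_map]
    exact Pool.Agent.TH826.MK.val_le_one_of_integral v (map_isIntegral_int _ (hF i))
  have hPdeg : 0 < (F.map c).natDegree := by rwa [hm.natDegree_map]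
  refine diag_mem_unitPart (x := f (toO F (x1 F))) (y := f (toO F (sk F ζ.1 * x2 F)))
    hP hPv hPdeg ?_ ?_ ?_
  · show f (toO F (x1 F - sk F ζ.1 * x2 F)) = _
    rw [map_sub, map_sub]
  · exact hq (z1 F) (x1 F) (z1_eqn F)
  · refine hq (z2 F) (sk F ζ.1 * x2 F) ?_
    rw [eval_sym]
    exact z2_eqn F

end unram

end Pool.Agent.Y775.CC
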